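import Pool.Agent.P8H79.QA.Rational

/-! A discrete group cannot contain two of the groups `Γ m`. -/

set_option autoImplicit false

open Matrix

namespace Pool.Agent.P8H79.QA

theorem rG_mem {v : Fin 4 → ℝ} (hv : 0 < lor v v) : rG v ∈ IsomH3 := by
  have hn : 0 < lor v v := hv
  let C : Sys Unit := mkSys (fun _ => v) (fun _ => hn) (fun s t hst => absurd rfl hst)
  exact C.R_mem ()

/-- rotations of infinite order -/
theorem rot_pow {e f : Fin 4 → ℝ} (he : lor e e = 1) (hf : lor f f = 1) (n : ℕ) :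
    ap ((rG e * rG f) ^ n) e =
      Sys.pp (-lor e f) (2 * n + 1) • e + Sys.pp (-lor e f) (2 * n) • f := by
  have he' : lor e e ≠ 0 := by rw [he]; norm_num
  have hf' : lor f f ≠ 0 := by rw [hf]; norm_num
  set c := -lor e f with hc
  have hef : lor e f = -c := by rw [hc]; ring
  have hfe : lor f e = -c := by rw [lor_comm]; exact hef
  have h1 : ap (rG e * rG f) e = (4 * c ^ 2 - 1) • e + (2 * c) • f := by
    rw [ap_mul, ap_rG hf', ap_rG he', lor_sub_left, lor_smul_left, he, hf, hfe, hef]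
    module
  have h2 : ap (rG e * rG f) f = (-(2 * c)) • e - f := by
    rw [ap_mul, ap_rG hf', ap_rG he', lor_sub_left, lor_smul_left, he, hf, hfe]
    module
  induction n with
  | zero => simp [Sys.pp]
  | succ n ih =>
    rw [pow_succ', ap_mul, ih, ap_add, ap_smul, ap_smul, h1, h2]
    have e1 : Sys.pp c (2 * (n + 1)) = 2 * c * Sys.pp c (2 * n + 1) - Sys.pp c (2 * n) := rfl
    have e2 : Sys.pp c (2 * (n + 1) + 1) = 2 * c * Sys.pp c (2 * (n + 1)) -
      Sys.pp c (2 * n + 1) := rfl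
    rw [e2, e1]
    module

theorem pp_odd (k : ℕ) : ∃ z : ℤ, Odd z ∧ 2 ^ k * Sys.pp (-(1 / 4)) (k + 1) = z := by
  have h : ∀ k, (∃ z : ℤ, Odd z ∧ 2 ^ k * Sys.pp (-(1 / 4)) (k + 1) = z) ∧
      (∃ z : ℤ, Odd z ∧ 2 ^ (k + 1) * Sys.pp (-(1 / 4)) (k + 2) = z) := by
    intro k
    induction k with
    | zero =>
      refine ⟨⟨1, by decide, by simp [Sys.pp]⟩, ⟨-1, by decide, ?_⟩⟩
      simp [Sys.pp]
      norm_num
    | succ k ih =>
      obtain ⟨⟨a, ha, ha'⟩, ⟨b, hb, hb'⟩⟩ := ih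
      refine ⟨⟨b, hb, hb'⟩, ⟨-b - 4 * a, ?_, ?_⟩⟩
      · have : Even (4 * a) := ⟨2 * a, by ring⟩
        exact hb.neg.sub_even this
      · have e : Sys.pp (-(1 / 4)) (k + 1 + 2) = 2 * (-(1 / 4)) * Sys.pp (-(1 / 4)) (k + 1 + 1) -
          Sys.pp (-(1 / 4)) (k + 1) := rfl
        push_cast
        rw [e, ← ha', ← hb']
        ring
  exact (h k).1

theorem pp_ne (k : ℕ) : Sys.pp (-(1 / 4)) (k + 1) ≠ 0 := by
  intro h
  obtain ⟨z, hz, hz'⟩ := pp_odd k
  rw [h, mul_zero] at hz'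
  have : z = 0 := by exact_mod_cast hz'.symm
  rw [this] at hz
  exact (by decide : ¬ Odd (0 : ℤ)) hz

theorem exists_hyp {x : Fin 4 → ℝ} (hx : lor x x < 0) : ∃ c : ℝ, c ≠ 0 ∧ c • x ∈ Hyp := by
  have h0 : x 0 ≠ 0 := by
    intro h
    unfold lor at hx
    rw [h] at hx
    nlinarith [sq_nonneg (x 1), sq_nonneg (x 2), sq_nonneg (x 3)]
  set s := Real.sqrt (-lor x x) with hs
  have hs0 : 0 < s := Real.sqrt_pos.2 (by linarith)
  have hss : s * s = -lor x x := Real.mul_self_sqrt (by linarith)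
  have hl : ∀ c : ℝ, c ^ 2 = (s⁻¹) ^ 2 → lor (c • x) (c • x) = -1 := by
    intro c hc
    rw [lor_smul_left, lor_smul_right]
    have h1 : lor x x = -(s * s) := by rw [hss]; ring
    calc c * (c * lor x x) = c ^ 2 * lor x x := by ring
      _ = -1 := by rw [hc, h1]; field_simp
  rcases lt_or_gt_of_ne h0 with h | h
  · refine ⟨-s⁻¹, by simpa using hs0.ne', hl _ (by ring), ?_⟩
    simp only [Pi.smul_apply, smul_eq_mul]
    have := inv_pos.2 hs0
    nlinarith
  · refine ⟨s⁻¹, inv_ne_zero hs0.ne', hl _ rfl, ?_⟩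
    simp only [Pi.smul_apply, smul_eq_mul]
    exact mul_pos (inv_pos.2 hs0) h

/-- a discrete group contains no rotation with cosine `1 / 4` of the half angle -/
theorem no_rotation {M : Subgroup (GL (Fin 4) ℝ)} (hM : M ≤ IsomH3) (hd : DiscreteTopology M)
    {a b p : Fin 4 → ℝ} (ha : 0 < lor a a) (hb : 0 < lor b b) (hp : lor p p < 0)
    (hpa : lor p a = 0) (hpb : lor p b = 0) (hab : lor a b = 1 / 4 * Real.sqrt (lor a a) *
      Real.sqrt (lor b b)) (hra : rG a ∈ M) (hrb : rG b ∈ M) : False := by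
  have sa := Real.sqrt_pos.2 ha
  have sb := Real.sqrt_pos.2 hb
  have h1 : rG (nv a) = rG a := by
    unfold nv
    exact rG_smul ha.ne' (inv_ne_zero sa.ne')
  have h2 : rG (nv b) = rG b := by
    unfold nv
    exact rG_smul hb.ne' (inv_ne_zero sb.ne')
  have h3 : lor (nv a) (nv b) = 1 / 4 := by
    rw [lor_nv, hab]
    field_simp
  obtain ⟨c, hc, hcp⟩ := exists_hyp hp
  set T := rG a * rG b with hT
  have hTM : T ∈ M := mul_mem hra hrb
  have hTp : ∀ n : ℕ, ap (T ^ n) (c • p) = c • p := by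
    have hT1 : ap T (c • p) = c • p := by
      rw [hT, ap_mul, ap_smul, ap_smul, ap_rG hb.ne', hpb]
      simp only [mul_zero, zero_div, zero_smul, sub_zero]
      rw [ap_rG ha.ne', hpa]
      simp
    intro n
    induction n with
    | zero => simp
    | succ n ih => rw [pow_succ, ap_mul, hT1, ih]
  obtain ⟨ε, hε, hs⟩ := sep_of_discrete hM hd
  obtain ⟨N, hN⟩ := finite_bound ε (4 * (c • p) 0 * (c • p) 0 * 1) hε
  have hfin := (hN M hM hs).1
  have hmaps : Set.MapsTo (fun k : ℕ => T ^ k) Set.univ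
      {g : GL (Fin 4) ℝ | g ∈ M ∧ g.1 0 0 ≤ 4 * (c • p) 0 * (c • p) 0 * 1} := by
    intro k _
    refine ⟨pow_mem hTM k, ?_⟩
    have := g00_le (hM (pow_mem hTM k)) hcp hcp
    rw [hTp k, hcp.1, neg_neg] at this
    exact this
  obtain ⟨k, _, l, _, hkl, heq⟩ :=
    Set.infinite_univ.exists_ne_map_eq_of_mapsTo hmaps hfin
  wlog hlt : k < l generalizing k l
  · exact this l (Set.mem_univ _) k (Set.mem_univ _) hkl.symm heq.symm
      (lt_of_le_of_ne (not_lt.1 hlt) hkl.symm)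
  change T ^ k = T ^ l at heq
  obtain ⟨n, hn⟩ : ∃ n, l = k + (n + 1) := ⟨l - k - 1, by omega⟩
  have h4 : T ^ (n + 1) = 1 := by
    rw [hn, pow_add] at heq
    exact mul_left_cancel (a := T ^ k) (by rw [mul_one]; exact heq.symm)
  have h5 := rot_pow (nv_norm ha) (nv_norm hb) (n + 1)
  rw [h1, h2, ← hT, h4, ap_one, h3] at h5
  -- product with the second vector
  have h6 := congrArg (fun x => lor x (nv b)) h5
  have h7 := congrArg (fun x => lor x (nv a)) h5
  simp only [lor_add_left, lor_smul_left, h3, nv_norm ha, nv_norm hb, lor_comm (nv b) (nv a)]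
    at h6 h7
  have h8 : Sys.pp (-(1 / 4)) (2 * (n + 1)) ≠ 0 := by
    rw [show 2 * (n + 1) = (2 * n + 1) + 1 by ring]
    exact pp_ne _
  apply h8
  linarith

theorem rG_conj {h : GL (Fin 4) ℝ} (hh : h ∈ IsomH3) {v : Fin 4 → ℝ} (hv : 0 < lor v v) :
    rG (ap h v) = h * rG v * h⁻¹ := by
  have h1 : lor (ap h v) (ap h v) = lor v v := isom_lor hh _ _
  apply ap_ext
  intro x
  rw [ap_rG (by rw [h1]; exact hv.ne'), ap_mul, ap_mul, ap_rG hv.ne', h1, ap_sub, ap_smul,
    ap_ap_inv]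
  congr 4
  have := isom_lor hh (ap h⁻¹ x) v
  rw [ap_ap_inv] at this
  exact this

/-- The bad pair. -/
theorem bad_pair {M : Subgroup (GL (Fin 4) ℝ)} (hM : M ≤ IsomH3) (hd : DiscreteTopology M)
    (j : ℕ) (h1 : rG (emb (uu (j + 1))) ∈ M) (h2 : rG (emb (ww j)) ∈ M)
    (h3 : rG (emb (ww (j + 4))) ∈ M) : False := by
  have h3j : (0 : ℝ) < 3 ^ j := by positivity
  have q1 : qf (ww j) (uu (j + 1)) = 3 ^ j * (-33 / 2) := by
    rw [qf_wu, ww_zero, uu_one]; simp [qf]; norm_num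
  have q2 : qf (uu (j + 1)) (uu (j + 1)) = 3 ^ j * 99 := by
    rw [qf_uu_self]; ring
  have q3 : qf (ww j) (ww (j + 4)) = 3 ^ j * (-45) := by
    rw [qf_ww, ww_zero, ww_four]; simp [qf]; norm_num
  have q4 : qf (uu (j + 1)) (ww (j + 4)) = 3 ^ j * (297 / 2) := by
    rw [show j + 4 = j + 1 + 3 by ring, qf_uw, uu_zero, ww_three, pow_succ]; simp [qf]; ring
  have q5 : qf (ww j) (ww j) = 3 ^ j * 2 := by rw [qf_ww_self]; ring
  have q6 : qf (ww (j + 4)) (ww (j + 4)) = 3 ^ j * 162 := by rw [qf_ww_self, pow_add]; ring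
  set a : Fin 4 → ℝ := ww j + (1 / 3 : ℝ) • uu (j + 1) with ha
  have qadd : ∀ x y z : Fin 4 → ℝ, qf (x + y) z = qf x z + qf y z := by
    intro x y z; unfold qf; simp only [Pi.add_apply]; ring
  have haa : qf a a = 3 ^ j * 2 := by
    rw [ha, qadd, qf_add_right, qf_add_right, qf_smul_left, qf_smul_right, qf_smul_left,
      qf_smul_right, qf_comm (uu (j + 1)) (ww j), q1, q2, q5]
    ring
  have haw : qf a (ww (j + 4)) = 3 ^ j * (9 / 2) := by
    rw [ha, qadd, qf_smul_left, q3, q4]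
    ring
  have hemb : emb a = ap (rG (emb (uu (j + 1)))) (emb (ww j)) := by
    rw [ap_rG (norm_uu _).ne', lor_emb, lor_emb, q1, q2, ha, emb_add, emb_smul]
    have : 2 * (3 ^ j * (-33 / 2)) / (3 ^ j * 99) = (-(1 / 3) : ℝ) := by
      field_simp
      norm_num
    rw [this]
    module
  have hra : rG (emb a) ∈ M := by
    rw [hemb, rG_conj (rG_mem (norm_uu _)) (norm_ww _)]
    exact mul_mem (mul_mem h1 h2) (inv_mem h1)
  set p : Fin 4 → ℝ := gg^[j] ![132, -33, -44, 10] with hp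
  have r1 : qf p p = 3 ^ j * (-330) := by
    have := qf_iter j 0 ![132, -33, -44, 10] ![132, -33, -44, 10]
    rw [add_zero] at this
    rw [hp, this]
    simp [qf]
    norm_num
  have r2 : qf p (ww j) = 3 ^ j * (-66) := by
    have := qf_iter j 0 ![132, -33, -44, 10] ![0, 1, 0, 0]
    rw [add_zero] at this
    have e : ww j = gg^[j] ![0, 1, 0, 0] := rfl
    rw [hp, e, this]
    simp [qf]
    norm_num
  have r3 : qf p (ww (j + 4)) = 0 := by
    have := qf_iter j 4 ![132, -33, -44, 10] ![0, 1, 0, 0]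
    have e : ww (j + 4) = gg^[j + 4] ![0, 1, 0, 0] := rfl
    have e4 : gg^[4] ![0, 1, 0, 0] = ww 4 := rfl
    rw [hp, e, this, e4, ww_four]
    simp [qf]
    norm_num
  have r4 : qf p (uu (j + 1)) = 3 ^ j * 198 := by
    have := qf_iter j 1 ![132, -33, -44, 10] ![0, 0, 0, 1]
    have e : uu (j + 1) = gg^[j + 1] ![0, 0, 0, 1] := rfl
    have e4 : gg^[1] ![0, 0, 0, 1] = uu 1 := rfl
    rw [hp, e, this, e4, uu_one]
    simp [qf]
    norm_num
  have r5 : qf p a = 0 := by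
    rw [ha, qf_add_right, qf_smul_right, r2, r4]
    ring
  refine no_rotation hM hd (a := emb a) (b := emb (ww (j + 4))) (p := emb p) ?_ (norm_ww _)
    ?_ ?_ ?_ ?_ hra h3
  · rw [lor_emb, haa]; positivity
  · rw [lor_emb, r1]; nlinarith
  · rw [lor_emb, r5]
  · rw [lor_emb, r3]
  · rw [lor_emb, lor_emb, lor_emb, haa, haw, q6, mul_assoc, ← Real.sqrt_mul (by positivity)]
    have : (3 : ℝ) ^ j * 2 * (3 ^ j * 162) = (3 ^ j * 18) ^ 2 := by ring
    rw [this, Real.sqrt_sq (by positivity)]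
    ring

theorem not_both {M : Subgroup (GL (Fin 4) ℝ)} (hM : M ≤ IsomH3) (hd : DiscreteTopology M)
    {m m' : ℕ} (hmm : m < m') (h : Gam m ≤ M) (h' : Gam m' ≤ M) : False :=
  bad_pair hM hd m (h (ru_mem m)) (h (rw_mem m (by omega))) (h' (rw_mem m' (by omega)))

end Pool.Agent.P8H79.QA
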