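import Pool.Agent.P8H79.QA.Defs

/-! Basic facts on the Lorentz form and the group `IsomH3`. -/

set_option autoImplicit false

open Matrix

namespace Pool.Agent.P8H79.QA

/-- the action of a matrix on vectors -/
def ap (g : GL (Fin 4) ℝ) (x : Fin 4 → ℝ) : Fin 4 → ℝ := g.1 *ᵥ x

theorem ap_def (g : GL (Fin 4) ℝ) (x : Fin 4 → ℝ) : g.1 *ᵥ x = ap g x := rfl

@[simp] theorem ap_one (x : Fin 4 → ℝ) : ap 1 x = x := by
  simp [ap]

theorem ap_mul (g h : GL (Fin 4) ℝ) (x : Fin 4 → ℝ) : ap (g * h) x = ap g (ap h x) := by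
  simp [ap, mulVec_mulVec]

@[simp] theorem ap_inv_ap (g : GL (Fin 4) ℝ) (x : Fin 4 → ℝ) : ap g⁻¹ (ap g x) = x := by
  rw [← ap_mul, inv_mul_cancel, ap_one]

@[simp] theorem ap_ap_inv (g : GL (Fin 4) ℝ) (x : Fin 4 → ℝ) : ap g (ap g⁻¹ x) = x := by
  rw [← ap_mul, mul_inv_cancel, ap_one]

theorem ap_add (g : GL (Fin 4) ℝ) (x y : Fin 4 → ℝ) : ap g (x + y) = ap g x + ap g y :=
  mulVec_add _ _ _

theorem ap_sub (g : GL (Fin 4) ℝ) (x y : Fin 4 → ℝ) : ap g (x - y) = ap g x - ap g y :=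
  mulVec_sub _ _ _

theorem ap_neg (g : GL (Fin 4) ℝ) (x : Fin 4 → ℝ) : ap g (-x) = -ap g x :=
  mulVec_neg _ _

theorem ap_smul (g : GL (Fin 4) ℝ) (c : ℝ) (x : Fin 4 → ℝ) : ap g (c • x) = c • ap g x :=
  mulVec_smul _ _ _

theorem ap_zero (g : GL (Fin 4) ℝ) : ap g 0 = 0 := mulVec_zero _

theorem ap_ext {g h : GL (Fin 4) ℝ} (H : ∀ x, ap g x = ap h x) : g = h := by
  apply Units.ext
  ext i j
  have := congrFun (H (Pi.single j 1)) i
  simpa [ap] using this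

theorem lor_comm (x y : Fin 4 → ℝ) : lor x y = lor y x := by unfold lor; ring

theorem lor_add_left (x y z : Fin 4 → ℝ) : lor (x + y) z = lor x z + lor y z := by
  unfold lor; simp only [Pi.add_apply]; ring

theorem lor_add_right (x y z : Fin 4 → ℝ) : lor x (y + z) = lor x y + lor x z := by
  unfold lor; simp only [Pi.add_apply]; ring

theorem lor_sub_left (x y z : Fin 4 → ℝ) : lor (x - y) z = lor x z - lor y z := by
  unfold lor; simp only [Pi.sub_apply]; ring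

theorem lor_sub_right (x y z : Fin 4 → ℝ) : lor x (y - z) = lor x y - lor x z := by
  unfold lor; simp only [Pi.sub_apply]; ring

theorem lor_neg_left (x y : Fin 4 → ℝ) : lor (-x) y = -lor x y := by
  unfold lor; simp only [Pi.neg_apply]; ring

theorem lor_neg_right (x y : Fin 4 → ℝ) : lor x (-y) = -lor x y := by
  unfold lor; simp only [Pi.neg_apply]; ring

theorem lor_smul_left (c : ℝ) (x y : Fin 4 → ℝ) : lor (c • x) y = c * lor x y := by
  unfold lor; simp only [Pi.smul_apply, smul_eq_mul]; ring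

theorem lor_smul_right (c : ℝ) (x y : Fin 4 → ℝ) : lor x (c • y) = c * lor x y := by
  unfold lor; simp only [Pi.smul_apply, smul_eq_mul]; ring

@[simp] theorem lor_zero_left (x : Fin 4 → ℝ) : lor 0 x = 0 := by unfold lor; simp

@[simp] theorem lor_zero_right (x : Fin 4 → ℝ) : lor x 0 = 0 := by unfold lor; simp

/-- the form is nondegenerate -/
theorem eq_zero_of_lor {x : Fin 4 → ℝ} (h : ∀ y, lor x y = 0) : x = 0 := by
  have h0 := h (Pi.single 0 1)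
  have h1 := h (Pi.single 1 1)
  have h2 := h (Pi.single 2 1)
  have h3 := h (Pi.single 3 1)
  unfold lor at h0 h1 h2 h3
  simp at h0 h1 h2 h3
  ext i
  fin_cases i <;> simp_all

/-- the base point -/
def oo : Fin 4 → ℝ := ![1, 0, 0, 0]

theorem oo_mem : oo ∈ Hyp := by
  constructor
  · unfold lor oo; simp
  · simp [oo]

theorem lor_oo (x : Fin 4 → ℝ) : lor oo x = - x 0 := by
  unfold lor oo; simp

theorem isom_lor {g : GL (Fin 4) ℝ} (hg : g ∈ IsomH3) (x y : Fin 4 → ℝ) :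
    lor (ap g x) (ap g y) = lor x y := hg.1 x y

theorem isom_hyp {g : GL (Fin 4) ℝ} (hg : g ∈ IsomH3) {x : Fin 4 → ℝ} (hx : x ∈ Hyp) :
    ap g x ∈ Hyp := hg.2 x hx

theorem lor_ap_left {g : GL (Fin 4) ℝ} (hg : g ∈ IsomH3) (x y : Fin 4 → ℝ) :
    lor (ap g x) y = lor x (ap g⁻¹ y) := by
  rw [← isom_lor hg x (ap g⁻¹ y), ap_ap_inv]

/-- for `z` in the forward cone the space part is bounded by the time part -/
theorem space_le {z : Fin 4 → ℝ} (hz : z ∈ Hyp) :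
    (z 1) ^ 2 + (z 2) ^ 2 + (z 3) ^ 2 = (z 0) ^ 2 - 1 := by
  have := hz.1
  unfold lor at this
  linarith [this]

theorem one_le_zero {z : Fin 4 → ℝ} (hz : z ∈ Hyp) : 1 ≤ z 0 := by
  have h := space_le hz
  have := hz.2
  nlinarith [sq_nonneg (z 1), sq_nonneg (z 2), sq_nonneg (z 3)]

/-- comparison of the time coordinate with the product with a point -/
theorem time_le {x z : Fin 4 → ℝ} (hx : x ∈ Hyp) (hz : z ∈ Hyp) :
    z 0 ≤ 2 * x 0 * (-lor x z) := by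
  have hx1 := space_le hx
  have hz1 := space_le hz
  have hx0 := hx.2
  have hz0 := hz.2
  set p := x 1 * z 1 + x 2 * z 2 + x 3 * z 3 with hp
  have hl : -lor x z = x 0 * z 0 - p := by unfold lor; rw [hp]; ring
  have hcs : p ^ 2 ≤ ((x 0) ^ 2 - 1) * ((z 0) ^ 2 - 1) := by
    rw [← hx1, ← hz1, hp]
    nlinarith [sq_nonneg (x 1 * z 2 - x 2 * z 1), sq_nonneg (x 1 * z 3 - x 3 * z 1),
      sq_nonneg (x 2 * z 3 - x 3 * z 2)]
  rw [hl]
  -- `p ≤ x0 z0 - z0 / (2 x0)`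
  have hX : 0 < x 0 * z 0 := mul_pos hx0 hz0
  by_contra hcon
  push Not at hcon
  have h1 : 2 * x 0 ^ 2 * z 0 - z 0 < 2 * x 0 * p := by nlinarith
  have hx1' := one_le_zero hx
  have h2 : 0 ≤ 2 * x 0 ^ 2 * z 0 - z 0 := by nlinarith [mul_pos hx0 hx0]
  have h3 : (2 * x 0 ^ 2 * z 0 - z 0) ^ 2 < (2 * x 0 * p) ^ 2 := by
    apply sq_lt_sq' <;> linarith
  have h4 : (2 * x 0 * p) ^ 2 ≤ 4 * x 0 ^ 2 * (((x 0) ^ 2 - 1) * ((z 0) ^ 2 - 1)) := by
    have : (2 * x 0 * p) ^ 2 = 4 * x 0 ^ 2 * p ^ 2 := by ring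
    rw [this]
    exact mul_le_mul_of_nonneg_left hcs (by positivity)
  have h5 : 0 ≤ x 0 ^ 2 - 1 := by nlinarith
  nlinarith [sq_nonneg (z 0), mul_nonneg h5 (sq_nonneg (x 0))]

theorem neg_lor_pos {x z : Fin 4 → ℝ} (hx : x ∈ Hyp) (hz : z ∈ Hyp) : 0 < -lor x z := by
  have h := time_le hx hz
  have h1 := hx.2
  have h2 := hz.2
  by_contra hcon
  push Not at hcon
  nlinarith

theorem g00 {g : GL (Fin 4) ℝ} : g.1 0 0 = (ap g oo) 0 := by
  simp [ap, oo, mulVec, dotProduct, Fin.sum_univ_four]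

theorem g00_inv {g : GL (Fin 4) ℝ} (hg : g ∈ IsomH3) : (ap g⁻¹ oo) 0 = (ap g oo) 0 := by
  have h1 : (ap g⁻¹ oo) 0 = - lor oo (ap g⁻¹ oo) := by rw [lor_oo]; ring
  have h2 : (ap g oo) 0 = - lor oo (ap g oo) := by rw [lor_oo]; ring
  rw [h1, h2, ← lor_ap_left hg, lor_comm]

theorem one_le_g00 {g : GL (Fin 4) ℝ} (hg : g ∈ IsomH3) : 1 ≤ g.1 0 0 := by
  rw [g00]; exact one_le_zero (isom_hyp hg oo_mem)

theorem single_apply_lor (x : Fin 4 → ℝ) (j : Fin 4) :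
    (lor x (Pi.single j 1)) ^ 2 = (x j) ^ 2 := by
  unfold lor
  fin_cases j <;> simp

theorem row_zero {g : GL (Fin 4) ℝ} (hg : g ∈ IsomH3) (j : Fin 4) :
    g.1 0 j = - lor (ap g⁻¹ oo) (Pi.single j 1) := by
  rw [lor_comm, ← lor_ap_left hg, lor_comm, lor_oo]
  simp [ap]

theorem row_zero_sq {g : GL (Fin 4) ℝ} (hg : g ∈ IsomH3) (j : Fin 4) :
    (g.1 0 j) ^ 2 ≤ (g.1 0 0) ^ 2 := by
  have hz : ap g⁻¹ oo ∈ Hyp := isom_hyp (inv_mem hg) oo_mem
  have h1 := space_le hz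
  have h2 : (g.1 0 j) ^ 2 = ((ap g⁻¹ oo) j) ^ 2 := by
    rw [row_zero hg j, neg_sq, single_apply_lor]
  have h3 : g.1 0 0 = (ap g⁻¹ oo) 0 := by rw [g00, g00_inv hg]
  rw [h2, h3]
  set z := ap g⁻¹ oo
  fin_cases j
  · exact le_rfl
  · simp only [Fin.mk_one]; nlinarith [sq_nonneg (z 2), sq_nonneg (z 3)]
  · simp only [Fin.reduceFinMk]; nlinarith [sq_nonneg (z 1), sq_nonneg (z 3)]
  · simp only [Fin.reduceFinMk]; nlinarith [sq_nonneg (z 1), sq_nonneg (z 2)]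

theorem entry_sq {g : GL (Fin 4) ℝ} (hg : g ∈ IsomH3) (i j : Fin 4) :
    (g.1 i j) ^ 2 ≤ 2 * (g.1 0 0) ^ 2 := by
  have h0 := row_zero_sq hg j
  have h00 := one_le_g00 hg
  have h1 : lor (ap g (Pi.single j 1)) (ap g (Pi.single j 1)) =
      lor (Pi.single j 1) (Pi.single j 1) := isom_lor hg _ _
  have h2 : lor (Pi.single j (1 : ℝ)) (Pi.single j 1) ≤ 1 := by
    unfold lor
    fin_cases j <;> simp
  have h3 : ∀ k, (ap g (Pi.single j 1)) k = g.1 k j := by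
    intro k; simp [ap]
  have h4 : -(g.1 0 j * g.1 0 j) + g.1 1 j * g.1 1 j + g.1 2 j * g.1 2 j + g.1 3 j * g.1 3 j ≤ 1 := by
    rw [← h1] at h2
    unfold lor at h2
    simpa only [h3] using h2
  fin_cases i
  · simp only [Fin.zero_eta]; nlinarith
  · simp only [Fin.mk_one]; nlinarith [sq_nonneg (g.1 2 j), sq_nonneg (g.1 3 j)]
  · simp only [Fin.reduceFinMk]; nlinarith [sq_nonneg (g.1 1 j), sq_nonneg (g.1 3 j)]
  · simp only [Fin.reduceFinMk]; nlinarith [sq_nonneg (g.1 1 j), sq_nonneg (g.1 2 j)]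

theorem abs_entry {g : GL (Fin 4) ℝ} (hg : g ∈ IsomH3) (i j : Fin 4) :
    |g.1 i j| ≤ 2 * g.1 0 0 := by
  have h := entry_sq hg i j
  have h1 := one_le_g00 hg
  apply abs_le_of_sq_le_sq _ (by linarith)
  nlinarith

/-- bound for the size of an isometry by the displacement of points -/
theorem g00_le {g : GL (Fin 4) ℝ} (hg : g ∈ IsomH3) {x y : Fin 4 → ℝ} (hx : x ∈ Hyp)
    (hy : y ∈ Hyp) : g.1 0 0 ≤ 4 * x 0 * y 0 * (-lor (ap g x) y) := by
  have h1 := time_le hy (isom_hyp hg hx)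
  have h2 := time_le hx (isom_hyp (inv_mem hg) oo_mem)
  have h3 : -lor x (ap g⁻¹ oo) = (ap g x) 0 := by
    rw [← lor_ap_left hg, lor_comm, lor_oo]; ring
  rw [h3, g00_inv hg, ← g00] at h2
  rw [lor_comm] at h1
  have hx0 := hx.2
  calc g.1 0 0 ≤ 2 * x 0 * (ap g x) 0 := h2
    _ ≤ 2 * x 0 * (2 * y 0 * (-lor (ap g x) y)) := by
        apply mul_le_mul_of_nonneg_left h1 (by positivity)
    _ = _ := by ring

/-! ### discreteness -/

/-- no element of `Γ` other than the identity has all its entries closer than `ε` to those of the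
identity. -/
def Sep (ε : ℝ) (Γ : Subgroup (GL (Fin 4) ℝ)) : Prop :=
  ∀ g ∈ Γ, (∀ i j, |g.1 i j - (1 : Matrix (Fin 4) (Fin 4) ℝ) i j| < ε) → g = 1

theorem inv_entry {g : GL (Fin 4) ℝ} (hg : g ∈ IsomH3) (i j : Fin 4) :
    |g⁻¹.1 i j - (1 : Matrix (Fin 4) (Fin 4) ℝ) i j| =
      |g.1 j i - (1 : Matrix (Fin 4) (Fin 4) ℝ) j i| := by
  have h1 : lor (ap g⁻¹ (Pi.single j 1)) (Pi.single i 1) =
      lor (Pi.single j 1) (ap g (Pi.single i 1)) := by
    rw [lor_ap_left (inv_mem hg), inv_inv]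
  have h3 : ∀ (h : GL (Fin 4) ℝ) (k l : Fin 4), (ap h (Pi.single l 1)) k = h.1 k l := by
    intro h k l; simp [ap]
  unfold lor at h1
  simp only [h3] at h1
  fin_cases i <;> fin_cases j <;> simp at h1 ⊢ <;> first
    | (rw [h1, abs_neg])
    | (rw [← h1, abs_neg])
    | (rw [h1])
    | (rw [← h1])

theorem mem_nhds_matrix {A : Set (Matrix (Fin 4) (Fin 4) ℝ)} (hA : A ∈ nhds 1) :
    ∃ ε > 0, ∀ m : Matrix (Fin 4) (Fin 4) ℝ,
      (∀ i j, |m i j - (1 : Matrix (Fin 4) (Fin 4) ℝ) i j| < ε) → m ∈ A := by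
  obtain ⟨ε, hε, h⟩ := (Metric.mem_nhds_iff (α := Fin 4 → Fin 4 → ℝ)).1 hA
  refine ⟨ε, hε, fun m hm => h ?_⟩
  rw [Metric.mem_ball, dist_pi_lt_iff hε]
  intro i
  rw [dist_pi_lt_iff hε]
  intro j
  rw [Real.dist_eq]
  exact hm i j

theorem mem_nhds_gl {U : Set (GL (Fin 4) ℝ)} (hU : U ∈ nhds 1) :
    ∃ ε > 0, ∀ g ∈ IsomH3, (∀ i j, |g.1 i j - (1 : Matrix (Fin 4) (Fin 4) ℝ) i j| < ε) →
      g ∈ U := by
  rw [(Units.isInducing_embedProduct (M := Matrix (Fin 4) (Fin 4) ℝ)).nhds_eq_comap] at hU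
  obtain ⟨V, hV, hVU⟩ := hU
  have h1 : (Units.embedProduct (Matrix (Fin 4) (Fin 4) ℝ)) 1 = (1, MulOpposite.op 1) := by
    show ((1 : Matrix (Fin 4) (Fin 4) ℝ),
      MulOpposite.op (((1 : (Matrix (Fin 4) (Fin 4) ℝ)ˣ)⁻¹ : (Matrix (Fin 4) (Fin 4) ℝ)ˣ) :
        Matrix (Fin 4) (Fin 4) ℝ)) = _
    rw [inv_one, Units.val_one]
  rw [h1, mem_nhds_prod_iff] at hV
  obtain ⟨A, hA, B, hB, hAB⟩ := hV
  have hB' : {m : Matrix (Fin 4) (Fin 4) ℝ | MulOpposite.op m ∈ B} ∈ nhds 1 :=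
    MulOpposite.continuous_op.continuousAt.preimage_mem_nhds hB
  obtain ⟨ε₁, hε₁, H₁⟩ := mem_nhds_matrix hA
  obtain ⟨ε₂, hε₂, H₂⟩ := mem_nhds_matrix hB'
  refine ⟨min ε₁ ε₂, lt_min hε₁ hε₂, fun g hg hgε => hVU ?_⟩
  apply hAB
  refine ⟨H₁ _ fun i j => lt_of_lt_of_le (hgε i j) (min_le_left _ _), ?_⟩
  exact H₂ _ fun i j => by
    rw [inv_entry hg]
    exact lt_of_lt_of_le (hgε j i) (min_le_right _ _)

theorem sep_of_discrete {Γ : Subgroup (GL (Fin 4) ℝ)} (hΓ : Γ ≤ IsomH3)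
    (h : DiscreteTopology Γ) : ∃ ε > 0, Sep ε Γ := by
  have h1 : ({1} : Set Γ) ∈ nhds (1 : Γ) := by
    rw [nhds_discrete]
    exact Set.mem_singleton _
  rw [nhds_subtype_eq_comap] at h1
  obtain ⟨U, hU, hUΓ⟩ := h1
  obtain ⟨ε, hε, H⟩ := mem_nhds_gl hU
  refine ⟨ε, hε, fun g hg hgε => ?_⟩
  have h2 : (⟨g, hg⟩ : Γ) ∈ ({1} : Set Γ) := hUΓ (H g (hΓ hg) hgε)
  exact congrArg Subtype.val (Set.mem_singleton_iff.1 h2)

theorem discrete_of_sep {Γ : Subgroup (GL (Fin 4) ℝ)} {ε : ℝ} (hε : 0 < ε) (h : Sep ε Γ) :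
    DiscreteTopology Γ := by
  apply discreteTopology_of_isOpen_singleton_one
  have h1 : ({1} : Set Γ) = {g : Γ | ∀ i j,
      |g.1.1 i j - (1 : Matrix (Fin 4) (Fin 4) ℝ) i j| < ε} := by
    ext g
    constructor
    · intro hg
      rw [Set.mem_singleton_iff] at hg
      subst hg
      intro i j
      simpa using hε
    · intro hg
      exact Subtype.ext (h g.1 g.2 hg)
  rw [h1]
  have h2 : {g : Γ | ∀ i j, |g.1.1 i j - (1 : Matrix (Fin 4) (Fin 4) ℝ) i j| < ε} =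
      ⋂ i, ⋂ j, {g : Γ | |g.1.1 i j - (1 : Matrix (Fin 4) (Fin 4) ℝ) i j| < ε} := by
    ext g
    simp
  rw [h2]
  refine isOpen_iInter_of_finite fun i => isOpen_iInter_of_finite fun j => ?_
  apply isOpen_lt _ continuous_const
  apply Continuous.abs
  apply Continuous.sub _ continuous_const
  have h3 : Continuous fun g : Γ => g.1.1 := Units.continuous_val.comp continuous_subtype_val
  exact (continuous_apply_apply i j).comp h3

/-! ### counting -/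

theorem inv_bound {g : GL (Fin 4) ℝ} (hg : g ∈ IsomH3) : g⁻¹.1 0 0 = g.1 0 0 := by
  rw [g00, g00_inv hg, ← g00]

/-- two elements of a separated group with close entries are equal -/
theorem eq_of_close {Γ : Subgroup (GL (Fin 4) ℝ)} (hΓ : Γ ≤ IsomH3) {ε K : ℝ}
    (h : Sep ε Γ) {g k : GL (Fin 4) ℝ} (hg : g ∈ Γ) (hk : k ∈ Γ) (hK : g.1 0 0 ≤ K)
    {δ : ℝ} (hδ : 8 * K * δ < ε) (hclose : ∀ i j, |g.1 i j - k.1 i j| ≤ δ) : g = k := by
  have h1 : g⁻¹ * k = 1 := by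
    apply h _ (mul_mem (inv_mem hg) hk)
    intro i j
    have e1 : (g⁻¹ * k).1 i j - (1 : Matrix (Fin 4) (Fin 4) ℝ) i j =
        ∑ l, g⁻¹.1 i l * (k.1 l j - g.1 l j) := by
      have e2 : (1 : Matrix (Fin 4) (Fin 4) ℝ) i j = (g⁻¹ * g).1 i j := by
        rw [inv_mul_cancel]; rfl
      rw [e2, Units.val_mul, Units.val_mul, mul_apply, mul_apply, ← Finset.sum_sub_distrib]
      exact Finset.sum_congr rfl fun l _ => by ring
    rw [e1]
    have hgi : ∀ i l, |g⁻¹.1 i l| ≤ 2 * K := fun i l =>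
      (abs_entry (inv_mem (hΓ hg)) i l).trans (by rw [inv_bound (hΓ hg)]; linarith)
    have hK0 : 0 ≤ 2 * K := (abs_nonneg _).trans (hgi 0 0)
    calc |∑ l, g⁻¹.1 i l * (k.1 l j - g.1 l j)|
        ≤ ∑ l, |g⁻¹.1 i l * (k.1 l j - g.1 l j)| := Finset.abs_sum_le_sum_abs _ _
      _ ≤ ∑ _l : Fin 4, 2 * K * δ := by
          apply Finset.sum_le_sum
          intro l _
          rw [abs_mul]
          apply mul_le_mul (hgi i l) _ (abs_nonneg _) hK0
          rw [abs_sub_comm]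
          exact hclose l j
      _ = 8 * K * δ := by rw [Finset.sum_const]; simp; ring
      _ < ε := hδ
  exact (inv_mul_eq_one.1 h1)

/-- uniform bound for the number of elements of bounded size of separated groups -/
theorem finite_bound (ε K : ℝ) (hε : 0 < ε) :
    ∃ N : ℕ, ∀ Γ : Subgroup (GL (Fin 4) ℝ), Γ ≤ IsomH3 → Sep ε Γ →
      {g : GL (Fin 4) ℝ | g ∈ Γ ∧ g.1 0 0 ≤ K}.Finite ∧
      {g : GL (Fin 4) ℝ | g ∈ Γ ∧ g.1 0 0 ≤ K}.ncard ≤ N := by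
  set K' := max K 1 with hK'
  have hK1 : 1 ≤ K' := le_max_right _ _
  set δ := ε / (16 * K') with hδ
  have hδ0 : 0 < δ := by positivity
  set R := ⌈2 * K' / δ⌉ + 1 with hR
  set F : Set (Fin 4 → Fin 4 → ℤ) := {f | ∀ i j, f i j ∈ Set.Icc (-R) R} with hF
  have hFfin : F.Finite := by
    have : F = Set.Icc (fun _ _ => -R) (fun _ _ => R) := by
      ext f
      simp only [hF, Set.mem_setOf_eq, Set.mem_Icc, Pi.le_def]
      constructor
      · intro h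
        exact ⟨fun i j => (h i j).1, fun i j => (h i j).2⟩
      · intro h i j
        exact ⟨h.1 i j, h.2 i j⟩
    rw [this]
    exact Set.finite_Icc _ _
  refine ⟨F.ncard, fun Γ hΓ hs => ?_⟩
  set fl : GL (Fin 4) ℝ → (Fin 4 → Fin 4 → ℤ) := fun g i j => ⌊g.1 i j / δ⌋ with hfl
  have hmaps : ∀ g ∈ {g : GL (Fin 4) ℝ | g ∈ Γ ∧ g.1 0 0 ≤ K}, fl g ∈ F := by
    rintro g ⟨hg, hgK⟩ i j
    have h1 := abs_entry (hΓ hg) i j
    have h2 : |g.1 i j| ≤ 2 * K' := h1.trans (by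
      have := hgK.trans (le_max_left K 1)
      linarith)
    rw [abs_le] at h2
    have h3 : g.1 i j / δ ≤ 2 * K' / δ := by
      apply div_le_div_of_nonneg_right h2.2 hδ0.le
    have h4 : -(2 * K' / δ) ≤ g.1 i j / δ := by
      rw [← neg_div]
      apply div_le_div_of_nonneg_right h2.1 hδ0.le
    have h5 : 2 * K' / δ ≤ ⌈2 * K' / δ⌉ := Int.le_ceil _
    constructor
    · rw [Int.le_floor]
      push_cast [hR]
      linarith
    · have h6 : (⌊g.1 i j / δ⌋ : ℝ) ≤ g.1 i j / δ := Int.floor_le _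
      have h7 : (⌊g.1 i j / δ⌋ : ℝ) ≤ (R : ℝ) := by
        push_cast [hR]
        linarith
      exact_mod_cast h7
  have hinj : Set.InjOn fl {g : GL (Fin 4) ℝ | g ∈ Γ ∧ g.1 0 0 ≤ K} := by
    rintro g ⟨hg, hgK⟩ k ⟨hk, hkK⟩ hgk
    apply eq_of_close hΓ hs hg hk (hgK.trans (le_max_left K 1)) (δ := δ)
    · have : 8 * K' * δ = ε / 2 := by rw [hδ]; field_simp; norm_num
      rw [← hK', this]
      linarith
    · intro i j
      have h1 : ⌊g.1 i j / δ⌋ = ⌊k.1 i j / δ⌋ := congrFun (congrFun hgk i) j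
      have h2 := Int.abs_sub_lt_one_of_floor_eq_floor h1
      rw [← sub_div, abs_div, abs_of_pos hδ0, div_lt_one hδ0] at h2
      exact h2.le
  exact ⟨Set.Finite.of_injOn hmaps hinj hFfin,
    Set.ncard_le_ncard_of_injOn fl hmaps hinj hFfin⟩

end Pool.Agent.P8H79.QA
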