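import Pool.Agent.P8H79.QA.Refl

/-! The chain of walls and the groups `Γ m`. -/

set_option autoImplicit false

open Matrix

namespace Pool.Agent.P8H79.QA

/-- the rational form -/
def qf (x y : Fin 4 → ℝ) : ℝ :=
  -(x 0 * y 0) + 2 * (x 1 * y 1) + 6 * (x 2 * y 2) + 33 * (x 3 * y 3)

/-- the change of coordinates -/
noncomputable def emb (y : Fin 4 → ℝ) : Fin 4 → ℝ :=
  ![y 0, Real.sqrt 2 * y 1, Real.sqrt 6 * y 2, Real.sqrt 33 * y 3]

/-- the inverse change of coordinates -/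
noncomputable def emi (x : Fin 4 → ℝ) : Fin 4 → ℝ :=
  ![x 0, (Real.sqrt 2)⁻¹ * x 1, (Real.sqrt 6)⁻¹ * x 2, (Real.sqrt 33)⁻¹ * x 3]

theorem emb_emi (x : Fin 4 → ℝ) : emb (emi x) = x := by
  have h2 : Real.sqrt 2 ≠ 0 := by positivity
  have h6 : Real.sqrt 6 ≠ 0 := by positivity
  have h33 : Real.sqrt 33 ≠ 0 := by positivity
  ext i
  fin_cases i <;> simp [emb, emi]

theorem emi_emb (x : Fin 4 → ℝ) : emi (emb x) = x := by
  have h2 : Real.sqrt 2 ≠ 0 := by positivity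
  have h6 : Real.sqrt 6 ≠ 0 := by positivity
  have h33 : Real.sqrt 33 ≠ 0 := by positivity
  ext i
  fin_cases i <;> simp [emb, emi]

theorem lor_emb (x y : Fin 4 → ℝ) : lor (emb x) (emb y) = qf x y := by
  unfold lor emb qf
  simp
  have h2 : Real.sqrt 2 * Real.sqrt 2 = 2 := Real.mul_self_sqrt (by norm_num)
  have h6 : Real.sqrt 6 * Real.sqrt 6 = 6 := Real.mul_self_sqrt (by norm_num)
  have h33 : Real.sqrt 33 * Real.sqrt 33 = 33 := Real.mul_self_sqrt (by norm_num)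
  linear_combination (x 1 * y 1) * h2 + (x 2 * y 2) * h6 + (x 3 * y 3) * h33

theorem qf_comm (x y : Fin 4 → ℝ) : qf x y = qf y x := by unfold qf; ring

theorem emb_smul (c : ℝ) (y : Fin 4 → ℝ) : emb (c • y) = c • emb y := by
  ext i
  fin_cases i <;> simp [emb] <;> ring

theorem emb_neg (y : Fin 4 → ℝ) : emb (-y) = -emb y := by
  ext i
  fin_cases i <;> simp [emb]

theorem emb_add (x y : Fin 4 → ℝ) : emb (x + y) = emb x + emb y := by
  ext i
  fin_cases i <;> simp [emb] <;> ring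

theorem qf_neg_left (x y : Fin 4 → ℝ) : qf (-x) y = -qf x y := by
  unfold qf; simp only [Pi.neg_apply]; ring

theorem qf_neg_right (x y : Fin 4 → ℝ) : qf x (-y) = -qf x y := by
  unfold qf; simp only [Pi.neg_apply]; ring

theorem qf_smul_left (c : ℝ) (x y : Fin 4 → ℝ) : qf (c • x) y = c * qf x y := by
  unfold qf; simp only [Pi.smul_apply, smul_eq_mul]; ring

theorem qf_smul_right (c : ℝ) (x y : Fin 4 → ℝ) : qf x (c • y) = c * qf x y := by
  unfold qf; simp only [Pi.smul_apply, smul_eq_mul]; ring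

theorem qf_add_right (x y z : Fin 4 → ℝ) : qf x (y + z) = qf x y + qf x z := by
  unfold qf; simp only [Pi.add_apply]; ring

/-- the similarity which shifts the chain -/
noncomputable def gg (y : Fin 4 → ℝ) : Fin 4 → ℝ :=
  ![27 / 4 * y 0 + 12 * y 2 + 99 / 4 * y 3,
    -9 / 4 * y 0 - 3 / 2 * y 1 - 9 / 2 * y 2 - 33 / 4 * y 3,
    -9 / 4 * y 0 + 1 / 2 * y 1 - 9 / 2 * y 2 - 33 / 4 * y 3,
    1 / 4 * y 0 + 9 / 4 * y 3]

/-- its inverse -/
noncomputable def gi (x : Fin 4 → ℝ) : Fin 4 → ℝ :=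
  ![9 / 4 * x 0 + 3 / 2 * x 1 + 9 / 2 * x 2 - 11 / 4 * x 3,
    (-x 1 + x 2) / 2,
    -2 / 3 * x 0 - 1 / 2 * x 1 - 3 / 2 * x 2,
    -1 / 4 * x 0 - 1 / 6 * x 1 - 1 / 2 * x 2 + 3 / 4 * x 3]

theorem gg_gi (x : Fin 4 → ℝ) : gg (gi x) = x := by
  ext i
  fin_cases i <;> simp [gg, gi] <;> ring

theorem gi_gg (x : Fin 4 → ℝ) : gi (gg x) = x := by
  ext i
  fin_cases i <;> simp [gg, gi] <;> ring

theorem qf_gg (x y : Fin 4 → ℝ) : qf (gg x) (gg y) = 3 * qf x y := by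
  unfold qf gg
  simp
  ring

theorem qf_gi (x y : Fin 4 → ℝ) : qf (gi x) y = 1 / 3 * qf x (gg y) := by
  have := qf_gg (gi x) y
  rw [gg_gi] at this
  linarith

theorem gg_four (x y : Fin 4 → ℝ) : qf x (gg (gg (gg (gg y)))) =
    3 * qf x (gg (gg (gg y))) + 9 * qf x (gg (gg y)) + 9 * qf x (gg y) - 9 * qf x y := by
  unfold qf gg
  simp
  ring

theorem iter_succ (k : ℕ) (y : Fin 4 → ℝ) : gg^[k + 1] y = gg (gg^[k] y) :=
  Function.iterate_succ_apply' gg k y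

theorem iter_rec (x y : Fin 4 → ℝ) (k : ℕ) : qf x (gg^[k + 4] y) =
    3 * qf x (gg^[k + 3] y) + 9 * qf x (gg^[k + 2] y) + 9 * qf x (gg^[k + 1] y) -
      9 * qf x (gg^[k] y) := by
  have h := gg_four x (gg^[k] y)
  rw [iter_succ (k + 3), iter_succ (k + 2), iter_succ (k + 1), iter_succ k]
  exact h

theorem qf_iter (i k : ℕ) (x y : Fin 4 → ℝ) :
    qf (gg^[i] x) (gg^[i + k] y) = 3 ^ i * qf x (gg^[k] y) := by
  induction i with
  | zero => simp
  | succ i ih =>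
    rw [show i + 1 + k = (i + k) + 1 by ring, iter_succ, iter_succ, qf_gg, ih, pow_succ]
    ring

theorem qf_iter_gi (j : ℕ) (x y : Fin 4 → ℝ) :
    qf (gi^[j] x) y = (1 / 3) ^ j * qf x (gg^[j] y) := by
  induction j generalizing y with
  | zero => simp
  | succ j ih =>
    rw [Function.iterate_succ_apply', qf_gi, ih, pow_succ, Function.iterate_succ_apply]
    ring

theorem gg_iter_gi (j : ℕ) (x : Fin 4 → ℝ) : gg^[j] (gi^[j] x) = x := by
  induction j with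
  | zero => rfl
  | succ j ih => rw [Function.iterate_succ_apply, Function.iterate_succ_apply', gg_gi, ih]

/-- the side walls -/
noncomputable def ww (k : ℕ) : Fin 4 → ℝ := gg^[k] ![0, 1, 0, 0]

/-- the separating walls -/
noncomputable def uu (k : ℕ) : Fin 4 → ℝ := gg^[k] ![0, 0, 0, 1]

theorem ww_succ (k : ℕ) : ww (k + 1) = gg (ww k) := iter_succ k _

theorem uu_succ (k : ℕ) : uu (k + 1) = gg (uu k) := iter_succ k _

theorem ww_zero : ww 0 = ![0, 1, 0, 0] := rfl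

theorem uu_zero : uu 0 = ![0, 0, 0, 1] := rfl

theorem ww_one : ww 1 = ![0, -3 / 2, 1 / 2, 0] := by
  rw [ww_succ, ww_zero]
  ext i
  fin_cases i <;> simp [gg]
  norm_num

theorem ww_two : ww 2 = ![6, 0, -3, 0] := by
  rw [ww_succ, ww_one]
  ext i
  fin_cases i <;> simp [gg] <;> norm_num

theorem ww_three : ww 3 = ![9 / 2, 0, 0, 3 / 2] := by
  rw [ww_succ, ww_two]
  ext i
  fin_cases i <;> simp [gg] <;> norm_num

theorem ww_four : ww 4 = ![135 / 2, -45 / 2, -45 / 2, 9 / 2] := by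
  rw [ww_succ, ww_three]
  ext i
  fin_cases i <;> simp [gg] <;> norm_num

theorem uu_one : uu 1 = ![99 / 4, -33 / 4, -33 / 4, 9 / 4] := by
  rw [uu_succ, uu_zero]
  ext i
  fin_cases i <;> simp [gg] <;> norm_num

theorem uu_two : uu 2 = ![495 / 4, -99 / 4, -165 / 4, 45 / 4] := by
  rw [uu_succ, uu_one]
  ext i
  fin_cases i <;> simp [gg] <;> norm_num

theorem uu_three : uu 3 = ![2475 / 4, -297 / 2, -198, 225 / 4] := by
  rw [uu_succ, uu_two]
  ext i
  fin_cases i <;> simp [gg] <;> norm_num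

theorem qf_ww (i k : ℕ) : qf (ww i) (ww (i + k)) = 3 ^ i * qf (ww 0) (ww k) := qf_iter i k _ _

theorem qf_uw (i k : ℕ) : qf (uu i) (ww (i + k)) = 3 ^ i * qf (uu 0) (ww k) := qf_iter i k _ _

theorem qf_wu (i k : ℕ) : qf (ww i) (uu (i + k)) = 3 ^ i * qf (ww 0) (uu k) := qf_iter i k _ _

theorem qf_uu (i k : ℕ) : qf (uu i) (uu (i + k)) = 3 ^ i * qf (uu 0) (uu k) := qf_iter i k _ _

theorem qf_ww_self (i : ℕ) : qf (ww i) (ww i) = 2 * 3 ^ i := by
  have := qf_ww i 0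
  rw [add_zero, ww_zero] at this
  rw [this]
  simp [qf]
  ring

theorem qf_uu_self (i : ℕ) : qf (uu i) (uu i) = 33 * 3 ^ i := by
  have := qf_uu i 0
  rw [add_zero, uu_zero] at this
  rw [this]
  simp [qf]
  ring

/-! ### the recurrence -/

/-- sequences with the characteristic polynomial of the shift -/
def Rec (f : ℕ → ℝ) : Prop := ∀ k, f (k + 4) = 3 * f (k + 3) + 9 * f (k + 2) + 9 * f (k + 1) - 9 * f k

theorem rec_ww (x : Fin 4 → ℝ) : Rec fun k => qf x (ww k) := fun k => iter_rec x _ k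

theorem rec_uu (x : Fin 4 → ℝ) : Rec fun k => qf x (uu k) := fun k => iter_rec x _ k

theorem Rec.neg {f : ℕ → ℝ} (h : Rec f) : Rec fun k => -f k := by
  intro k
  have := h k
  simp only
  linarith

theorem Rec.mono {f : ℕ → ℝ} (h : Rec f) {a : ℕ} (h0 : 0 ≤ f a) (h1 : f a ≤ f (a + 1))
    (h2 : f (a + 1) ≤ f (a + 2)) (h3 : f (a + 2) ≤ f (a + 3)) (k : ℕ) :
    0 ≤ f (a + k) ∧ f (a + k) ≤ f (a + k + 1) ∧ f (a + k + 1) ≤ f (a + k + 2) ∧
      f (a + k + 2) ≤ f (a + k + 3) := by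
  induction k with
  | zero => exact ⟨h0, h1, h2, h3⟩
  | succ k ih =>
    obtain ⟨i0, i1, i2, i3⟩ := ih
    have := h (a + k)
    refine ⟨?_, ?_, ?_, ?_⟩
    · rw [show a + (k + 1) = a + k + 1 by ring]; linarith
    · rw [show a + (k + 1) = a + k + 1 by ring]; exact i2
    · rw [show a + (k + 1) = a + k + 1 by ring]; exact i3
    · rw [show a + (k + 1) + 2 = a + k + 3 by ring, show a + (k + 1) + 3 = a + k + 4 by ring]
      linarith

theorem Rec.growth {f : ℕ → ℝ} (h : Rec f) {a : ℕ} (h0 : 0 ≤ f a) (h1 : f a ≤ f (a + 1))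
    (h2 : f (a + 1) ≤ f (a + 2)) (h3 : f (a + 2) ≤ f (a + 3)) {c : ℝ} (hc : 0 < c)
    (hb : c * 3 ^ (a + 3) ≤ (f (a + 3)) ^ 2) (hp : 0 < f (a + 3)) (k : ℕ) :
    0 < f (a + 3 + k) ∧ c * 3 ^ (a + 3 + k) ≤ (f (a + 3 + k)) ^ 2 := by
  induction k with
  | zero => exact ⟨hp, hb⟩
  | succ k ih =>
    obtain ⟨i0, i1, i2, i3⟩ := h.mono h0 h1 h2 h3 k
    have e := h (a + k)
    have h4 : 3 * f (a + k + 3) ≤ f (a + k + 4) := by linarith
    rw [show a + 3 + k = a + k + 3 by ring] at ih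
    rw [show a + 3 + (k + 1) = a + k + 4 by ring]
    refine ⟨by linarith [ih.1], ?_⟩
    have h5 : (3 * f (a + k + 3)) ^ 2 ≤ (f (a + k + 4)) ^ 2 := by
      apply pow_le_pow_left₀ _ h4
      linarith [ih.1]
    have h6 : c * 3 ^ (a + k + 4) = 3 * (c * 3 ^ (a + k + 3)) := by ring
    rw [h6]
    nlinarith [ih.2, sq_nonneg (f (a + k + 3))]

/-- products of side walls -/
theorem ww_good {k : ℕ} (hk : 4 ≤ k) :
    qf (ww 0) (ww k) < 0 ∧ 4 * 3 ^ k ≤ (qf (ww 0) (ww k)) ^ 2 := by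
  have h := (rec_ww (ww 0)).neg
  have e2 : qf (ww 0) (ww 2) = 0 := by rw [ww_zero, ww_two]; simp [qf]
  have e3 : qf (ww 0) (ww 3) = 0 := by rw [ww_zero, ww_three]; simp [qf]
  have e4 : qf (ww 0) (ww 4) = -45 := by rw [ww_zero, ww_four]; simp [qf]; norm_num
  have e1 : qf (ww 0) (ww 1) = -3 := by rw [ww_zero, ww_one]; simp [qf]; norm_num
  have e5 : qf (ww 0) (ww 5) = -108 := by
    have := rec_ww (ww 0) 1
    simp only [show 1 + 4 = 5 by rfl, show 1 + 3 = 4 by rfl, show 1 + 2 = 3 by rfl,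
      show 1 + 1 = 2 by rfl, e1, e2, e3, e4] at this
    rw [this]; norm_num
  rcases Nat.lt_or_ge k 5 with h5 | h5
  · have : k = 4 := by omega
    subst this
    rw [e4]; norm_num
  · obtain ⟨j, rfl⟩ : ∃ j, k = 2 + 3 + j := ⟨k - 5, by omega⟩
    have := h.growth (a := 2) (c := 4) (by simp [e2]) (by simp [e2, e3]) (by simp [e3, e4])
      (by simp [e4, e5]; norm_num) (by norm_num) (by simp [e5]; norm_num) (by simp [e5]) j
    refine ⟨by linarith [this.1], ?_⟩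
    have h2 := this.2
    rwa [neg_sq] at h2

/-- products of the bottom wall and the side walls -/
theorem uw_good {k : ℕ} (hk : 3 ≤ k) :
    0 < qf (uu 0) (ww k) ∧ 66 * 3 ^ k ≤ (qf (uu 0) (ww k)) ^ 2 := by
  have e0 : qf (uu 0) (ww 0) = 0 := by rw [ww_zero, uu_zero]; simp [qf]
  have e1 : qf (uu 0) (ww 1) = 0 := by rw [ww_one, uu_zero]; simp [qf]
  have e2 : qf (uu 0) (ww 2) = 0 := by rw [ww_two, uu_zero]; simp [qf]
  have e3 : qf (uu 0) (ww 3) = 99 / 2 := by rw [ww_three, uu_zero]; simp [qf]; norm_num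
  obtain ⟨j, rfl⟩ : ∃ j, k = 0 + 3 + j := ⟨k - 3, by omega⟩
  exact (rec_ww (uu 0)).growth (a := 0) (c := 66) (by simp [e0]) (by simp [e0, e1])
    (by simp [e1, e2]) (by simp [e2, e3]; norm_num) (by norm_num) (by simp [e3]; norm_num)
    (by simp [e3]) j

theorem uw_zero {k : ℕ} (hk : k < 3) : qf (uu 0) (ww k) = 0 := by
  interval_cases k
  · rw [ww_zero, uu_zero]; simp [qf]
  · rw [ww_one, uu_zero]; simp [qf]
  · rw [ww_two, uu_zero]; simp [qf]

/-- products of the side walls and the top wall -/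
theorem wu_good {k : ℕ} (hk : 1 ≤ k) :
    qf (ww 0) (uu k) < 0 ∧ 66 * 3 ^ k ≤ (qf (ww 0) (uu k)) ^ 2 := by
  have h := (rec_uu (ww 0)).neg
  have e0 : qf (ww 0) (uu 0) = 0 := by rw [ww_zero, uu_zero]; simp [qf]
  have e1 : qf (ww 0) (uu 1) = -33 / 2 := by rw [ww_zero, uu_one]; simp [qf]; norm_num
  have e2 : qf (ww 0) (uu 2) = -99 / 2 := by rw [ww_zero, uu_two]; simp [qf]; norm_num
  have e3 : qf (ww 0) (uu 3) = -297 := by rw [ww_zero, uu_three]; simp [qf]; norm_num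
  rcases Nat.lt_or_ge k 3 with h5 | h5
  · interval_cases k
    · rw [e1]; norm_num
    · rw [e2]; norm_num
  · obtain ⟨j, rfl⟩ : ∃ j, k = 0 + 3 + j := ⟨k - 3, by omega⟩
    have := h.growth (a := 0) (c := 66) (by simp [e0]) (by simp [e0, e1]; norm_num)
      (by simp [e1, e2]; norm_num) (by simp [e2, e3]; norm_num) (by norm_num)
      (by simp [e3]; norm_num) (by simp [e3]) j
    refine ⟨by linarith [this.1], ?_⟩
    have h2 := this.2
    rwa [neg_sq] at h2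

/-- products of the bottom wall and the top wall -/
theorem uu_good {k : ℕ} (hk : 1 ≤ k) :
    0 < qf (uu 0) (uu k) ∧ 1089 * 3 ^ k ≤ (qf (uu 0) (uu k)) ^ 2 := by
  have e0 : qf (uu 0) (uu 0) = 33 := by rw [uu_zero]; simp [qf]
  have e1 : qf (uu 0) (uu 1) = 297 / 4 := by rw [uu_zero, uu_one]; simp [qf]; norm_num
  have e2 : qf (uu 0) (uu 2) = 1485 / 4 := by rw [uu_zero, uu_two]; simp [qf]; norm_num
  have e3 : qf (uu 0) (uu 3) = 7425 / 4 := by rw [uu_zero, uu_three]; simp [qf]; norm_num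
  rcases Nat.lt_or_ge k 3 with h5 | h5
  · interval_cases k
    · rw [e1]; norm_num
    · rw [e2]; norm_num
  · obtain ⟨j, rfl⟩ : ∃ j, k = 0 + 3 + j := ⟨k - 3, by omega⟩
    exact (rec_uu (uu 0)).growth (a := 0) (c := 1089) (by simp [e0])
      (by simp [e0, e1]; norm_num) (by simp [e1, e2]; norm_num) (by simp [e2, e3]; norm_num)
      (by norm_num) (by simp [e3]; norm_num) (by simp [e3]) j

end Pool.Agent.P8H79.QA
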