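import Pool.Agent.P8H79.QA.BadPair

/-! Infinitely many conjugacy classes. -/

set_option autoImplicit false

open Matrix

namespace Pool.Agent.P8H79.QA

theorem commute_one {d : GL (Fin 4) ℝ} (hd : d ∈ IsomH3)
    (h : ∀ i < 4, d * rG (emb (ww i)) = rG (emb (ww i)) * d) : d = 1 := by
  have hev : ∀ i < 4, ap d (emb (ww i)) =
      (lor (ap d (emb (ww i))) (emb (ww i)) / lor (emb (ww i)) (emb (ww i))) • emb (ww i) := by
    intro i hi
    set v := emb (ww i) with hv
    have hn : 0 < lor v v := norm_ww i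
    have h1 := congrArg (fun g => ap g v) (h i hi)
    simp only [ap_mul] at h1
    rw [← hv, ap_rG hn.ne', ap_rG hn.ne', ap_sub, ap_smul] at h1
    have h2 : 2 * lor v v / lor v v = 2 := by field_simp
    rw [h2, sub_right_inj, mul_div_assoc, mul_smul] at h1
    exact smul_right_injective _ two_ne_zero h1
  have hiso : ∀ x y, lor (ap d x) (ap d y) = lor x y := isom_lor hd
  obtain ⟨a, ha⟩ : ∃ a : ℝ, ap d (emb (ww 0)) = a • emb (ww 0) := ⟨_, hev 0 (by norm_num)⟩
  obtain ⟨b, hb⟩ : ∃ a : ℝ, ap d (emb (ww 1)) = a • emb (ww 1) := ⟨_, hev 1 (by norm_num)⟩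
  obtain ⟨c, hc⟩ : ∃ a : ℝ, ap d (emb (ww 2)) = a • emb (ww 2) := ⟨_, hev 2 (by norm_num)⟩
  obtain ⟨e, he⟩ : ∃ a : ℝ, ap d (emb (ww 3)) = a • emb (ww 3) := ⟨_, hev 3 (by norm_num)⟩
  have key : ∀ {v w : Fin 4 → ℝ} {p q : ℝ}, ap d v = p • v → ap d w = q • w →
      lor v w ≠ 0 → p * q = 1 := by
    intro v w p q hv hw hvw
    have h1 := hiso v w
    rw [hv, hw, lor_smul_left, lor_smul_right, ← mul_assoc] at h1
    exact mul_right_cancel₀ hvw (by rw [h1, one_mul])
  have k00 := key ha ha (norm_ww 0).ne'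
  have k01 := key ha hb (lor_ww_succ 0)
  have k12 := key hb hc (lor_ww_succ 1)
  have k23 := key hc he (lor_ww_succ 2)
  have hab : b = a := by
    have : a * b = a * a := by rw [k01, k00]
    exact mul_left_cancel₀ (by rintro rfl; simp at k00) this
  have hbc : c = a := by
    have : a * c = a * a := by rw [← hab] at k00 ⊢; rw [k12, k00]
    exact mul_left_cancel₀ (by rintro rfl; simp at k00) this
  have hcd : e = a := by
    have : a * e = a * a := by rw [k00]; rw [hbc] at k23; exact k23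
    exact mul_left_cancel₀ (by rintro rfl; simp at k00) this
  have hall : ∀ x, ap d x = a • x := by
    have hP : LinearMap.eqLocus (Matrix.mulVecLin d.1) (a • LinearMap.id) = ⊤ := by
      apply span_w
      intro i hi
      interval_cases i
      · exact ha
      · rw [hab] at hb; exact hb
      · rw [hbc] at hc; exact hc
      · rw [hcd] at he; exact he
    intro x
    have : x ∈ LinearMap.eqLocus (Matrix.mulVecLin d.1) (a • LinearMap.id) := by
      rw [hP]; trivial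
    exact this
  have hpos : 0 < a := by
    have h1 := (isom_hyp hd oo_mem).2
    rw [hall] at h1
    simpa [oo] using h1
  have ha1 : a = 1 := by nlinarith
  apply ap_ext
  intro x
  rw [hall, ha1, one_smul, ap_one]

/-- conjugation -/
def cj (c : GL (Fin 4) ℝ) (M : Subgroup (GL (Fin 4) ℝ)) : Subgroup (GL (Fin 4) ℝ) :=
  M.map (MulAut.conj c).toMonoidHom

theorem mem_cj {c g : GL (Fin 4) ℝ} {M : Subgroup (GL (Fin 4) ℝ)} :
    g ∈ cj c M ↔ ∃ h ∈ M, c * h * c⁻¹ = g := by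
  unfold cj
  rw [Subgroup.mem_map]
  rfl

theorem mem_cj' {c g : GL (Fin 4) ℝ} {M : Subgroup (GL (Fin 4) ℝ)} :
    g ∈ cj c M ↔ c⁻¹ * g * c ∈ M := by
  rw [mem_cj]
  constructor
  · rintro ⟨h, hh, rfl⟩
    have : c⁻¹ * (c * h * c⁻¹) * c = h := by group
    rwa [this]
  · intro h
    exact ⟨_, h, by group⟩

theorem cj_mul (c d : GL (Fin 4) ℝ) (M : Subgroup (GL (Fin 4) ℝ)) :
    cj (c * d) M = cj c (cj d M) := by
  ext g
  rw [mem_cj', mem_cj', mem_cj']
  have : d⁻¹ * (c⁻¹ * g * c) * d = (c * d)⁻¹ * g * (c * d) := by group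
  rw [this]

theorem cj_one (M : Subgroup (GL (Fin 4) ℝ)) : cj 1 M = M := by
  ext g
  rw [mem_cj']
  simp

theorem cj_self {γ : GL (Fin 4) ℝ} {M : Subgroup (GL (Fin 4) ℝ)} (h : γ ∈ M) : cj γ M = M := by
  ext g
  rw [mem_cj']
  constructor
  · intro hg
    have : g = γ * (γ⁻¹ * g * γ) * γ⁻¹ := by group
    rw [this]
    exact mul_mem (mul_mem h hg) (inv_mem h)
  · intro hg
    exact mul_mem (mul_mem (inv_mem h) hg) h

theorem cj_injective {c : GL (Fin 4) ℝ} {M N : Subgroup (GL (Fin 4) ℝ)} (h : cj c M = cj c N) :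
    M = N := by
  have := congrArg (cj c⁻¹) h
  rwa [← cj_mul, ← cj_mul, inv_mul_cancel, cj_one, cj_one] at this

theorem conj_bound {c r : GL (Fin 4) ℝ} (hc : c ∈ IsomH3) (hr : r ∈ IsomH3) {K ρ : ℝ}
    (hK : c.1 0 0 ≤ K) (hρ : r.1 0 0 ≤ ρ) : (c * r * c⁻¹).1 0 0 ≤ 4 * K * K * ρ := by
  have hp := isom_hyp hc oo_mem
  have h1 := g00_le (mul_mem (mul_mem hc hr) (inv_mem hc)) hp hp
  have h2 : ap (c * r * c⁻¹) (ap c oo) = ap c (ap r oo) := by
    rw [← ap_mul, ← ap_mul]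
    congr 1
    group
  rw [h2, isom_lor hc, lor_comm, lor_oo, neg_neg, ← g00, ← g00] at h1
  refine h1.trans ?_
  have a1 := one_le_g00 hc
  have a2 := one_le_g00 hr
  have b1 : c.1 0 0 * c.1 0 0 ≤ K * K := mul_le_mul hK hK (by linarith) (by linarith)
  have b2 : c.1 0 0 * c.1 0 0 * r.1 0 0 ≤ K * K * ρ :=
    mul_le_mul b1 hρ (by linarith) (by nlinarith)
  linarith

/-- only finitely many of the groups are conjugate to a given one -/
theorem finite_class (N : ℕ → Subgroup (GL (Fin 4) ℝ)) (hN : ∀ m, N m ≤ IsomH3)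
    (hd : ∀ m, DiscreteTopology (N m)) (t : ℕ) (h : ∀ m, Gam (m + t) ≤ N m) (k : ℕ) :
    {m | ∃ c ∈ IsomH3, N k = cj c (N m)}.Finite := by
  by_contra hinf
  have hinf' : {m | ∃ c ∈ IsomH3, N k = cj c (N m)}.Infinite := hinf
  set S := {m | ∃ c ∈ IsomH3, N k = cj c (N m)} with hS
  set K : ℝ := 50 ^ (k + t) * 15 with hK
  have hnorm : ∀ m ∈ S, ∃ c ∈ IsomH3, N k = cj c (N m) ∧ c.1 0 0 ≤ K := by
    rintro m ⟨c, hc, hcN⟩
    obtain ⟨γ, hγ, hch⟩ := gam_cover (k + t) (isom_hyp hc oo_mem)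
    refine ⟨γ * c, mul_mem (gam_le _ hγ) hc, ?_, ?_⟩
    · rw [cj_mul, ← hcN, cj_self (h k hγ)]
    · rw [g00, ap_mul]
      exact chamber_bound _ hch
  choose! c hc hcN hcK using hnorm
  obtain ⟨ρ, hρ⟩ : ∃ ρ : ℝ, ∀ i : Fin 4, (rG (emb (ww i))).1 0 0 ≤ ρ := by
    refine ⟨∑ i : Fin 4, (rG (emb (ww i))).1 0 0, fun i => ?_⟩
    exact Finset.single_le_sum (f := fun i : Fin 4 => (rG (emb (ww i))).1 0 0)
      (fun j _ => (zero_le_one.trans (one_le_g00 (rG_mem (norm_ww _))))) (Finset.mem_univ i)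
  obtain ⟨ε, hε, hs⟩ := sep_of_discrete (hN k) (hd k)
  obtain ⟨n, hn⟩ := finite_bound ε (4 * K * K * ρ) hε
  have hfin := (hn (N k) (hN k) hs).1
  have hmem : ∀ m i, i < 4 → rG (emb (ww i)) ∈ N m := fun m i hi => h m (rw_mem _ (by omega))
  have hmaps : Set.MapsTo (fun m : ℕ => fun i : Fin 4 => c m * rG (emb (ww i)) * (c m)⁻¹) S
      (Set.pi Set.univ fun _ : Fin 4 =>
        {g : GL (Fin 4) ℝ | g ∈ N k ∧ g.1 0 0 ≤ 4 * K * K * ρ}) := by
    intro m hm i _
    refine ⟨?_, conj_bound (hc m hm) (rG_mem (norm_ww _)) (hcK m hm) (hρ i)⟩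
    rw [hcN m hm, mem_cj]
    exact ⟨_, hmem m i i.2, rfl⟩
  obtain ⟨m, hm, m', hm', hne, heq⟩ :=
    hinf'.exists_ne_map_eq_of_mapsTo hmaps (Set.Finite.pi fun _ => hfin)
  have hd1 : (c m')⁻¹ * c m = 1 := by
    apply commute_one (mul_mem (inv_mem (hc m' hm')) (hc m hm))
    intro i hi
    have h1 : c m * rG (emb (ww i)) * (c m)⁻¹ = c m' * rG (emb (ww i)) * (c m')⁻¹ :=
      congrFun heq ⟨i, hi⟩
    calc (c m')⁻¹ * c m * rG (emb (ww i)) =
        (c m')⁻¹ * (c m * rG (emb (ww i)) * (c m)⁻¹) * c m := by group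
      _ = (c m')⁻¹ * (c m' * rG (emb (ww i)) * (c m')⁻¹) * c m := by rw [h1]
      _ = _ := by group
  have hcc : c m = c m' := (inv_mul_eq_one.1 hd1).symm
  have hNN : N m = N m' := by
    apply cj_injective (c := c m)
    rw [← hcN m hm, hcc, ← hcN m' hm']
  rcases Nat.lt_or_gt_of_ne hne with hlt | hlt
  · exact not_both (hN m) (hd m) (show m + t < m' + t by omega) (h m) (by rw [hNN]; exact h m')
  · exact not_both (hN m) (hd m) (show m' + t < m + t by omega) (by rw [hNN]; exact h m') (h m)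

/-- There are infinitely many pairwise non-conjugate maximal quasi-arithmetic reflection groups in
`Isom(ℍ³)`. -/
theorem infinitely_many : ∃ M : ℕ → Subgroup (GL (Fin 4) ℝ),
    (∀ n, IsMaximalReflectionGroup (M n) ∧ IsQuasiArithmetic (M n)) ∧
    ∀ n k, n ≠ k → ¬ ∃ c ∈ IsomH3, M k = (M n).map (MulAut.conj c).toMonoidHom := by
  choose N hN hGN using fun m : ℕ => exists_max (m + 4)
  let s : Setoid ℕ :=
    { r := fun m m' => ∃ c ∈ IsomH3, N m' = cj c (N m)
      iseqv :=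
        { refl := fun m => ⟨1, one_mem _, (cj_one _).symm⟩
          symm := by
            rintro m m' ⟨c, hc, h⟩
            refine ⟨c⁻¹, inv_mem hc, ?_⟩
            rw [h, ← cj_mul, inv_mul_cancel, cj_one]
          trans := by
            rintro m m' m'' ⟨c, hc, h⟩ ⟨d, hd, h'⟩
            refine ⟨d * c, mul_mem hd hc, ?_⟩
            rw [h', h, cj_mul] } }
  have hinf : Infinite (Quotient s) := by
    by_contra hcon
    rw [not_infinite_iff_finite] at hcon
    obtain ⟨y, hy⟩ := Finite.exists_infinite_fiber (fun m : ℕ => (Quotient.mk s m))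
    obtain ⟨k, rfl⟩ := Quotient.exists_rep y
    have hf := finite_class N (fun m => (hN m).1.le) (fun m => (hN m).1.discrete) 4 hGN k
    apply hy.not_finite
    apply Set.Finite.to_subtype
    apply hf.subset
    intro m hm
    have h1 : Quotient.mk s m = Quotient.mk s k := hm
    exact Quotient.exact h1
  let f : ℕ ↪ Quotient s := Infinite.natEmbedding _
  refine ⟨fun n => N (f n).out, fun n => ⟨hN _, quasi (by omega) (hN _).1 (hGN _)⟩, ?_⟩
  rintro n k hnk ⟨c, hc, h⟩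
  apply hnk
  apply f.injective
  have h1 : s (f n).out (f k).out := ⟨c, hc, h⟩
  have h2 := Quotient.sound h1
  rwa [Quotient.out_eq, Quotient.out_eq] at h2

end Pool.Agent.P8H79.QA
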