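import Pool.Agent.P8H79.QA.Maximal

/-! Linear maps which commute with powers of products of two reflections. -/

set_option autoImplicit false

open Matrix

namespace Pool.Agent.P8H79.QA

/-- finite index -/
theorem power_mem (m : ℕ) {M : Subgroup (GL (Fin 4) ℝ)} (hM : M ≤ IsomH3)
    (hd : DiscreteTopology M) (h : Gam m ≤ M) {g γ : GL (Fin 4) ℝ} (hg : g ∈ M) (hγ : γ ∈ M) :
    ∃ n, 1 ≤ n ∧ g * γ ^ n * g⁻¹ ∈ Gam m := by
  obtain ⟨ε, hε, hs⟩ := sep_of_discrete hM hd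
  obtain ⟨N, hN⟩ := finite_bound ε (50 ^ m * 15) hε
  have hfin := (hN M hM hs).1
  choose! δ hδ hδ' using fun k : ℕ => gam_move m hM h (mul_mem hg (pow_mem hγ k))
  have hmaps : Set.MapsTo (fun k : ℕ => δ k * (g * γ ^ k)) Set.univ (bd M (50 ^ m * 15)) :=
    fun k _ => hδ' k
  obtain ⟨k, _, l, _, hkl, heq⟩ :=
    Set.infinite_univ.exists_ne_map_eq_of_mapsTo hmaps hfin
  wlog hlt : k < l generalizing k l
  · exact this l (Set.mem_univ _) k (Set.mem_univ _) hkl.symm heq.symm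
      (lt_of_le_of_ne (not_lt.1 hlt) hkl.symm)
  refine ⟨l - k, by omega, ?_⟩
  have h1 : g * γ ^ (l - k) * g⁻¹ = (δ l)⁻¹ * δ k := by
    change δ k * (g * γ ^ k) = δ l * (g * γ ^ l) at heq
    have h2 : γ ^ l = γ ^ (l - k) * γ ^ k := by rw [← pow_add]; congr 1; omega
    rw [eq_inv_mul_iff_mul_eq]
    rw [h2] at heq
    have h3 : δ k = δ l * (g * (γ ^ (l - k) * γ ^ k)) * (g * γ ^ k)⁻¹ := by
      rw [← heq]; group
    rw [h3]
    group
  rw [h1]
  exact mul_mem (inv_mem (hδ l)) (hδ k)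

namespace Sys

variable {S : Type} (C : Sys S)

theorem pr_alt_even (s t : S) (n : ℕ) : C.pr (alt (2 * n) s t) = (C.R s * C.R t) ^ n := by
  induction n with
  | zero => simp [alt]
  | succ n ih =>
    have h1 : Even (2 * n) := even_two_mul n
    have h2 : ¬ Even (2 * n + 1) := by simp
    rw [show 2 * (n + 1) = 2 * n + 1 + 1 by ring, alt, alt, if_neg h2, if_pos h1, pr_cons,
      pr_cons, ih, pow_succ', mul_assoc]

theorem inv_pow_eq (s t : S) (n : ℕ) : ((C.R s * C.R t) ^ n)⁻¹ = (C.R t * C.R s) ^ n := by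
  rw [← inv_pow, _root_.mul_inv_rev, C.R_inv, C.R_inv]

theorem pow_e (s t : S) (n : ℕ) : ap ((C.R s * C.R t) ^ n) (C.e s) =
    pp (-lor (C.e s) (C.e t)) (2 * n + 1) • C.e s + pp (-lor (C.e s) (C.e t)) (2 * n) • C.e t := by
  rw [← C.pr_alt_even, C.alt_e, if_pos (even_two_mul n)]

theorem inv_pow_e (s t : S) (n : ℕ) : ap ((C.R s * C.R t) ^ (n + 1))⁻¹ (C.e s) =
    -(pp (-lor (C.e s) (C.e t)) (2 * n + 1) • C.e s +
      pp (-lor (C.e s) (C.e t)) (2 * n + 2) • C.e t) := by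
  have h2 : ¬ Even (2 * n + 1) := by simp
  have h1 : Even (2 * n) := even_two_mul n
  have h3 := C.alt_e s t (2 * n + 1)
  rw [if_neg h2, alt, if_pos h1, pr_cons, C.pr_alt_even] at h3
  rw [← h3, C.inv_pow_eq, ← ap_neg, ← C.R_e s]
  have : (C.R t * C.R s) ^ (n + 1) = C.R t * (C.R s * C.R t) ^ n * C.R s := by
    induction n with
    | zero => simp
    | succ n ih =>
      rw [pow_succ, ih, pow_succ (C.R s * C.R t)]
      · group
      · simp
      · exact even_two_mul n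
      · have := C.alt_e s t (2 * n + 1)
        rw [if_neg (by simp), alt, if_pos (even_two_mul n), pr_cons, C.pr_alt_even] at this
        exact this
  rw [this, ap_mul]

theorem pp_diff {c : ℝ} (hc : 1 ≤ c) (n : ℕ) : 1 ≤ pp c (n + 1) - pp c n := by
  induction n with
  | zero => simp [pp]
  | succ n ih =>
    have h1 := pp_mono hc (n + 1)
    rw [pp]
    nlinarith

theorem pp_trace {c : ℝ} (hc : 1 < c) (n : ℕ) : 2 < pp c (n + 2) - pp c n := by
  have h1 := pp_diff hc.le n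
  have h2 := one_le_pp hc.le n
  rw [pp]
  nlinarith

theorem pow_sub_mem (s t : S) {P : Submodule ℝ (Fin 4 → ℝ)} (hs : C.e s ∈ P) (ht : C.e t ∈ P)
    (n : ℕ) (x : Fin 4 → ℝ) : ap ((C.R s * C.R t) ^ n) x - x ∈ P := by
  have hR : ∀ (r : S), C.e r ∈ P → ∀ x, ap (C.R r) x - x ∈ P := by
    intro r hr x
    rw [C.act]
    have : x - (2 * lor x (C.e r)) • C.e r - x = (-(2 * lor x (C.e r))) • C.e r := by module
    rw [this]
    exact P.smul_mem _ hr
  induction n generalizing x with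
  | zero => simp
  | succ n ih =>
    rw [pow_succ, ap_mul, ap_mul]
    have h1 := ih (ap (C.R s) (ap (C.R t) x))
    have h2 := hR s hs (ap (C.R t) x)
    have h3 := hR t ht x
    have := P.add_mem (P.add_mem h1 h2) h3
    convert this using 1
    abel

/-- first step: `L (e s)` is in the plane -/
theorem comm_plane (s t : S) (hst : 1 < -lor (C.e s) (C.e t)) {n : ℕ}
    (L : (Fin 4 → ℝ) →ₗ[ℝ] (Fin 4 → ℝ))
    (hL : ∀ x, L (ap ((C.R s * C.R t) ^ (n + 1)) x) = ap ((C.R s * C.R t) ^ (n + 1)) (L x)) :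
    ∃ a b : ℝ, L (C.e s) = a • C.e s + b • C.e t := by
  set T := (C.R s * C.R t) ^ (n + 1) with hT
  have hL' : ∀ x, L (ap T⁻¹ x) = ap T⁻¹ (L x) := by
    intro x
    have := hL (ap T⁻¹ x)
    rw [ap_ap_inv] at this
    rw [this, ap_inv_ap]
  set P : Submodule ℝ (Fin 4 → ℝ) := Submodule.span ℝ {C.e s, C.e t} with hP
  have hsP : C.e s ∈ P := Submodule.subset_span (by simp)
  have htP : C.e t ∈ P := Submodule.subset_span (by simp)
  set c := -lor (C.e s) (C.e t) with hc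
  have h1 : ap T (C.e s) + ap T⁻¹ (C.e s) - (2 : ℝ) • C.e s =
      (pp c (2 * n + 1 + 2) - pp c (2 * n + 1) - 2) • C.e s := by
    rw [hT, C.inv_pow_e, C.pow_e, ← hc]
    rw [show 2 * (n + 1) + 1 = 2 * n + 1 + 2 by ring, show 2 * (n + 1) = 2 * n + 2 by ring]
    module
  have h2 := pp_trace hst (2 * n + 1)
  have h3 : ap T (L (C.e s)) + ap T⁻¹ (L (C.e s)) - (2 : ℝ) • L (C.e s) ∈ P := by
    have a1 := C.pow_sub_mem s t hsP htP (n + 1) (L (C.e s))
    have a2 := C.pow_sub_mem t s htP hsP (n + 1) (L (C.e s))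
    rw [← C.inv_pow_eq] at a2
    have := P.add_mem a1 a2
    rw [← hT] at this
    convert this using 1
    module
  rw [← hL, ← hL', ← map_add, ← map_smul, ← map_sub, h1, map_smul] at h3
  have h4 : L (C.e s) ∈ P := by
    have := P.smul_mem (pp c (2 * n + 1 + 2) - pp c (2 * n + 1) - 2)⁻¹ h3
    rwa [smul_smul, inv_mul_cancel₀ (by linarith), one_smul] at this
  rw [hP, Submodule.mem_span_pair] at h4
  obtain ⟨a, b, hab⟩ := h4
  exact ⟨a, b, hab.symm⟩

/-- second step -/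
theorem comm_line (s t : S) (hst : 1 < -lor (C.e s) (C.e t)) {n : ℕ}
    (L : (Fin 4 → ℝ) →ₗ[ℝ] (Fin 4 → ℝ))
    (hL : ∀ x, L (ap ((C.R s * C.R t) ^ (n + 1)) x) = ap ((C.R s * C.R t) ^ (n + 1)) (L x))
    {μ : ℝ} (hs : L (C.e s) = μ • C.e s) : L (C.e t) = μ • C.e t := by
  have h1 := hL (C.e s)
  rw [hs, ap_smul, C.pow_e, map_add, map_smul, map_smul, hs, smul_add, smul_comm μ,
    add_right_inj] at h1
  have h2 := one_le_pp hst.le (2 * n + 1)
  rw [show 2 * n + 1 + 1 = 2 * (n + 1) by ring] at h2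
  rw [smul_comm μ] at h1
  exact smul_right_injective _ (by linarith : pp (-lor (C.e s) (C.e t)) (2 * (n + 1)) ≠ 0) h1

end Sys

end Pool.Agent.P8H79.QA
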