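import Pool.Agent.P8H79.QA.Walls

/-! The groups `Γ m` are reflection groups. -/

set_option autoImplicit false

open Matrix MeasureTheory

namespace Pool.Agent.P8H79.QA

theorem exists_switch (f : ℕ → ℝ) (m : ℕ) (h0 : 0 ≤ f 0) (h1 : f (m + 1) ≤ 0) :
    ∃ j ≤ m, 0 ≤ f j ∧ f (j + 1) ≤ 0 := by
  induction m with
  | zero => exact ⟨0, le_rfl, h0, h1⟩
  | succ m ih =>
    rcases le_or_gt 0 (f (m + 1)) with h | h
    · exact ⟨m + 1, le_rfl, h, h1⟩
    · obtain ⟨j, hj, h2⟩ := ih h.le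
      exact ⟨j, hj.trans (Nat.le_succ m), h2⟩

theorem gg_bound {z : Fin 4 → ℝ} {B : ℝ} (h : ∀ i, |z i| ≤ B) (i : Fin 4) : |gg z i| ≤ 50 * B := by
  have h0 := abs_le.1 (h 0)
  have h1 := abs_le.1 (h 1)
  have h2 := abs_le.1 (h 2)
  have h3 := abs_le.1 (h 3)
  have hB : 0 ≤ B := (abs_nonneg _).trans (h 0)
  rw [abs_le]
  fin_cases i <;> simp [gg] <;> constructor <;> linarith

theorem gg_iter_bound {z : Fin 4 → ℝ} {B : ℝ} (h : ∀ i, |z i| ≤ B) (j : ℕ) (i : Fin 4) :
    |gg^[j] z i| ≤ 50 ^ j * B := by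
  induction j generalizing i with
  | zero => simpa using h i
  | succ j ih =>
    rw [iter_succ, pow_succ]
    refine (gg_bound ih i).trans ?_
    linarith

theorem gi_iter_ww {y : Fin 4 → ℝ} (j k : ℕ) :
    qf (gi^[j] y) (ww k) = (1 / 3) ^ j * qf y (ww (k + j)) := by
  rw [qf_iter_gi]
  unfold ww
  rw [← Function.iterate_add_apply, add_comm]

theorem gi_iter_uu {y : Fin 4 → ℝ} (j k : ℕ) :
    qf (gi^[j] y) (uu k) = (1 / 3) ^ j * qf y (uu (k + j)) := by
  rw [qf_iter_gi]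
  unfold uu
  rw [← Function.iterate_add_apply, add_comm]

theorem qf_gi_self (x : Fin 4 → ℝ) : qf (gi x) (gi x) = 1 / 3 * qf x x := by
  have := qf_gg (gi x) (gi x)
  rw [gg_gi] at this
  linarith

theorem gi_iter_self {y : Fin 4 → ℝ} (j : ℕ) :
    qf (gi^[j] y) (gi^[j] y) = (1 / 3) ^ j * qf y y := by
  induction j with
  | zero => simp
  | succ j ih => rw [Function.iterate_succ_apply', qf_gi_self, ih, pow_succ]; ring

theorem cone_bound (m : ℕ) {y : Fin 4 → ℝ} (hy : qf y y = -1) (hw : ∀ k < m + 4, qf y (ww k) ≤ 0)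
    (hb : 0 ≤ qf y (uu 0)) (ht : qf y (uu (m + 1)) ≤ 0) (i : Fin 4) : |y i| ≤ 50 ^ m * 15 := by
  obtain ⟨j, hj, h1, h2⟩ := exists_switch (fun k => qf y (uu k)) m hb ht
  set z := gi^[j] y with hz
  have h3 : (0 : ℝ) < (1 / 3) ^ j := by positivity
  have e0 : (z 0) ^ 2 ≤ 200 * (-qf z z) := by
    apply tile_bound
    · rw [hz, gi_iter_ww]; exact mul_nonpos_of_nonneg_of_nonpos h3.le (hw _ (by omega))
    · rw [hz, gi_iter_ww]; exact mul_nonpos_of_nonneg_of_nonpos h3.le (hw _ (by omega))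
    · rw [hz, gi_iter_ww]; exact mul_nonpos_of_nonneg_of_nonpos h3.le (hw _ (by omega))
    · rw [hz, gi_iter_ww]; exact mul_nonpos_of_nonneg_of_nonpos h3.le (hw _ (by omega))
    · rw [hz, gi_iter_uu, zero_add]; exact mul_nonneg h3.le h1
    · rw [hz, gi_iter_uu, add_comm 1 j]; exact mul_nonpos_of_nonneg_of_nonpos h3.le h2
  have e1 : qf z z = -(1 / 3) ^ j := by rw [hz, gi_iter_self, hy]; ring
  have e2 : (1 / 3 : ℝ) ^ j ≤ 1 := pow_le_one₀ (by norm_num) (by norm_num)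
  have e3 : (z 0) ^ 2 ≤ 200 := by rw [e1] at e0; linarith
  have e4 : 2 * (z 1) ^ 2 + 6 * (z 2) ^ 2 + 33 * (z 3) ^ 2 ≤ 200 := by
    have : qf z z ≤ 0 := by rw [e1]; linarith
    unfold qf at this
    nlinarith
  have hB : ∀ i, |z i| ≤ 15 := by
    intro i
    apply abs_le_of_sq_le_sq _ (by norm_num)
    fin_cases i
    · simp only [Fin.zero_eta]; linarith
    · simp only [Fin.mk_one]; nlinarith [sq_nonneg (z 1), sq_nonneg (z 2), sq_nonneg (z 3)]
    · simp only [Fin.reduceFinMk]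
      nlinarith [sq_nonneg (z 1), sq_nonneg (z 2), sq_nonneg (z 3)]
    · simp only [Fin.reduceFinMk]
      nlinarith [sq_nonneg (z 1), sq_nonneg (z 2), sq_nonneg (z 3)]
  have h5 := gg_iter_bound hB j i
  rw [hz, gg_iter_gi] at h5
  refine h5.trans ?_
  apply mul_le_mul_of_nonneg_right _ (by norm_num)
  exact pow_le_pow_right₀ (by norm_num) hj

/-- the chamber -/
def chamber (m : ℕ) : Set (Fin 4 → ℝ) := {x | x ∈ Hyp ∧ ∀ s, lor x ((sys m).e s) ≤ 0}

theorem chamber_bound (m : ℕ) {x : Fin 4 → ℝ} (hx : x ∈ chamber m) : x 0 ≤ 50 ^ m * 15 := by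
  obtain ⟨hxH, hxs⟩ := hx
  set y := emi x with hy
  have hxy : x = emb y := (emb_emi x).symm
  have h0 : x 0 = y 0 := by rw [hxy]; simp [emb]
  rw [h0]
  refine (le_abs_self _).trans (cone_bound m ?_ ?_ ?_ ?_ 0)
  · rw [← lor_emb, ← hxy]; exact hxH.1
  · intro k hk
    have := hxs (.inl ⟨k, hk⟩)
    rw [sys_e, lor_nv_nonpos (norm_wl _ _), hxy, lor_emb] at this
    exact this
  · have := hxs (.inr false)
    rw [sys_e, lor_nv_nonpos (norm_wl _ _), hxy, lor_emb] at this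
    change qf y (-uu 0) ≤ 0 at this
    rw [qf_neg_right] at this
    linarith
  · have := hxs (.inr true)
    rw [sys_e, lor_nv_nonpos (norm_wl _ _), hxy, lor_emb] at this
    exact this

theorem gam_cover (m : ℕ) {x : Fin 4 → ℝ} (hx : x ∈ Hyp) : ∃ g ∈ Gam m, ap g x ∈ chamber m := by
  obtain ⟨g, hg, h⟩ := (sys m).cover xx_mem (xx_neg m) hx
  exact ⟨g, hg, isom_hyp (gam_le m hg) hx, h⟩

theorem hyp_measurable : MeasurableSet Hyp := by
  have h1 : Hyp = {x : Fin 4 → ℝ | lor x x = -1} ∩ {x | 0 < x 0} := rfl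
  rw [h1]
  apply MeasurableSet.inter
  · exact (isClosed_eq continuous_lor_self continuous_const).measurableSet
  · exact (isOpen_lt continuous_const (continuous_apply 0)).measurableSet

/-- the ball of points of `ℍ³` with bounded first coordinate -/
def ball (B : ℝ) : Set (Fin 4 → ℝ) := {x | x ∈ Hyp ∧ x 0 ≤ B}

theorem ball_entry {B : ℝ} {x : Fin 4 → ℝ} (hx : x ∈ ball B) (i : Fin 4) : |x i| ≤ B := by
  have h1 := space_le hx.1
  have h2 := hx.1.2
  have h3 := hx.2
  apply abs_le_of_sq_le_sq _ (h2.le.trans h3)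
  have : (x i) ^ 2 ≤ (x 0) ^ 2 := by
    fin_cases i
    · exact le_rfl
    · simp only [Fin.mk_one]; nlinarith [sq_nonneg (x 1), sq_nonneg (x 2), sq_nonneg (x 3)]
    · simp only [Fin.reduceFinMk]
      nlinarith [sq_nonneg (x 1), sq_nonneg (x 2), sq_nonneg (x 3)]
    · simp only [Fin.reduceFinMk]
      nlinarith [sq_nonneg (x 1), sq_nonneg (x 2), sq_nonneg (x 3)]
  nlinarith

theorem ball_volume (B : ℝ) : hypVolume (ball B) < ⊤ := by
  unfold hypVolume
  apply ENNReal.mul_lt_top (by norm_num)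
  have h1 : {y : Fin 4 → ℝ | ∃ t : ℝ, 0 < t ∧ t ≤ 1 ∧ ∃ x ∈ ball B, y = t • x} ⊆
      Set.Icc (fun _ => -B) (fun _ => B) := by
    rintro y ⟨t, ht0, ht1, x, hx, rfl⟩
    have h2 : ∀ i, |t * x i| ≤ B := by
      intro i
      rw [abs_mul, abs_of_pos ht0]
      have h3 := ball_entry hx i
      have h4 := abs_nonneg (x i)
      nlinarith
    constructor
    · intro i
      exact (abs_le.1 (h2 i)).1
    · intro i
      exact (abs_le.1 (h2 i)).2
  refine (measure_mono h1).trans_lt ?_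
  exact isCompact_Icc.measure_lt_top

theorem ball_measurable (B : ℝ) : MeasurableSet (ball B) := by
  have h1 : ball B = Hyp ∩ {x | x 0 ≤ B} := rfl
  rw [h1]
  exact hyp_measurable.inter
    (isClosed_le (continuous_apply 0) continuous_const).measurableSet

/-- covolume of groups containing `Γ m` -/
theorem covol_of_le {m : ℕ} {M : Subgroup (GL (Fin 4) ℝ)} (h : Gam m ≤ M) :
    HasFiniteCovolume M := by
  refine ⟨ball (50 ^ m * 15), fun x hx => hx.1, ball_measurable _, ball_volume _, fun x hx => ?_⟩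
  obtain ⟨g, hg, hgx⟩ := gam_cover m hx
  exact ⟨g, h hg, hgx.1, chamber_bound m hgx⟩

theorem R_isReflection (m : ℕ) (s : Fin (m + 1 + 3) ⊕ Bool) : IsReflection ((sys m).R s) := by
  rw [sys_R]
  exact rG_isReflection (norm_wl _ _)

theorem gam_isReflectionGroup (m : ℕ) : IsReflectionGroup (Gam m) where
  le := gam_le m
  discrete := by
    obtain ⟨ε, hε, h⟩ := gam_sep m
    exact discrete_of_sep hε h
  covolume := covol_of_le le_rfl
  generated := by
    apply le_antisymm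
    · rw [Subgroup.closure_le]
      exact fun g hg => hg.1
    · unfold Gam Sys.grp
      rw [Subgroup.closure_le]
      rintro _ ⟨s, rfl⟩
      exact Subgroup.subset_closure ⟨Subgroup.subset_closure ⟨s, rfl⟩, R_isReflection m s⟩

/-- the generating reflections -/
theorem rw_mem (m : ℕ) {k : ℕ} (hk : k < m + 4) : rG (emb (ww k)) ∈ Gam m := by
  have := (sys m).R_mem_grp (.inl ⟨k, hk⟩)
  exact this

theorem ru_mem (m : ℕ) : rG (emb (uu (m + 1))) ∈ Gam m := (sys m).R_mem_grp (.inr true)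

theorem rG_neg {v : Fin 4 → ℝ} (hv : lor v v ≠ 0) : rG (-v) = rG v := by
  have := rG_smul hv (c := -1) (by norm_num)
  rwa [neg_one_smul] at this

theorem ru0_mem (m : ℕ) : rG (emb (uu 0)) ∈ Gam m := by
  have := (sys m).R_mem_grp (.inr false)
  rw [sys_R] at this
  change rG (emb (-uu 0)) ∈ _ at this
  rw [emb_neg, rG_neg (norm_uu 0).ne'] at this
  exact this

end Pool.Agent.P8H79.QA
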