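import Mathlib

/-!
# Reflection groups of hyperbolic 3-space: definitions

Hyperbolic 3-space is the upper sheet of the hyperboloid in the Lorentz space `ℝ ^ {3,1}` and its
isometry group is the group `O⁺(3,1)` of the linear maps which preserve the Lorentz form and the
upper sheet.
-/

set_option autoImplicit false

open Matrix MeasureTheory

namespace Pool.Agent.P8H79.QA

/-- The Lorentz form `-x₀y₀ + x₁y₁ + x₂y₂ + x₃y₃` on `ℝ⁴`. -/
def lor (x y : Fin 4 → ℝ) : ℝ := -(x 0 * y 0) + x 1 * y 1 + x 2 * y 2 + x 3 * y 3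

/-- Hyperbolic 3-space `ℍ³`: the upper sheet of the hyperboloid `lor x x = -1`. -/
def Hyp : Set (Fin 4 → ℝ) := {x | lor x x = -1 ∧ 0 < x 0}

/-- The isometry group of `ℍ³`, as the group `O⁺(3,1)` of the invertible real matrices which
preserve the Lorentz form and map the upper sheet of the hyperboloid to itself. -/
def IsomH3 : Subgroup (GL (Fin 4) ℝ) where
  carrier := {g | (∀ x y, lor (g.1 *ᵥ x) (g.1 *ᵥ y) = lor x y) ∧ ∀ x ∈ Hyp, g.1 *ᵥ x ∈ Hyp}
  mul_mem' := by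
    rintro a b ⟨ha, ha'⟩ ⟨hb, hb'⟩
    refine ⟨fun x y => ?_, fun x hx => ?_⟩
    · rw [Units.val_mul, ← mulVec_mulVec, ← mulVec_mulVec, ha, hb]
    · rw [Units.val_mul, ← mulVec_mulVec]
      exact ha' _ (hb' _ hx)
  one_mem' := ⟨fun x y => by simp, fun x hx => by simpa using hx⟩
  inv_mem' := by
    rintro a ⟨ha, ha'⟩
    have h1 : ∀ x, a.1 *ᵥ (a⁻¹.1 *ᵥ x) = x := by
      intro x
      rw [mulVec_mulVec, ← Units.val_mul, mul_inv_cancel, Units.val_one, one_mulVec]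
    have h2 : ∀ x y, lor (a⁻¹.1 *ᵥ x) (a⁻¹.1 *ᵥ y) = lor x y := by
      intro x y
      rw [← ha, h1, h1]
    refine ⟨h2, fun x hx => ?_⟩
    refine ⟨by rw [h2]; exact hx.1, ?_⟩
    by_contra hneg
    have h3 : lor (a⁻¹.1 *ᵥ x) (a⁻¹.1 *ᵥ x) = -1 := by rw [h2]; exact hx.1
    have h4 : (a⁻¹.1 *ᵥ x) 0 ≠ 0 := by
      intro h0
      unfold lor at h3
      rw [h0] at h3
      nlinarith [sq_nonneg ((a⁻¹.1 *ᵥ x) 1), sq_nonneg ((a⁻¹.1 *ᵥ x) 2),
        sq_nonneg ((a⁻¹.1 *ᵥ x) 3)]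
    have h5 : (a⁻¹.1 *ᵥ x) 0 < 0 := lt_of_le_of_ne (not_lt.1 hneg) h4
    have h6 : -(a⁻¹.1 *ᵥ x) ∈ Hyp := by
      refine ⟨?_, by simpa using h5⟩
      have : lor (-(a⁻¹.1 *ᵥ x)) (-(a⁻¹.1 *ᵥ x)) = lor (a⁻¹.1 *ᵥ x) (a⁻¹.1 *ᵥ x) := by
        unfold lor
        simp
      rw [this, h3]
    have h7 := (ha' _ h6).2
    rw [mulVec_neg, h1] at h7
    have h8 := hx.2
    simp only [Pi.neg_apply] at h7
    linarith

/-- The matrix `g` is the reflection in a hyperplane of `ℍ³`: the map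
`x ↦ x - 2 (x, v) / (v, v) v` for some vector `v` with `(v, v) > 0`. -/
def IsReflection (g : GL (Fin 4) ℝ) : Prop :=
  ∃ v : Fin 4 → ℝ, 0 < lor v v ∧ ∀ x, g.1 *ᵥ x = x - (2 * lor x v / lor v v) • v

/-- The hyperbolic volume of a subset `A` of `ℍ³`: four times the Lebesgue measure of the set of the
points `t x`, `0 < t ≤ 1`, `x ∈ A`. -/
noncomputable def hypVolume (A : Set (Fin 4 → ℝ)) : ENNReal :=
  4 * volume {y : Fin 4 → ℝ | ∃ t : ℝ, 0 < t ∧ t ≤ 1 ∧ ∃ x ∈ A, y = t • x}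

/-- `Γ` has finite covolume: the translates of some measurable set of finite volume cover `ℍ³`. -/
def HasFiniteCovolume (Γ : Subgroup (GL (Fin 4) ℝ)) : Prop :=
  ∃ A ⊆ Hyp, MeasurableSet A ∧ hypVolume A < ⊤ ∧ ∀ x ∈ Hyp, ∃ g ∈ Γ, g.1 *ᵥ x ∈ A

/-- A reflection group: a discrete subgroup of `Isom(ℍ³)` of finite covolume which is generated by
reflections in hyperplanes. -/
structure IsReflectionGroup (Γ : Subgroup (GL (Fin 4) ℝ)) : Prop where
  le : Γ ≤ IsomH3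
  discrete : DiscreteTopology Γ
  covolume : HasFiniteCovolume Γ
  generated : Subgroup.closure {g : GL (Fin 4) ℝ | g ∈ Γ ∧ IsReflection g} = Γ

/-- A maximal reflection group: it is not properly contained in another reflection group. -/
def IsMaximalReflectionGroup (Γ : Subgroup (GL (Fin 4) ℝ)) : Prop :=
  IsReflectionGroup Γ ∧ ∀ Γ', IsReflectionGroup Γ' → Γ ≤ Γ' → Γ' = Γ

/-- `Γ` is quasi-arithmetic (Vinberg): there are a totally real number field `K ⊆ ℝ` and a symmetric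
matrix `F` over `K` such that `F ^ σ` is positive definite for all embeddings `σ` of `K` into `ℝ`
other than the inclusion, and a real change of coordinates `P` which transforms `F` into the Lorentz
form (so that `F` has signature `(3,1)`) and conjugates `Γ` into the group of matrices with entries
in `K`. -/
def IsQuasiArithmetic (Γ : Subgroup (GL (Fin 4) ℝ)) : Prop :=
  ∃ K : IntermediateField ℚ ℝ, FiniteDimensional ℚ K ∧ (∀ (σ : K →+* ℂ) (x : K), (σ x).im = 0) ∧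
    ∃ F : Matrix (Fin 4) (Fin 4) K, F.IsSymm ∧
      (∀ σ : K →+* ℝ, σ ≠ algebraMap K ℝ → (F.map σ).PosDef) ∧
      ∃ P : GL (Fin 4) ℝ,
        (∀ x y, (P.1 *ᵥ x) ⬝ᵥ ((F.map (algebraMap K ℝ)) *ᵥ (P.1 *ᵥ y)) = lor x y) ∧
        ∀ g ∈ Γ, ∀ i j, ∃ c : K, (P * g * P⁻¹).1 i j = (c : ℝ)

end Pool.Agent.P8H79.QA
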