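import Pool.Agent.P8H79.QA.Uniform

/-! Existence of maximal reflection groups above `Γ m`. -/

set_option autoImplicit false

open Matrix

namespace Pool.Agent.P8H79.QA

/-- the elements of bounded size -/
def bd (M : Subgroup (GL (Fin 4) ℝ)) (K : ℝ) : Set (GL (Fin 4) ℝ) := {g | g ∈ M ∧ g.1 0 0 ≤ K}

theorem gam_move (m : ℕ) {M : Subgroup (GL (Fin 4) ℝ)} (hM : M ≤ IsomH3) (h : Gam m ≤ M)
    {g : GL (Fin 4) ℝ} (hg : g ∈ M) : ∃ γ ∈ Gam m, γ * g ∈ bd M (50 ^ m * 15) := by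
  obtain ⟨γ, hγ, hc⟩ := gam_cover m (isom_hyp (hM hg) oo_mem)
  refine ⟨γ, hγ, mul_mem (h hγ) hg, ?_⟩
  rw [g00, ap_mul]
  exact chamber_bound m hc

theorem exists_max (m : ℕ) : ∃ M, IsMaximalReflectionGroup M ∧ Gam m ≤ M := by
  obtain ⟨ε, hε, hu⟩ := uniform
  obtain ⟨N, hN⟩ := finite_bound ε (50 ^ m * 15) hε
  have hsep : ∀ M, IsReflectionGroup M → Gam m ≤ M → Sep ε M := by
    intro M hM hle
    exact hu M hM.le hM.discrete fun i hi => hle (rw_mem m (by omega))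
  classical
  let P : ℕ → Prop := fun n => ∃ M, IsReflectionGroup M ∧ Gam m ≤ M ∧
    (bd M (50 ^ m * 15)).ncard = n
  have hb : ∀ n, P n → n ≤ N := by
    rintro n ⟨M, hM, hle, rfl⟩
    exact (hN M hM.le (hsep M hM hle)).2
  have hP0 : P (bd (Gam m) (50 ^ m * 15)).ncard :=
    ⟨Gam m, gam_isReflectionGroup m, le_rfl, rfl⟩
  obtain ⟨M, hM, hle, hn⟩ := Nat.findGreatest_spec (hb _ hP0) hP0
  refine ⟨M, ⟨hM, fun M' hM' hMM' => ?_⟩, hle⟩
  have hle' := hle.trans hMM'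
  have hfin := (hN M' hM'.le (hsep M' hM' hle')).1
  have hsub : bd M (50 ^ m * 15) ⊆ bd M' (50 ^ m * 15) := fun g hg => ⟨hMM' hg.1, hg.2⟩
  have hcard : (bd M' (50 ^ m * 15)).ncard ≤ (bd M (50 ^ m * 15)).ncard := by
    have h1 : P (bd M' (50 ^ m * 15)).ncard := ⟨M', hM', hle', rfl⟩
    have h2 := Nat.le_findGreatest (hb _ h1) h1
    rw [hn]
    exact h2
  have heq : bd M (50 ^ m * 15) = bd M' (50 ^ m * 15) :=
    Set.eq_of_subset_of_ncard_le hsub hcard hfin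
  apply le_antisymm _ hMM'
  intro g hg
  obtain ⟨γ, hγ, hγg⟩ := gam_move m hM'.le hle' hg
  rw [← heq] at hγg
  have h1 : g = γ⁻¹ * (γ * g) := by group
  rw [h1]
  exact mul_mem (inv_mem (hle hγ)) hγg.1

end Pool.Agent.P8H79.QA
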