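import Pool.Agent.P8H79.QA.Scalar

/-! Rationality: every reflection group which contains `Γ m`, `m ≥ 4`, is quasi-arithmetic. -/

set_option autoImplicit false

open Matrix

namespace Pool.Agent.P8H79.QA

/-- the change of coordinates as a matrix -/
noncomputable def Dm : GL (Fin 4) ℝ where
  val := Matrix.diagonal ![1, Real.sqrt 2, Real.sqrt 6, Real.sqrt 33]
  inv := Matrix.diagonal ![1, (Real.sqrt 2)⁻¹, (Real.sqrt 6)⁻¹, (Real.sqrt 33)⁻¹]
  val_inv := by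
    have h2 : Real.sqrt 2 ≠ 0 := by positivity
    have h6 : Real.sqrt 6 ≠ 0 := by positivity
    have h33 : Real.sqrt 33 ≠ 0 := by positivity
    rw [diagonal_mul_diagonal, ← diagonal_one]
    congr 1
    ext i
    fin_cases i <;> simp
  inv_val := by
    have h2 : Real.sqrt 2 ≠ 0 := by positivity
    have h6 : Real.sqrt 6 ≠ 0 := by positivity
    have h33 : Real.sqrt 33 ≠ 0 := by positivity
    rw [diagonal_mul_diagonal, ← diagonal_one]
    congr 1
    ext i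
    fin_cases i <;> simp

theorem ap_Dm (y : Fin 4 → ℝ) : ap Dm y = emb y := by
  ext i
  have : ap Dm y = (Matrix.diagonal ![1, Real.sqrt 2, Real.sqrt 6, Real.sqrt 33]) *ᵥ y := rfl
  rw [this, mulVec_diagonal]
  fin_cases i <;> simp [emb]

theorem ap_Dm_inv (x : Fin 4 → ℝ) : ap Dm⁻¹ x = emi x := by
  have h1 : x = ap Dm (emi x) := by rw [ap_Dm, emb_emi]
  conv_lhs => rw [h1]
  rw [ap_inv_ap]

/-- the matrix in the rational coordinates -/
noncomputable def Yc (g : GL (Fin 4) ℝ) : Matrix (Fin 4) (Fin 4) ℝ := (Dm⁻¹ * g * Dm).1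

theorem Yc_mul (g h : GL (Fin 4) ℝ) : Yc (g * h) = Yc g * Yc h := by
  unfold Yc
  rw [← Units.val_mul]
  congr 1
  group

theorem Yc_one : Yc 1 = 1 := by
  unfold Yc
  rw [mul_one, inv_mul_cancel, Units.val_one]

/-- the rational numbers -/
noncomputable abbrev QQ : Subfield ℝ := (Rat.castHom ℝ).fieldRange

theorem rat_mem (q : ℚ) : (q : ℝ) ∈ QQ := ⟨q, rfl⟩

/-- matrices with rational entries -/
def Rat4 (A : Matrix (Fin 4) (Fin 4) ℝ) : Prop := ∀ i j, A i j ∈ QQ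

theorem Rat4.mul {A B : Matrix (Fin 4) (Fin 4) ℝ} (hA : Rat4 A) (hB : Rat4 B) :
    Rat4 (A * B) := by
  intro i j
  rw [mul_apply]
  exact sum_mem fun k _ => mul_mem (hA i k) (hB k j)

theorem rat4_one : Rat4 1 := by
  intro i j
  rw [one_apply]
  split_ifs
  · exact one_mem _
  · exact zero_mem _

/-- rational vectors -/
def RatV (v : Fin 4 → ℝ) : Prop := ∀ i, v i ∈ QQ

theorem RatV.gg {v : Fin 4 → ℝ} (h : RatV v) : RatV (gg v) := by
  have hc : ∀ q : ℚ, (q : ℝ) ∈ QQ := rat_mem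
  have c1 := hc (27 / 4)
  have c2 := hc 12
  have c3 := hc (99 / 4)
  have c4 := hc (-9 / 4)
  have c5 := hc (3 / 2)
  have c6 := hc (9 / 2)
  have c7 := hc (33 / 4)
  have c8 := hc (1 / 2)
  have c9 := hc (1 / 4)
  have c10 := hc (9 / 4)
  push_cast at c1 c2 c3 c4 c5 c6 c7 c8 c9 c10
  intro i
  unfold QA.gg
  fin_cases i
  · exact add_mem (add_mem (mul_mem c1 (h 0)) (mul_mem c2 (h 2))) (mul_mem c3 (h 3))
  · exact sub_mem (sub_mem (sub_mem (mul_mem c4 (h 0)) (mul_mem c5 (h 1))) (mul_mem c6 (h 2)))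
      (mul_mem c7 (h 3))
  · exact sub_mem (sub_mem (add_mem (mul_mem c4 (h 0)) (mul_mem c8 (h 1))) (mul_mem c6 (h 2)))
      (mul_mem c7 (h 3))
  · exact add_mem (mul_mem c9 (h 0)) (mul_mem c10 (h 3))

theorem ratV_ww (k : ℕ) : RatV (ww k) := by
  induction k with
  | zero =>
    intro i
    rw [ww_zero]
    fin_cases i
    · exact zero_mem _
    · exact one_mem _
    · exact zero_mem _
    · exact zero_mem _
  | succ k ih => rw [ww_succ]; exact ih.gg

theorem ratV_uu (k : ℕ) : RatV (uu k) := by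
  induction k with
  | zero =>
    intro i
    rw [uu_zero]
    fin_cases i
    · exact zero_mem _
    · exact zero_mem _
    · exact zero_mem _
    · exact one_mem _
  | succ k ih => rw [uu_succ]; exact ih.gg

theorem RatV.qf {v w : Fin 4 → ℝ} (hv : RatV v) (hw : RatV w) : qf v w ∈ QQ := by
  have hc : ∀ q : ℚ, (q : ℝ) ∈ QQ := rat_mem
  have c1 := hc 2
  have c2 := hc 6
  have c3 := hc 33
  push_cast at c1 c2 c3
  exact add_mem (add_mem (add_mem (neg_mem (mul_mem (hv 0) (hw 0)))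
    (mul_mem c1 (mul_mem (hv 1) (hw 1)))) (mul_mem c2 (mul_mem (hv 2) (hw 2))))
    (mul_mem c3 (mul_mem (hv 3) (hw 3)))

theorem Yc_apply (g : GL (Fin 4) ℝ) (i j : Fin 4) :
    Yc g i j = emi (ap g (emb (Pi.single j 1))) i := by
  have h1 : Yc g i j = (ap (Dm⁻¹ * g * Dm) (Pi.single j 1)) i := by
    simp [ap, Yc]
  rw [h1, ap_mul, ap_mul, ap_Dm, ap_Dm_inv]

theorem emi_sub (x y : Fin 4 → ℝ) : emi (x - y) = emi x - emi y := by
  ext i
  fin_cases i <;> simp [emi] <;> ring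

theorem emi_smul (c : ℝ) (x : Fin 4 → ℝ) : emi (c • x) = c • emi x := by
  ext i
  fin_cases i <;> simp [emi] <;> ring

theorem rat_rG {v : Fin 4 → ℝ} (hv : RatV v) (hn : 0 < lor (emb v) (emb v)) :
    Rat4 (Yc (rG (emb v))) := by
  intro i j
  have hs : RatV (Pi.single j (1 : ℝ)) := by
    intro k
    by_cases h : k = j
    · subst h; rw [Pi.single_eq_same]; exact one_mem _
    · rw [Pi.single_eq_of_ne h]; exact zero_mem _
  rw [Yc_apply, ap_rG hn.ne', emi_sub, emi_smul, emi_emb, emi_emb, lor_emb, lor_emb]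
  have c1 := rat_mem 2
  push_cast at c1
  exact sub_mem (hs i) (mul_mem (div_mem (mul_mem c1 (hs.qf hv)) (hv.qf hv)) (hv i))

theorem rat_gam (m : ℕ) {g : GL (Fin 4) ℝ} (hg : g ∈ Gam m) : Rat4 (Yc g) := by
  obtain ⟨w, rfl⟩ := (sys m).exists_word hg
  clear hg
  induction w with
  | nil => rw [Sys.pr_nil, Yc_one]; exact rat4_one
  | cons s w ih =>
    rw [Sys.pr_cons, Yc_mul]
    refine Rat4.mul ?_ ih
    rw [sys_R]
    match s with
    | .inl i => exact rat_rG (ratV_ww _) (norm_ww _)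
    | .inr true => exact rat_rG (ratV_uu _) (norm_uu _)
    | .inr false =>
      have h : rG (emb (wl (m + 1) (.inr false))) = rG (emb (uu 0)) := by
        show rG (emb (-uu 0)) = _
        rw [emb_neg, rG_neg (norm_uu 0).ne']
      rw [h]
      exact rat_rG (ratV_uu _) (norm_uu _)

/-- application of a rational functional to the entries -/
noncomputable def phM (φ : ℝ →ₗ[ℚ] ℚ) (A : Matrix (Fin 4) (Fin 4) ℝ) :
    Matrix (Fin 4) (Fin 4) ℝ := fun i j => (φ (A i j) : ℝ)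

theorem phM_rat (φ : ℝ →ₗ[ℚ] ℚ) (A : Matrix (Fin 4) (Fin 4) ℝ) : Rat4 (phM φ A) :=
  fun i j => rat_mem (φ (A i j))

theorem phi_mul (φ : ℝ →ₗ[ℚ] ℚ) (x : ℝ) {q : ℝ} (hq : q ∈ QQ) :
    (φ (x * q) : ℝ) = (φ x : ℝ) * q := by
  obtain ⟨r, rfl⟩ := hq
  have h1 : x * (Rat.castHom ℝ) r = r • x := by
    rw [Rat.smul_def, Rat.coe_castHom, mul_comm]
  rw [h1, map_smul, smul_eq_mul, Rat.cast_mul, Rat.coe_castHom, mul_comm]

theorem phM_mul_right (φ : ℝ →ₗ[ℚ] ℚ) (A : Matrix (Fin 4) (Fin 4) ℝ)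
    {B : Matrix (Fin 4) (Fin 4) ℝ} (hB : Rat4 B) : phM φ (A * B) = phM φ A * B := by
  ext i j
  rw [mul_apply]
  show (φ ((A * B) i j) : ℝ) = _
  rw [mul_apply, map_sum, Rat.cast_sum]
  exact Finset.sum_congr rfl fun k _ => phi_mul φ _ (hB k j)

theorem phM_mul_left (φ : ℝ →ₗ[ℚ] ℚ) (A : Matrix (Fin 4) (Fin 4) ℝ)
    {B : Matrix (Fin 4) (Fin 4) ℝ} (hB : Rat4 B) : phM φ (B * A) = B * phM φ A := by
  ext i j
  rw [mul_apply]
  show (φ ((B * A) i j) : ℝ) = _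
  rw [mul_apply, map_sum, Rat.cast_sum]
  refine Finset.sum_congr rfl fun k _ => ?_
  rw [mul_comm, phi_mul φ _ (hB i k), mul_comm]
  rfl

theorem exists_phi {a : ℝ} (ha : a ≠ 0) : ∃ φ : ℝ →ₗ[ℚ] ℚ, φ a ≠ 0 := by
  by_contra hcon
  push Not at hcon
  exact ha ((Module.forall_dual_apply_eq_zero_iff ℚ a).1 hcon)

theorem key_rational {m : ℕ} (hm : 4 ≤ m) {M : Subgroup (GL (Fin 4) ℝ)} (hM : M ≤ IsomH3)
    (hd : DiscreteTopology M) (h : Gam m ≤ M) {g : GL (Fin 4) ℝ} (hg : g ∈ M) :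
    ∃ μ : ℝ, μ ≠ 0 ∧ Rat4 (μ • Yc g) := by
  have hgg : Yc g * Yc g⁻¹ = 1 := by rw [← Yc_mul, mul_inv_cancel, Yc_one]
  have hgg' : Yc g⁻¹ * Yc g = 1 := by rw [← Yc_mul, inv_mul_cancel, Yc_one]
  obtain ⟨i₀, j₀, h0⟩ : ∃ i j, Yc g i j ≠ 0 := by
    by_contra hcon
    push Not at hcon
    have : Yc g = 0 := by ext i j; exact hcon i j
    rw [this, zero_mul] at hgg
    have := congrFun (congrFun hgg 0) 0
    simp at this
  obtain ⟨φ, hφ⟩ := exists_phi h0
  set A' := phM φ (Yc g) with hA'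
  set B := Yc g⁻¹ * A' with hB
  have hcomm : ∀ γ ∈ Gam m, g * γ * g⁻¹ ∈ Gam m → B * Yc γ = Yc γ * B := by
    intro γ hγ hη
    have h1 : Yc g * Yc γ = Yc (g * γ * g⁻¹) * Yc g := by
      rw [← Yc_mul, ← Yc_mul]
      congr 1
      group
    have h2 : A' * Yc γ = Yc (g * γ * g⁻¹) * A' := by
      rw [hA', ← phM_mul_right φ _ (rat_gam m hγ), h1, phM_mul_left φ _ (rat_gam m hη)]
    rw [hB, mul_assoc, h2, ← mul_assoc, ← mul_assoc, ← Yc_mul, ← Yc_mul]
    congr 2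
    group
  have hL : ∀ k, 4 ≤ k → k < 8 → ∃ n : ℕ, ∀ x,
      Matrix.mulVecLin (Dm.1 * B * Dm⁻¹.1)
        (ap ((rG (emb (ww 0)) * rG (emb (ww k))) ^ (n + 1)) x) =
        ap ((rG (emb (ww 0)) * rG (emb (ww k))) ^ (n + 1))
          (Matrix.mulVecLin (Dm.1 * B * Dm⁻¹.1) x) := by
    intro k hk4 hk8
    have hγ : rG (emb (ww 0)) * rG (emb (ww k)) ∈ Gam m :=
      mul_mem (rw_mem m (by omega)) (rw_mem m (by omega))
    obtain ⟨n, hn, hn'⟩ := power_mem m hM hd h hg (h hγ)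
    obtain ⟨n, rfl⟩ : ∃ n', n = n' + 1 := ⟨n - 1, by omega⟩
    refine ⟨n, fun x => ?_⟩
    have hc := hcomm _ (pow_mem hγ (n + 1)) hn'
    set γ := (rG (emb (ww 0)) * rG (emb (ww k))) ^ (n + 1) with hγdef
    have h1 : Yc γ = Dm⁻¹.1 * γ.1 * Dm.1 := by
      unfold Yc
      rw [Units.val_mul, Units.val_mul]
    have h2 : Dm.1 * Dm⁻¹.1 = 1 := by rw [← Units.val_mul, mul_inv_cancel, Units.val_one]
    have h3 : (Dm.1 * B * Dm⁻¹.1) * γ.1 = γ.1 * (Dm.1 * B * Dm⁻¹.1) := by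
      calc (Dm.1 * B * Dm⁻¹.1) * γ.1 = Dm.1 * B * Dm⁻¹.1 * γ.1 * (Dm.1 * Dm⁻¹.1) := by
            rw [h2, mul_one]
        _ = Dm.1 * (B * (Dm⁻¹.1 * γ.1 * Dm.1)) * Dm⁻¹.1 := by simp only [mul_assoc]
        _ = Dm.1 * ((Dm⁻¹.1 * γ.1 * Dm.1) * B) * Dm⁻¹.1 := by rw [← h1, hc]
        _ = (Dm.1 * Dm⁻¹.1) * γ.1 * (Dm.1 * B * Dm⁻¹.1) := by simp only [mul_assoc]
        _ = _ := by rw [h2, one_mul]
    show (Dm.1 * B * Dm⁻¹.1) *ᵥ (γ.1 *ᵥ x) = γ.1 *ᵥ ((Dm.1 * B * Dm⁻¹.1) *ᵥ x)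
    rw [mulVec_mulVec, mulVec_mulVec, h3]
  obtain ⟨μ, hμ⟩ := comm_scalar hm _ hL
  have hμ' : Dm.1 * B * Dm⁻¹.1 = μ • (1 : Matrix (Fin 4) (Fin 4) ℝ) := by
    ext i j
    have h1 := congrFun (hμ (Pi.single j 1)) i
    rw [Matrix.mulVecLin_apply, mulVec_single_one] at h1
    rw [Matrix.smul_apply, Matrix.one_apply, smul_eq_mul]
    rw [col_apply] at h1
    rw [h1, Pi.smul_apply, smul_eq_mul, Pi.single_apply]
  have hBμ : B = μ • (1 : Matrix (Fin 4) (Fin 4) ℝ) := by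
    have h2 : Dm⁻¹.1 * Dm.1 = 1 := by rw [← Units.val_mul, inv_mul_cancel, Units.val_one]
    calc B = (Dm⁻¹.1 * Dm.1) * B * (Dm⁻¹.1 * Dm.1) := by rw [h2, one_mul, mul_one]
      _ = Dm⁻¹.1 * (Dm.1 * B * Dm⁻¹.1) * Dm.1 := by simp only [mul_assoc]
      _ = _ := by rw [hμ', Matrix.mul_smul, mul_one, Matrix.smul_mul, h2]
  have hAμ : A' = μ • Yc g := by
    calc A' = (Yc g * Yc g⁻¹) * A' := by rw [hgg, one_mul]
      _ = Yc g * B := by rw [hB, mul_assoc]
      _ = _ := by rw [hBμ, Matrix.mul_smul, mul_one]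
  refine ⟨μ, ?_, ?_⟩
  · rintro rfl
    rw [zero_smul] at hAμ
    have := congrFun (congrFun hAμ i₀) j₀
    change ((φ (Yc g i₀ j₀) : ℚ) : ℝ) = 0 at this
    exact hφ (by exact_mod_cast this)
  · rw [← hAμ]
    exact phM_rat φ _

theorem trace_refl {g : GL (Fin 4) ℝ} (hg : IsReflection g) : g.1.trace = 2 := by
  obtain ⟨v, hv, h⟩ := hg
  have hent : ∀ j, g.1 j j = 1 - (2 * lor (Pi.single j 1) v / lor v v) * v j := by
    intro j
    have := congrFun (h (Pi.single j 1)) j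
    rw [mulVec_single_one] at this
    simpa using this
  unfold Matrix.trace
  simp only [diag_apply, Fin.sum_univ_four, hent]
  have hv' := hv.ne'
  have e : ∀ a b c d n : ℝ, n ≠ 0 → -(a * a) + b * b + c * c + d * d = n →
      1 - (2 * (-a) / n) * a + (1 - (2 * b / n) * b) + (1 - (2 * c / n) * c) +
        (1 - (2 * d / n) * d) = 2 := by
    intro a b c d n hn h
    field_simp
    linarith
  have := e (v 0) (v 1) (v 2) (v 3) (lor v v) hv' rfl
  have l0 : lor (Pi.single 0 1) v = -v 0 := by simp [lor]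
  have l1 : lor (Pi.single 1 1) v = v 1 := by simp [lor]
  have l2 : lor (Pi.single 2 1) v = v 2 := by simp [lor]
  have l3 : lor (Pi.single 3 1) v = v 3 := by simp [lor]
  rw [l0, l1, l2, l3]
  exact this

theorem refl_rational {m : ℕ} (hm : 4 ≤ m) {M : Subgroup (GL (Fin 4) ℝ)} (hM : M ≤ IsomH3)
    (hd : DiscreteTopology M) (h : Gam m ≤ M) {g : GL (Fin 4) ℝ} (hg : g ∈ M)
    (hr : IsReflection g) : Rat4 (Yc g) := by
  obtain ⟨μ, hμ, hrat⟩ := key_rational hm hM hd h hg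
  have h1 : (Yc g).trace = 2 := by
    unfold Yc
    rw [Units.val_mul, trace_mul_comm, ← Units.val_mul]
    have : Dm * (Dm⁻¹ * g) = g := by group
    rw [this]
    exact trace_refl hr
  have h2 : μ * 2 ∈ QQ := by
    rw [← h1]
    have h3 : μ * (Yc g).trace = ∑ i, (μ • Yc g) i i := by
      unfold Matrix.trace
      rw [Finset.mul_sum]
      rfl
    rw [h3]
    exact sum_mem fun i _ => hrat i i
  have c2 := rat_mem 2
  push_cast at c2
  have h4 : μ ∈ QQ := by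
    have := div_mem h2 c2
    rwa [mul_div_assoc, div_self two_ne_zero, mul_one] at this
  intro i j
  have h5 := hrat i j
  rw [Matrix.smul_apply, smul_eq_mul] at h5
  have h6 := div_mem h5 h4
  rwa [mul_div_cancel_left₀ _ hμ] at h6

theorem group_rational {m : ℕ} (hm : 4 ≤ m) {M : Subgroup (GL (Fin 4) ℝ)}
    (hM : IsReflectionGroup M) (h : Gam m ≤ M) {g : GL (Fin 4) ℝ} (hg : g ∈ M) :
    Rat4 (Yc g) := by
  rw [← hM.generated] at hg
  have key : Rat4 (Yc g) ∧ Rat4 (Yc g⁻¹) := by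
    induction hg using Subgroup.closure_induction with
    | mem x hx =>
      have h1 := refl_rational hm hM.le hM.discrete h hx.1 hx.2
      refine ⟨h1, ?_⟩
      have h2 : x * x = 1 := by
        obtain ⟨v, hv, hx'⟩ := hx.2
        have : x = rG v := by
          apply ap_ext
          intro y
          rw [ap_rG hv.ne']
          exact hx' y
        rw [this]
        exact rG_sq hv.ne'
      have h3 : x⁻¹ = x := inv_eq_of_mul_eq_one_left h2
      rw [h3]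
      exact h1
    | one => rw [inv_one, Yc_one]; exact ⟨rat4_one, rat4_one⟩
    | mul x y _ _ hx hy =>
      rw [_root_.mul_inv_rev, Yc_mul, Yc_mul]
      exact ⟨hx.1.mul hy.1, hy.2.mul hx.2⟩
    | inv x _ hx =>
      rw [inv_inv]
      exact ⟨hx.2, hx.1⟩
  exact key.1

theorem bot_mem (x : (⊥ : IntermediateField ℚ ℝ)) : ∃ q : ℚ, (x : ℝ) = q := by
  obtain ⟨x, hx⟩ := x
  rw [IntermediateField.mem_bot] at hx
  obtain ⟨q, hq⟩ := hx
  exact ⟨q, hq.symm⟩

/-- All reflection groups which contain one of the groups `Γ m`, `m ≥ 4`, are quasi-arithmetic. -/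
theorem quasi {m : ℕ} (hm : 4 ≤ m) {M : Subgroup (GL (Fin 4) ℝ)}
    (hM : IsReflectionGroup M) (h : Gam m ≤ M) : IsQuasiArithmetic M := by
  have hcast : ∀ (x : (⊥ : IntermediateField ℚ ℝ)), ∃ q : ℚ,
      x = (q : (⊥ : IntermediateField ℚ ℝ)) := by
    intro x
    obtain ⟨q, hq⟩ := bot_mem x
    refine ⟨q, Subtype.ext ?_⟩
    rw [hq]
    push_cast
    rfl
  refine ⟨⊥, inferInstance, ?_, Matrix.diagonal ![-1, 2, 6, 33], ?_, ?_, Dm⁻¹, ?_, ?_⟩
  · intro σ x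
    obtain ⟨q, hq⟩ := hcast x
    rw [hq, map_ratCast]
    simp
  · exact isSymm_diagonal _
  · intro σ hσ
    exfalso
    apply hσ
    ext x
    obtain ⟨q, hq⟩ := hcast x
    rw [hq, map_ratCast, map_ratCast]
  · intro x y
    have h1 : lor x y = qf (emi x) (emi y) := by
      rw [← lor_emb, emb_emi, emb_emi]
    rw [h1, ap_def, ap_def, ap_Dm_inv, ap_Dm_inv]
    rw [Matrix.diagonal_map (by simp), dotProduct]
    simp only [mulVec_diagonal, Fin.sum_univ_four]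
    unfold qf
    have e2 : algebraMap (⊥ : IntermediateField ℚ ℝ) ℝ 2 = 2 := map_ofNat _ 2
    have e6 : algebraMap (⊥ : IntermediateField ℚ ℝ) ℝ 6 = 6 := map_ofNat _ 6
    have e33 : algebraMap (⊥ : IntermediateField ℚ ℝ) ℝ 33 = 33 := map_ofNat _ 33
    simp only [Function.comp_apply, Matrix.cons_val, map_neg, map_one, e2, e6, e33]
    ring
  · intro g hg i j
    have h1 : (Dm⁻¹ * g * Dm⁻¹⁻¹).1 i j = Yc g i j := by
      rw [inv_inv]; rfl
    obtain ⟨q, hq⟩ := group_rational hm hM h hg i j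
    refine ⟨(q : (⊥ : IntermediateField ℚ ℝ)), ?_⟩
    rw [h1, ← hq]
    push_cast
    rfl

end Pool.Agent.P8H79.QA
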