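import Pool.Agent.P8H79.QA.Tiling

/-! Reflections in vectors which need not be normalized. -/

set_option autoImplicit false

open Matrix

namespace Pool.Agent.P8H79.QA

/-- the matrix of the reflection in `v` -/
noncomputable def rM (v : Fin 4 → ℝ) : Matrix (Fin 4) (Fin 4) ℝ :=
  1 - (2 / lor v v) • vecMulVec v ![-v 0, v 1, v 2, v 3]

theorem rM_apply (v x : Fin 4 → ℝ) : rM v *ᵥ x = x - (2 * lor x v / lor v v) • v := by
  unfold rM
  rw [sub_mulVec, one_mulVec, smul_mulVec, vecMulVec_mulVec]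
  congr 1
  have : ![-v 0, v 1, v 2, v 3] ⬝ᵥ x = lor x v := by
    unfold lor
    simp [dotProduct, Fin.sum_univ_four]
    ring
  rw [this]
  ext i
  simp
  ring

theorem rM_sq {v : Fin 4 → ℝ} (hv : lor v v ≠ 0) : rM v * rM v = 1 := by
  have h : ∀ x, (rM v * rM v) *ᵥ x = (1 : Matrix (Fin 4) (Fin 4) ℝ) *ᵥ x := by
    intro x
    rw [← mulVec_mulVec, rM_apply v x, rM_apply, lor_sub_left, lor_smul_left, one_mulVec]
    have : 2 * (lor x v - 2 * lor x v / lor v v * lor v v) / lor v v =
        -(2 * lor x v / lor v v) := by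
      field_simp
      ring
    rw [this]
    module
  ext i j
  have := congrFun (h (Pi.single j 1)) i
  simpa using this

open Classical in
/-- the reflection in `v` -/
noncomputable def rG (v : Fin 4 → ℝ) : GL (Fin 4) ℝ :=
  if h : lor v v ≠ 0 then ⟨rM v, rM v, rM_sq h, rM_sq h⟩ else 1

theorem ap_rG {v : Fin 4 → ℝ} (hv : lor v v ≠ 0) (x : Fin 4 → ℝ) :
    ap (rG v) x = x - (2 * lor x v / lor v v) • v := by
  unfold rG
  rw [dif_pos hv]
  exact rM_apply v x

theorem rG_sq {v : Fin 4 → ℝ} (hv : lor v v ≠ 0) : rG v * rG v = 1 := by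
  apply ap_ext
  intro x
  rw [ap_mul, ap_one, ap_rG hv x, ap_rG hv, lor_sub_left, lor_smul_left]
  have : 2 * (lor x v - 2 * lor x v / lor v v * lor v v) / lor v v =
      -(2 * lor x v / lor v v) := by
    field_simp
    ring
  rw [this]
  module

theorem rG_isReflection {v : Fin 4 → ℝ} (hv : 0 < lor v v) : IsReflection (rG v) :=
  ⟨v, hv, fun x => ap_rG hv.ne' x⟩

theorem rG_smul {v : Fin 4 → ℝ} (hv : lor v v ≠ 0) {c : ℝ} (hc : c ≠ 0) : rG (c • v) = rG v := by
  have h1 : lor (c • v) (c • v) ≠ 0 := by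
    rw [lor_smul_left, lor_smul_right]
    exact mul_ne_zero hc (mul_ne_zero hc hv)
  apply ap_ext
  intro x
  rw [ap_rG h1, ap_rG hv, lor_smul_left, lor_smul_right, lor_smul_right, smul_smul]
  congr 2
  field_simp

/-- normalization -/
noncomputable def nv (v : Fin 4 → ℝ) : Fin 4 → ℝ := (Real.sqrt (lor v v))⁻¹ • v

/-- the condition on pairs, for vectors which need not be normalized -/
def Good (v w : Fin 4 → ℝ) : Prop :=
  lor v w = 0 ∨ (lor v w < 0 ∧ 4 * (lor v w) ^ 2 = 3 * (lor v v * lor w w)) ∨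
    (lor v w < 0 ∧ lor v v * lor w w ≤ (lor v w) ^ 2)

theorem Good.symm {v w : Fin 4 → ℝ} (h : Good v w) : Good w v := by
  unfold Good at h ⊢
  rw [lor_comm w v, mul_comm (lor w w)]
  exact h

theorem lor_nv (v w : Fin 4 → ℝ) :
    lor (nv v) (nv w) = (Real.sqrt (lor v v))⁻¹ * (Real.sqrt (lor w w))⁻¹ * lor v w := by
  unfold nv
  rw [lor_smul_left, lor_smul_right]
  ring

theorem nv_norm {v : Fin 4 → ℝ} (hv : 0 < lor v v) : lor (nv v) (nv v) = 1 := by
  rw [lor_nv]
  have h := Real.mul_self_sqrt hv.le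
  have h' : Real.sqrt (lor v v) ≠ 0 := (Real.sqrt_pos.2 hv).ne'
  field_simp
  nlinarith

/-- the system of the normalized vectors -/
noncomputable def mkSys {S : Type} (v : S → (Fin 4 → ℝ)) (hn : ∀ s, 0 < lor (v s) (v s))
    (hp : ∀ s t, s ≠ t → Good (v s) (v t)) : Sys S where
  e s := nv (v s)
  R s := rG (v s)
  norm s := nv_norm (hn s)
  act s x := by
    rw [ap_rG (hn s).ne']
    unfold nv
    rw [lor_smul_right, smul_smul]
    congr 2
    have h := Real.mul_self_sqrt (hn s).le
    have h' : Real.sqrt (lor (v s) (v s)) ≠ 0 := (Real.sqrt_pos.2 (hn s)).ne'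
    have h2 : lor (v s) (v s) ≠ 0 := (hn s).ne'
    field_simp
    rw [sq, h]
  pair s t hst := by
    have h1 := Real.sqrt_pos.2 (hn s)
    have h2 := Real.sqrt_pos.2 (hn t)
    have q1 := Real.mul_self_sqrt (hn s).le
    have q2 := Real.mul_self_sqrt (hn t).le
    rw [lor_nv]
    set a := Real.sqrt (lor (v s) (v s))
    set b := Real.sqrt (lor (v t) (v t))
    set c := lor (v s) (v t) with hc
    have hab : 0 < a * b := mul_pos h1 h2
    have e : a⁻¹ * b⁻¹ * c = c / (a * b) := by field_simp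
    rw [e]
    rcases hp s t hst with h | ⟨h, h'⟩ | ⟨h, h'⟩
    · left
      rw [← hc] at h
      rw [h, zero_div]
    · right; left
      rw [← hc] at h h'
      refine ⟨div_neg_of_neg_of_pos h hab, ?_⟩
      rw [← q1, ← q2] at h'
      rw [div_pow, mul_div_assoc', div_eq_iff (by positivity)]
      linarith [h']
    · right; right
      rw [← hc] at h h'
      rw [← q1, ← q2] at h'
      rw [div_le_iff₀ hab]
      have h3 : (a * b) ^ 2 ≤ (-c) ^ 2 := by nlinarith
      have h4 := abs_le_of_sq_le_sq h3 (by linarith)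
      rw [abs_le] at h4
      linarith [h4.2]

end Pool.Agent.P8H79.QA
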