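import Pool.Agent.P8H79.QA.Commutant

/-! The commutant of the powers of `r_{w_0} r_{w_j}`. -/

set_option autoImplicit false

open Matrix

namespace Pool.Agent.P8H79.QA

theorem ww_five : ww 5 = ![297, -54, -99, 27] := by
  rw [ww_succ, ww_four]
  ext i
  fin_cases i <;> simp [gg] <;> norm_num

theorem ww_good' {k : ℕ} (hk : 4 ≤ k) : 5 * 3 ^ k ≤ (qf (ww 0) (ww k)) ^ 2 := by
  have h := (rec_ww (ww 0)).neg
  have e2 : qf (ww 0) (ww 2) = 0 := by rw [ww_zero, ww_two]; simp [qf]
  have e3 : qf (ww 0) (ww 3) = 0 := by rw [ww_zero, ww_three]; simp [qf]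
  have e4 : qf (ww 0) (ww 4) = -45 := by rw [ww_zero, ww_four]; simp [qf]; norm_num
  have e5 : qf (ww 0) (ww 5) = -108 := by rw [ww_zero, ww_five]; simp [qf]; norm_num
  rcases Nat.lt_or_ge k 5 with h5 | h5
  · have : k = 4 := by omega
    subst this
    rw [e4]; norm_num
  · obtain ⟨j, rfl⟩ : ∃ j, k = 2 + 3 + j := ⟨k - 5, by omega⟩
    have := h.growth (a := 2) (c := 5) (by simp [e2]) (by simp [e2, e3]) (by simp [e3, e4])
      (by simp [e4, e5]; norm_num) (by norm_num) (by simp [e5]; norm_num) (by simp [e5]) j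
    have h2 := this.2
    rwa [neg_sq] at h2

theorem nv_prod {v w : Fin 4 → ℝ} (hv : 0 < lor v v) (hw : 0 < lor w w) (h : lor v w < 0)
    (h2 : lor v v * lor w w < (lor v w) ^ 2) : 1 < -lor (nv v) (nv w) := by
  have h3 := Real.sqrt_pos.2 hv
  have h4 := Real.sqrt_pos.2 hw
  have q1 := Real.mul_self_sqrt hv.le
  have q2 := Real.mul_self_sqrt hw.le
  rw [lor_nv]
  set a := Real.sqrt (lor v v)
  set b := Real.sqrt (lor w w)
  set c := lor v w with hc
  have hab : 0 < a * b := mul_pos h3 h4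
  have e : -(a⁻¹ * b⁻¹ * c) = (-c) / (a * b) := by field_simp
  rw [e, lt_div_iff₀ hab, one_mul]
  rw [← q1, ← q2] at h2
  have h5 : (a * b) ^ 2 < (-c) ^ 2 := by nlinarith
  exact lt_of_pow_lt_pow_left₀ 2 (by linarith) h5

/-- the wall `w_k` as an index -/
def iw (m : ℕ) (k : ℕ) (hk : k < m + 4) : Fin (m + 1 + 3) ⊕ Bool := .inl ⟨k, hk⟩

theorem sys_R_iw (m k : ℕ) (hk : k < m + 4) : (sys m).R (iw m k hk) = rG (emb (ww k)) := rfl

theorem sys_e_iw (m k : ℕ) (hk : k < m + 4) : (sys m).e (iw m k hk) = nv (emb (ww k)) := rfl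

theorem sys_prod (m k : ℕ) (hk : k < m + 4) (hk4 : 4 ≤ k) :
    1 < -lor ((sys m).e (iw m 0 (by omega))) ((sys m).e (iw m k hk)) := by
  rw [sys_e_iw, sys_e_iw]
  apply nv_prod (norm_ww 0) (norm_ww k)
  · rw [lor_emb]; exact (ww_good hk4).1
  · rw [lor_emb, lor_emb, lor_emb, qf_ww_self, qf_ww_self]
    refine lt_of_lt_of_le ?_ (ww_good' hk4)
    have : (0 : ℝ) < 3 ^ k := by positivity
    linarith

/-- The commutant lemma. -/
theorem comm_scalar {m : ℕ} (hm : 4 ≤ m) (L : (Fin 4 → ℝ) →ₗ[ℝ] (Fin 4 → ℝ))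
    (hL : ∀ k, 4 ≤ k → k < 8 → ∃ n : ℕ, ∀ x,
      L (ap ((rG (emb (ww 0)) * rG (emb (ww k))) ^ (n + 1)) x) =
        ap ((rG (emb (ww 0)) * rG (emb (ww k))) ^ (n + 1)) (L x)) :
    ∃ μ : ℝ, ∀ x, L x = μ • x := by
  have hpos : ∀ k, 0 < (Real.sqrt (lor (emb (ww k)) (emb (ww k))))⁻¹ := fun k =>
    inv_pos.2 (Real.sqrt_pos.2 (norm_ww k))
  have hplane : ∀ k (_ : 4 ≤ k) (hk8 : k < 8), ∃ a b : ℝ,
      L ((sys m).e (iw m 0 (by omega))) = a • (sys m).e (iw m 0 (by omega)) +
        b • (sys m).e (iw m k (by omega)) := by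
    intro k hk4 hk8
    obtain ⟨n, hn⟩ := hL k hk4 hk8
    exact (sys m).comm_plane (iw m 0 (by omega)) (iw m k (by omega))
      (sys_prod m k (by omega) hk4) L hn
  obtain ⟨a, b, h4⟩ := hplane 4 (by omega) (by omega)
  obtain ⟨a', b', h5⟩ := hplane 5 (by omega) (by omega)
  have hb : b = 0 := by
    rw [h4] at h5
    rw [sys_e_iw, sys_e_iw, sys_e_iw] at h5
    unfold nv at h5
    have p4 := hpos 4
    have p5 := hpos 5
    obtain ⟨c4, hc4⟩ : ∃ c, c = (Real.sqrt (lor (emb (ww 4)) (emb (ww 4))))⁻¹ := ⟨_, rfl⟩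
    obtain ⟨c5, hc5⟩ : ∃ c, c = (Real.sqrt (lor (emb (ww 5)) (emb (ww 5))))⁻¹ := ⟨_, rfl⟩
    rw [← hc4] at p4
    rw [← hc5] at p5
    rw [← hc4, ← hc5] at h5
    have g0 := congrFun h5 0
    have g3 := congrFun h5 3
    rw [ww_four, ww_five, ww_zero] at g0 g3
    simp [emb] at g0 g3
    have s33 : Real.sqrt 33 ≠ 0 := by positivity
    have g3' : b * (c4 * (9 / 2)) = b' * (c5 * 27) := by
      have : Real.sqrt 33 * (b * (c4 * (9 / 2))) = Real.sqrt 33 * (b' * (c5 * 27)) := by
        linarith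
      exact mul_left_cancel₀ s33 this
    have : b * c4 = 0 := by linarith
    rcases mul_eq_zero.1 this with h | h
    · exact h
    · exact absurd h p4.ne'
  rw [hb, zero_smul, add_zero] at h4
  refine ⟨a, ?_⟩
  have hk : ∀ k, 4 ≤ k → k < 8 → L (emb (ww k)) = a • emb (ww k) := by
    intro k hk4 hk8
    obtain ⟨n, hn⟩ := hL k hk4 hk8
    have h := (sys m).comm_line (iw m 0 (by omega)) (iw m k (by omega))
      (sys_prod m k (by omega) hk4) L hn h4
    rw [sys_e_iw] at h
    unfold nv at h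
    rw [map_smul, smul_comm a] at h
    exact smul_right_injective _ (hpos k).ne' h
  -- transport by the similarity
  have hP : LinearMap.eqLocus L (a • LinearMap.id) = ⊤ := by
    rw [eq_top_iff]
    intro x _
    have hx : x = emb (gg^[4] (gi^[4] (emi x))) := by rw [gg_iter_gi, emb_emi]
    have hlin : ∀ y : Fin 4 → ℝ, emb (gg^[4] y) ∈ LinearMap.eqLocus L (a • LinearMap.id) := by
      let G : (Fin 4 → ℝ) →ₗ[ℝ] (Fin 4 → ℝ) :=
        { toFun := fun y => emb (gg^[4] (emi y))
          map_add' := by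
            intro x y
            ext i
            fin_cases i <;> simp [emb, emi, gg] <;> ring
          map_smul' := by
            intro c x
            ext i
            fin_cases i <;> simp [emb, emi, gg] <;> ring }
      have hG : (LinearMap.eqLocus L (a • LinearMap.id)).comap G = ⊤ := by
        apply span_w
        intro i hi
        show emb (gg^[4] (emi (emb (ww i)))) ∈ LinearMap.eqLocus L (a • LinearMap.id)
        rw [emi_emb]
        have : gg^[4] (ww i) = ww (4 + i) := by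
          unfold ww
          rw [← Function.iterate_add_apply]
        rw [this]
        exact hk (4 + i) (by omega) (by omega)
      intro y
      have : emb y ∈ (LinearMap.eqLocus L (a • LinearMap.id)).comap G := by rw [hG]; trivial
      have h2 : emb (gg^[4] (emi (emb y))) ∈ LinearMap.eqLocus L (a • LinearMap.id) := this
      rwa [emi_emb] at h2
    rw [hx]
    exact hlin _
  intro x
  have : x ∈ LinearMap.eqLocus L (a • LinearMap.id) := by rw [hP]; trivial
  exact this

end Pool.Agent.P8H79.QA
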