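import Pool.Agent.P8H79.QA.Tits

/-! Discreteness and the fundamental chamber of the groups of `Tits.lean`. -/

set_option autoImplicit false

open Matrix

namespace Pool.Agent.P8H79.QA

theorem continuous_lor_left (y : Fin 4 → ℝ) : Continuous fun x => lor x y := by
  unfold lor
  fun_prop

theorem continuous_lor_self : Continuous fun x => lor x x := by
  unfold lor
  fun_prop

namespace Sys

variable {S : Type} (C : Sys S)

theorem sep [Finite S] {x₀ : Fin 4 → ℝ} (hx : ∀ s, lor x₀ (C.e s) < 0) :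
    ∃ ε > 0, Sep ε C.grp := by
  have hA : {m : Matrix (Fin 4) (Fin 4) ℝ | ∀ s, lor (m *ᵥ x₀) (C.e s) < 0} ∈ nhds 1 := by
    apply IsOpen.mem_nhds
    · have : {m : Matrix (Fin 4) (Fin 4) ℝ | ∀ s, lor (m *ᵥ x₀) (C.e s) < 0} =
          ⋂ s, {m : Matrix (Fin 4) (Fin 4) ℝ | lor (m *ᵥ x₀) (C.e s) < 0} := by
        ext m; simp
      rw [this]
      refine isOpen_iInter_of_finite fun s => isOpen_lt ?_ continuous_const
      exact (continuous_lor_left _).comp (Continuous.matrix_mulVec continuous_id continuous_const)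
    · intro s
      simpa using hx s
  obtain ⟨ε, hε, H⟩ := mem_nhds_matrix hA
  refine ⟨ε, hε, fun g hg hgε => ?_⟩
  by_contra hne
  obtain ⟨s, hs⟩ := C.exists_pos hg hne
  have h1 := hs x₀ hx
  have h2 : lor (ap g x₀) (C.e s) < 0 := H g.1 hgε s
  linarith

theorem cover [Finite S] {x₀ : Fin 4 → ℝ} (hx₀ : x₀ ∈ Hyp) (hx : ∀ s, lor x₀ (C.e s) < 0)
    {x : Fin 4 → ℝ} (hxH : x ∈ Hyp) : ∃ g ∈ C.grp, ∀ s, lor (ap g x) (C.e s) ≤ 0 := by
  obtain ⟨ε, hε, hsep⟩ := C.sep hx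
  obtain ⟨N, hN⟩ := finite_bound ε (4 * x 0 * x₀ 0 * (-lor x x₀)) hε
  have hfin := (hN C.grp C.grp_le hsep).1
  have hfin' : {g : GL (Fin 4) ℝ | g ∈ C.grp ∧ -lor (ap g x) x₀ ≤ -lor x x₀}.Finite := by
    apply hfin.subset
    rintro g ⟨hg, hgx⟩
    refine ⟨hg, (g00_le (C.grp_le hg) hxH hx₀).trans ?_⟩
    have h1 := hxH.2
    have h2 := hx₀.2
    exact mul_le_mul_of_nonneg_left hgx (by positivity)
  obtain ⟨g, hg, hmin⟩ := Set.exists_min_image _ (fun g => -lor (ap g x) x₀) hfin'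
    ⟨1, one_mem _, by simp⟩
  refine ⟨g, hg.1, fun s => ?_⟩
  by_contra hcon
  push Not at hcon
  have h1 : lor (ap (C.R s * g) x) x₀ = lor (ap g x) x₀ - 2 * lor (ap g x) (C.e s) *
      lor x₀ (C.e s) := by
    rw [ap_mul, C.act, lor_sub_left, lor_smul_left, lor_comm (C.e s) x₀]
  have h2 : 0 < 2 * lor (ap g x) (C.e s) * -lor x₀ (C.e s) := by
    have := hx s
    have h3 : 0 < -lor x₀ (C.e s) := by linarith
    positivity
  have h4 : -lor (ap (C.R s * g) x) x₀ < -lor (ap g x) x₀ := by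
    rw [h1]; nlinarith
  have h5 := hmin (C.R s * g) ⟨mul_mem (C.R_mem_grp s) hg.1, h4.le.trans hg.2⟩
  linarith

end Sys

end Pool.Agent.P8H79.QA
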