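import Pool.Agent.P8H79.QA.Basic

/-! Tits' theorem for systems of spacelike vectors with angles `π / 2`, `π / 6` or with products at
most `-1`. -/

set_option autoImplicit false

open Matrix

namespace Pool.Agent.P8H79.QA

/-- a system of unit spacelike vectors and the reflections in them -/
structure Sys (S : Type) where
  e : S → (Fin 4 → ℝ)
  R : S → GL (Fin 4) ℝ
  norm : ∀ s, lor (e s) (e s) = 1
  act : ∀ s x, ap (R s) x = x - (2 * lor x (e s)) • e s
  pair : ∀ s t, s ≠ t → lor (e s) (e t) = 0 ∨
    (lor (e s) (e t) < 0 ∧ 4 * (lor (e s) (e t)) ^ 2 = 3) ∨ lor (e s) (e t) ≤ -1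

/-- alternating words ending with the letter `t` -/
def alt {S : Type} : ℕ → S → S → List S
  | 0, _, _ => []
  | k + 1, s, t => (if Even k then t else s) :: alt k s t

theorem alt_length {S : Type} (k : ℕ) (s t : S) : (alt k s t).length = k := by
  induction k with
  | zero => rfl
  | succ k ih => simp [alt, ih]

namespace Sys

variable {S : Type} (C : Sys S)

theorem R_e (s : S) : ap (C.R s) (C.e s) = -C.e s := by
  rw [C.act, C.norm]
  module

theorem R_sq (s : S) : C.R s * C.R s = 1 := by
  apply ap_ext
  intro x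
  rw [ap_mul, ap_one, C.act s x, C.act s, lor_sub_left, lor_smul_left, C.norm]
  module

theorem R_inv (s : S) : (C.R s)⁻¹ = C.R s := inv_eq_of_mul_eq_one_left (C.R_sq s)

theorem R_lor (s : S) (x y : Fin 4 → ℝ) : lor (ap (C.R s) x) (ap (C.R s) y) = lor x y := by
  rw [C.act s x, C.act s y, lor_sub_left, lor_sub_right, lor_sub_right, lor_smul_left,
    lor_smul_left, lor_smul_right, lor_smul_right, C.norm, lor_comm (C.e s) y]
  ring

theorem R_mem (s : S) : C.R s ∈ IsomH3 := by
  refine ⟨fun x y => C.R_lor s x y, fun x hx => ?_⟩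
  have h1 : lor (ap (C.R s) x) (ap (C.R s) x) = -1 := by rw [C.R_lor]; exact hx.1
  refine ⟨h1, ?_⟩
  show 0 < (ap (C.R s) x) 0
  by_contra hneg
  have h2 : lor (ap (C.R s) x) x ≤ -1 := by
    rw [C.act s x, lor_sub_left, lor_smul_left, lor_comm (C.e s) x]
    have := hx.1
    nlinarith [sq_nonneg (lor x (C.e s))]
  set z := ap (C.R s) x with hz
  have hz0 : z 0 ≠ 0 := by
    intro h0
    unfold lor at h1
    rw [h0] at h1
    nlinarith [sq_nonneg (z 1), sq_nonneg (z 2), sq_nonneg (z 3)]
  have hz1 : z 0 < 0 := lt_of_le_of_ne (not_lt.1 hneg) hz0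
  have h3 : -z ∈ Hyp := ⟨by rw [lor_neg_left, lor_neg_right, neg_neg]; exact h1, by simpa using hz1⟩
  have h4 := neg_lor_pos h3 hx
  rw [lor_neg_left] at h4
  linarith

theorem R_det (s : S) : (C.R s).1.det = -1 := by
  have h1 : (C.R s).1 = 1 + replicateCol Unit (C.e s) *
      replicateRow Unit (![2 * C.e s 0, -2 * C.e s 1, -2 * C.e s 2, -2 * C.e s 3]) := by
    ext i j
    have h2 := congrFun (C.act s (Pi.single j 1)) i
    have h3 : (ap (C.R s) (Pi.single j 1)) i = (C.R s).1 i j := by simp [ap]
    rw [h3] at h2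
    rw [h2, Matrix.add_apply, mul_apply]
    simp only [Finset.univ_unique, replicateCol_apply, replicateRow_apply, Finset.sum_singleton,
      Pi.sub_apply, Pi.smul_apply, smul_eq_mul]
    unfold lor
    fin_cases j <;> fin_cases i <;> simp <;> ring
  rw [h1, det_one_add_replicateCol_mul_replicateRow]
  have := C.norm s
  unfold lor at this
  simp [dotProduct, Fin.sum_univ_four]
  linarith

/-- products of words -/
def pr (w : List S) : GL (Fin 4) ℝ := (w.map C.R).prod

@[simp] theorem pr_nil : C.pr [] = 1 := rfl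

@[simp] theorem pr_cons (s : S) (w : List S) : C.pr (s :: w) = C.R s * C.pr w := by
  simp [pr]

theorem pr_append (v w : List S) : C.pr (v ++ w) = C.pr v * C.pr w := by
  simp [pr]

theorem pr_det (w : List S) : (C.pr w).1.det = (-1) ^ w.length := by
  induction w with
  | nil => simp
  | cons s w ih => rw [pr_cons, Units.val_mul, det_mul, C.R_det, ih]; simp [pow_succ]

/-- the group generated by the reflections -/
def grp : Subgroup (GL (Fin 4) ℝ) := Subgroup.closure (Set.range C.R)

theorem R_mem_grp (s : S) : C.R s ∈ C.grp := Subgroup.subset_closure ⟨s, rfl⟩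

theorem pr_mem (w : List S) : C.pr w ∈ C.grp := by
  induction w with
  | nil => exact one_mem _
  | cons s w ih => rw [pr_cons]; exact mul_mem (C.R_mem_grp s) ih

theorem grp_le : C.grp ≤ IsomH3 := by
  unfold grp
  rw [Subgroup.closure_le]
  rintro _ ⟨s, rfl⟩
  exact C.R_mem s

theorem exists_word {g : GL (Fin 4) ℝ} (hg : g ∈ C.grp) : ∃ w, C.pr w = g := by
  unfold grp at hg
  induction hg using Subgroup.closure_induction with
  | mem x hx =>
    obtain ⟨s, rfl⟩ := hx
    exact ⟨[s], by simp⟩
  | one => exact ⟨[], rfl⟩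
  | mul x y _ _ hx hy =>
    obtain ⟨v, rfl⟩ := hx
    obtain ⟨w, rfl⟩ := hy
    exact ⟨v ++ w, C.pr_append v w⟩
  | inv x hx0 hx =>
    obtain ⟨v, rfl⟩ := hx
    clear hx0
    refine ⟨v.reverse, ?_⟩
    rw [eq_inv_iff_mul_eq_one]
    induction v with
    | nil => simp
    | cons s v ih =>
      rw [List.reverse_cons, pr_append, pr_cons, pr_cons, pr_nil, mul_one]
      calc C.pr v.reverse * C.R s * (C.R s * C.pr v)
          = C.pr v.reverse * (C.R s * C.R s) * C.pr v := by group
        _ = 1 := by rw [C.R_sq, mul_one, ih]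

/-- the length -/
noncomputable def len (g : GL (Fin 4) ℝ) : ℕ := sInf {n | ∃ w : List S, w.length = n ∧ C.pr w = g}

theorem len_le (w : List S) : C.len (C.pr w) ≤ w.length := Nat.sInf_le ⟨w, rfl, rfl⟩

theorem exists_len {g : GL (Fin 4) ℝ} (hg : g ∈ C.grp) :
    ∃ w : List S, w.length = C.len g ∧ C.pr w = g := by
  obtain ⟨w, hw⟩ := C.exists_word hg
  exact Nat.sInf_mem (s := {n | ∃ w : List S, w.length = n ∧ C.pr w = g}) ⟨w.length, w, rfl, hw⟩

theorem len_mul_pr {g : GL (Fin 4) ℝ} (hg : g ∈ C.grp) (w : List S) :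
    C.len (g * C.pr w) ≤ C.len g + w.length := by
  obtain ⟨v, hv, rfl⟩ := C.exists_len hg
  rw [← pr_append, ← hv, ← List.length_append]
  exact C.len_le _

theorem len_mul_R {g : GL (Fin 4) ℝ} (hg : g ∈ C.grp) (s : S) :
    C.len (g * C.R s) ≤ C.len g + 1 := by
  have := C.len_mul_pr hg [s]
  simpa using this

theorem le_len_mul_R {g : GL (Fin 4) ℝ} (hg : g ∈ C.grp) (s : S) :
    C.len g ≤ C.len (g * C.R s) + 1 := by
  have := C.len_mul_R (mul_mem hg (C.R_mem_grp s)) s
  rwa [mul_assoc, C.R_sq, mul_one] at this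

theorem det_eq {g : GL (Fin 4) ℝ} (hg : g ∈ C.grp) : g.1.det = (-1) ^ (C.len g) := by
  obtain ⟨v, hv, rfl⟩ := C.exists_len hg
  rw [pr_det, hv]

theorem len_ne {g : GL (Fin 4) ℝ} (hg : g ∈ C.grp) (s : S) :
    C.len (g * C.R s) ≠ C.len g := by
  intro h
  have h1 := C.det_eq hg
  have h2 := C.det_eq (mul_mem hg (C.R_mem_grp s))
  rw [Units.val_mul, det_mul, C.R_det, h, h1] at h2
  have h3 : ((-1 : ℝ)) ^ (C.len g) ≠ 0 := pow_ne_zero _ (by norm_num)
  apply h3
  linarith

theorem len_lt_or {g : GL (Fin 4) ℝ} (hg : g ∈ C.grp) (s : S) :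
    C.len (g * C.R s) = C.len g + 1 ∨ C.len (g * C.R s) + 1 = C.len g := by
  have h1 := C.len_mul_R hg s
  have h2 := C.le_len_mul_R hg s
  have h3 := C.len_ne hg s
  omega

/-! ### dihedral groups -/

theorem pr_alt_mul (k : ℕ) (s t : S) :
    C.pr (alt k s t) * C.R s = C.pr (alt (k + 1) t s) := by
  induction k with
  | zero => simp [alt]
  | succ k ih =>
    rw [alt, pr_cons, mul_assoc, ih, alt, pr_cons]
    congr 1
    rcases Nat.even_or_odd k with h | h
    · have h' : ¬ Even (k + 1) := by rw [Nat.not_even_iff_odd]; exact h.add_one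
      simp [h, h']
    · have h' : Even (k + 1) := h.add_one
      have h'' : ¬ Even k := Nat.not_even_iff_odd.2 h
      simp [h', h'']

/-- the coefficients -/
noncomputable def pp (c : ℝ) : ℕ → ℝ
  | 0 => 0
  | 1 => 1
  | (n + 2) => 2 * c * pp c (n + 1) - pp c n

theorem alt_e (s t : S) (k : ℕ) :
    ap (C.pr (alt k s t)) (C.e s) =
      if Even k then pp (-lor (C.e s) (C.e t)) (k + 1) • C.e s +
        pp (-lor (C.e s) (C.e t)) k • C.e t
      else pp (-lor (C.e s) (C.e t)) k • C.e s +
        pp (-lor (C.e s) (C.e t)) (k + 1) • C.e t := by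
  induction k with
  | zero => simp [alt, pp]
  | succ k ih =>
    rw [alt, pr_cons, ap_mul, ih]
    rcases Nat.even_or_odd k with h | h
    · have h' : ¬ Even (k + 1) := by rw [Nat.not_even_iff_odd]; exact h.add_one
      rw [if_pos h, if_pos h, if_neg h', C.act, lor_add_left, lor_smul_left, lor_smul_left,
        C.norm, pp]
      module
    · have h' : Even (k + 1) := h.add_one
      have h'' : ¬ Even k := Nat.not_even_iff_odd.2 h
      rw [if_neg h'', if_neg h'', if_pos h', C.act, lor_add_left, lor_smul_left, lor_smul_left,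
        C.norm, pp, lor_comm (C.e t) (C.e s)]
      module


theorem R_step (s t : S) (x : Fin 4 → ℝ) (a b : ℝ) :
    ap (C.R s) (x + a • C.e s + b • C.e t) =
      x + (-a - 2 * lor x (C.e s) - 2 * b * lor (C.e s) (C.e t)) • C.e s + b • C.e t := by
  rw [C.act, lor_add_left, lor_add_left, lor_smul_left, lor_smul_left, C.norm,
    lor_comm (C.e t) (C.e s)]
  module

theorem R_step' (s t : S) (x : Fin 4 → ℝ) (a b : ℝ) :
    ap (C.R t) (x + a • C.e s + b • C.e t) =
      x + a • C.e s + (-b - 2 * lor x (C.e t) - 2 * a * lor (C.e s) (C.e t)) • C.e t := by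
  rw [C.act, lor_add_left, lor_add_left, lor_smul_left, lor_smul_left, C.norm]
  module

theorem braid_two (s t : S) (h : lor (C.e s) (C.e t) = 0) :
    C.pr (alt 2 s t) = C.pr (alt 2 t s) := by
  apply ap_ext
  intro x
  have hx : x = x + (0 : ℝ) • C.e s + (0 : ℝ) • C.e t := by simp
  have e1 : C.pr (alt 2 s t) = C.R s * C.R t := by simp [alt]
  have e2 : C.pr (alt 2 t s) = C.R t * C.R s := by simp [alt]
  rw [e1, e2, ap_mul, ap_mul]
  conv_lhs => rw [hx]
  conv_rhs => rw [hx]
  rw [R_step, R_step', R_step', R_step, h]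
  congr 3 <;> ring

theorem braid_six (s t : S) (h : 4 * (lor (C.e s) (C.e t)) ^ 2 = 3) :
    C.pr (alt 6 s t) = C.pr (alt 6 t s) := by
  apply ap_ext
  intro x
  have hx : x = x + (0 : ℝ) • C.e s + (0 : ℝ) • C.e t := by simp
  have e1 : C.pr (alt 6 s t) = C.R s * (C.R t * (C.R s * (C.R t * (C.R s * C.R t)))) := by
    simp [alt, show ¬ Even 5 by decide, show ¬ Even 3 by decide, show Even 4 by decide]
  have e2 : C.pr (alt 6 t s) = C.R t * (C.R s * (C.R t * (C.R s * (C.R t * C.R s)))) := by
    simp [alt, show ¬ Even 5 by decide, show ¬ Even 3 by decide, show Even 4 by decide]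
  rw [e1, e2]
  simp only [ap_mul]
  conv_lhs => rw [hx]
  conv_rhs => rw [hx]
  simp only [R_step, R_step']
  set c := lor (C.e s) (C.e t)
  set u := lor x (C.e s)
  set v := lor x (C.e t)
  have key : ∀ A A' B B' : ℝ, A = A' → B = B' →
      x + A • C.e s + B • C.e t = x + A' • C.e s + B' • C.e t := by
    rintro A _ B _ rfl rfl
    rfl
  apply key
  · linear_combination (16 * c ^ 3 * v - 4 * c * v) * h
  · linear_combination (-16 * c ^ 3 * u + 4 * c * u) * h

theorem exists_prefix (s t : S) (m k : ℕ) (hk : m ≤ k) :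
    ∃ q : List S, q.length + m = k ∧ C.pr (alt k s t) = C.pr q * C.pr (alt m s t) := by
  induction k, hk using Nat.le_induction with
  | base => exact ⟨[], by simp, by simp⟩
  | succ k _ ih =>
    obtain ⟨q, hq, hq'⟩ := ih
    refine ⟨(if Even k then t else s) :: q, by simp; omega, ?_⟩
    rw [alt, pr_cons, pr_cons, hq', mul_assoc]

theorem alt_shorten (s t : S) (m : ℕ) (hb : C.pr (alt (m + 1) s t) = C.pr (alt (m + 1) t s))
    (k : ℕ) (hk : m + 1 ≤ k) :
    ∃ w : List S, w.length + 1 = k ∧ C.pr (alt k s t) * C.R s = C.pr w := by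
  obtain ⟨q, hq, hq'⟩ := C.exists_prefix s t (m + 1) k hk
  refine ⟨q ++ alt m s t, by rw [List.length_append, alt_length]; omega, ?_⟩
  rw [hq', hb, ← C.pr_alt_mul, pr_append, mul_assoc, mul_assoc, C.R_sq, mul_one]

theorem pp_mono {c : ℝ} (hc : 1 ≤ c) (n : ℕ) : 0 ≤ pp c n ∧ pp c n ≤ pp c (n + 1) := by
  induction n with
  | zero => simp [pp]
  | succ n ih =>
    refine ⟨ih.1.trans ih.2, ?_⟩
    rw [pp]
    nlinarith [ih.1, ih.2]

theorem one_le_pp {c : ℝ} (hc : 1 ≤ c) (n : ℕ) : 1 ≤ pp c (n + 1) := by
  induction n with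
  | zero => simp [pp]
  | succ n ih => exact ih.trans (pp_mono hc (n + 1)).2

theorem comb_neg {a b X Y : ℝ} (ha : 0 ≤ a) (hb : 0 ≤ b) (hab : 0 < a + b) (hX : X < 0)
    (hY : Y < 0) : a * X + b * Y < 0 := by
  rcases ha.lt_or_eq with h | h
  · have h1 := mul_neg_of_pos_of_neg h hX
    have h2 := mul_nonpos_of_nonneg_of_nonpos hb hY.le
    linarith
  · subst h
    have h1 : 0 < b := by linarith
    have h2 := mul_neg_of_pos_of_neg h1 hY
    linarith

/-- Tits' theorem, first form. -/
theorem neg_of_len (n : ℕ) : ∀ {g : GL (Fin 4) ℝ}, g ∈ C.grp → C.len g = n → ∀ s,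
    C.len g < C.len (g * C.R s) → ∀ x, (∀ t, lor x (C.e t) < 0) → lor x (ap g (C.e s)) < 0 := by
  induction n using Nat.strong_induction_on with
  | _ n IH =>
    intro g hg hn s hs x hx
    rcases Nat.eq_zero_or_pos n with h0 | hpos
    · obtain ⟨w, hw, hw'⟩ := C.exists_len hg
      rw [hn, h0] at hw
      have : w = [] := List.length_eq_zero_iff.1 hw
      rw [this] at hw'
      rw [← hw', pr_nil, ap_one]
      exact hx s
    · obtain ⟨t, ht⟩ : ∃ t, C.len (g * C.R t) + 1 = C.len g := by
        obtain ⟨w, hw, hw'⟩ := C.exists_len hg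
        have hne : w ≠ [] := by
          intro h
          rw [h] at hw
          simp at hw
          omega
        obtain ⟨v, t, rfl⟩ : ∃ v t, w = v ++ [t] :=
          ⟨w.dropLast, w.getLast hne, (List.dropLast_append_getLast hne).symm⟩
        refine ⟨t, ?_⟩
        have h1 : g * C.R t = C.pr v := by
          rw [← hw', pr_append, pr_cons, pr_nil, mul_one, mul_assoc, C.R_sq, mul_one]
        have h2 := C.len_le v
        rw [← h1] at h2
        rw [List.length_append] at hw
        simp at hw
        rcases C.len_lt_or hg t with h | h <;> omega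
      have hst : s ≠ t := by
        rintro rfl
        omega
      -- the maximal alternating end
      let P : ℕ → Prop := fun k => ∃ d ∈ C.grp, g = d * C.pr (alt k s t) ∧ C.len d + k = C.len g
      have hP1 : P 1 := by
        refine ⟨g * C.R t, mul_mem hg (C.R_mem_grp t), ?_, ht⟩
        simp [alt, mul_assoc, C.R_sq]
      classical
      obtain ⟨k, hk1, hPk, hmax⟩ : ∃ k, 1 ≤ k ∧ P k ∧ ¬ P (k + 1) := by
        have hb : ∀ k, P k → k ≤ C.len g := by
          rintro k ⟨d, _, _, h⟩
          omega
        refine ⟨Nat.findGreatest P (C.len g), ?_, ?_, ?_⟩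
        · exact Nat.le_findGreatest (hb 1 hP1) hP1
        · exact Nat.findGreatest_spec (hb 1 hP1) hP1
        · intro h
          have := Nat.le_findGreatest (hb _ h) h
          omega
      obtain ⟨d, hd, hgd, hlen⟩ := hPk
      have hnext : C.len d < C.len (d * C.R (if Even k then t else s)) := by
        by_contra hcon
        apply hmax
        have h1 : C.len (d * C.R (if Even k then t else s)) + 1 = C.len d := by
          rcases C.len_lt_or hd (if Even k then t else s) with h | h <;> omega
        refine ⟨d * C.R (if Even k then t else s), mul_mem hd (C.R_mem_grp _), ?_, by omega⟩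
        rw [alt, pr_cons, hgd]
        calc d * C.pr (alt k s t) = d * (C.R (if Even k then t else s) *
            C.R (if Even k then t else s)) * C.pr (alt k s t) := by rw [C.R_sq, mul_one]
          _ = _ := by group
      have hfirst : C.len d < C.len (d * C.R (if Even k then s else t)) := by
        by_contra hcon
        have h1 : C.len (d * C.R (if Even k then s else t)) + 1 = C.len d := by
          rcases C.len_lt_or hd (if Even k then s else t) with h | h <;> omega
        obtain ⟨j, rfl⟩ : ∃ j, k = j + 1 := ⟨k - 1, by omega⟩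
        have h2 : (if Even (j + 1) then s else t) = (if Even j then t else s) := by
          rcases Nat.even_or_odd j with h | h
          · have h' : ¬ Even (j + 1) := by rw [Nat.not_even_iff_odd]; exact h.add_one
            simp [h, h']
          · have h' : Even (j + 1) := h.add_one
            have h'' : ¬ Even j := Nat.not_even_iff_odd.2 h
            simp [h', h'']
        rw [h2] at h1
        have h3 : g = (d * C.R (if Even j then t else s)) * C.pr (alt j s t) := by
          rw [hgd, alt, pr_cons, mul_assoc]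
        have h4 := C.len_mul_pr (mul_mem hd (C.R_mem_grp (if Even j then t else s))) (alt j s t)
        rw [← h3, alt_length] at h4
        omega
      have hds : C.len d < C.len (d * C.R s) := by
        by_cases h : Even k
        · simpa [h] using hfirst
        · simpa [h] using hnext
      have hdt : C.len d < C.len (d * C.R t) := by
        by_cases h : Even k
        · simpa [h] using hnext
        · simpa [h] using hfirst
      have hxs := IH (C.len d) (by omega) hd rfl s hds x hx
      have hxt := IH (C.len d) (by omega) hd rfl t hdt x hx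
      -- the coefficients
      have hshort : ∀ m, C.pr (alt (m + 1) s t) = C.pr (alt (m + 1) t s) → k ≤ m := by
        intro m hb
        by_contra hcon
        obtain ⟨w, hw, hw'⟩ := C.alt_shorten s t m hb k (by omega)
        have h3 : g * C.R s = d * C.pr w := by rw [hgd, mul_assoc, hw']
        have h4 := C.len_mul_pr hd w
        rw [← h3] at h4
        omega
      have hcoef : 0 ≤ pp (-lor (C.e s) (C.e t)) k ∧ 0 ≤ pp (-lor (C.e s) (C.e t)) (k + 1) ∧
          0 < pp (-lor (C.e s) (C.e t)) k + pp (-lor (C.e s) (C.e t)) (k + 1) := by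
        rcases C.pair s t hst with h | ⟨h, h'⟩ | h
        · have hk : k = 1 := by
            have := hshort 1 (C.braid_two s t h)
            omega
          subst hk
          simp [pp, h]
        · have hk : k ≤ 5 := hshort 5 (C.braid_six s t h')
          set c := -lor (C.e s) (C.e t) with hc
          have hc0 : 0 < c := by rw [hc]; linarith
          have hc2 : 4 * c ^ 2 = 3 := by rw [hc]; linarith [h']
          have p1 : pp c 1 = 1 := rfl
          have p2 : pp c 2 = 2 * c := by simp [pp]
          have p3 : pp c 3 = 2 := by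
            rw [pp, p2, p1]; linarith
          have p4 : pp c 4 = 2 * c := by
            rw [pp, p3, p2]; ring
          have p5 : pp c 5 = 1 := by
            rw [pp, p4, p3]; linarith
          have p6 : pp c 6 = 0 := by
            rw [pp, p5, p4]; ring
          interval_cases k
          · norm_num [p1, p2]; exact ⟨hc0.le, by positivity⟩
          · norm_num [p2, p3]; exact ⟨hc0.le, by positivity⟩
          · norm_num [p3, p4]; exact ⟨hc0.le, by positivity⟩
          · norm_num [p4, p5]; exact ⟨hc0.le, by positivity⟩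
          · norm_num [p5, p6]
        · have hc : 1 ≤ -lor (C.e s) (C.e t) := by linarith
          have h1 := pp_mono hc k
          have h2 := pp_mono hc (k + 1)
          have h3 := one_le_pp hc k
          exact ⟨h1.1, h2.1, by linarith⟩
      obtain ⟨hc1, hc2, hc3⟩ := hcoef
      set α := pp (-lor (C.e s) (C.e t)) k
      set β := pp (-lor (C.e s) (C.e t)) (k + 1)
      rw [hgd, ap_mul, C.alt_e s t k]
      by_cases h : Even k
      · rw [if_pos h, ap_add, ap_smul, ap_smul, lor_add_right, lor_smul_right, lor_smul_right]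
        exact comb_neg hc2 hc1 (by linarith) hxs hxt
      · rw [if_neg h, ap_add, ap_smul, ap_smul, lor_add_right, lor_smul_right, lor_smul_right]
        exact comb_neg hc1 hc2 hc3 hxs hxt

/-- Tits' theorem: a nontrivial element moves the chamber off itself. -/
theorem exists_pos {g : GL (Fin 4) ℝ} (hg : g ∈ C.grp) (h1 : g ≠ 1) :
    ∃ s, ∀ x, (∀ t, lor x (C.e t) < 0) → 0 < lor (ap g x) (C.e s) := by
  have hg' := inv_mem hg
  obtain ⟨w, hw, hw'⟩ := C.exists_len hg'
  have hne : w ≠ [] := by
    rintro rfl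
    rw [pr_nil] at hw'
    exact h1 (by rw [← inv_inv g, ← hw', inv_one])
  obtain ⟨v, t, rfl⟩ : ∃ v t, w = v ++ [t] :=
    ⟨w.dropLast, w.getLast hne, (List.dropLast_append_getLast hne).symm⟩
  refine ⟨t, fun x hx => ?_⟩
  have h2 : g⁻¹ = C.pr v * C.R t := by
    rw [← hw', pr_append, pr_cons, pr_nil, mul_one]
  have h3 : C.len (C.pr v) < C.len (C.pr v * C.R t) := by
    rw [← h2, ← hw, List.length_append]
    have := C.len_le v
    simp
    omega
  have h4 := C.neg_of_len _ (C.pr_mem v) rfl t h3 x hx
  rw [lor_ap_left (C.grp_le hg), h2, ap_mul, C.R_e, ap_neg, lor_neg_right]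
  linarith

end Sys

end Pool.Agent.P8H79.QA
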