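import Pool.Agent.P8H79.QA.Covol

/-! Uniform discreteness of the discrete groups which contain the first four reflections. -/

set_option autoImplicit false

open Matrix

namespace Pool.Agent.P8H79.QA

/-- the first four walls span -/
theorem span_w {P : Submodule ℝ (Fin 4 → ℝ)} (h : ∀ i < 4, emb (ww i) ∈ P) : P = ⊤ := by
  have h0 := h 0 (by norm_num)
  have h1 := h 1 (by norm_num)
  have h2 := h 2 (by norm_num)
  have h3 := h 3 (by norm_num)
  rw [ww_zero] at h0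
  rw [ww_one] at h1
  rw [ww_two] at h2
  rw [ww_three] at h3
  have f1 : emb ![0, 1, 0, 0] ∈ P := h0
  have f2 : emb ![0, 0, 1, 0] ∈ P := by
    have : emb ![0, 0, 1, 0] = (2 : ℝ) • emb ![0, -3 / 2, 1 / 2, 0] +
        (3 : ℝ) • emb ![0, 1, 0, 0] := by
      rw [← emb_smul, ← emb_smul, ← emb_add]
      congr 1
      ext i
      fin_cases i <;> simp <;> norm_num
    rw [this]
    exact P.add_mem (P.smul_mem _ h1) (P.smul_mem _ h0)
  have f0 : emb ![1, 0, 0, 0] ∈ P := by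
    have : emb ![1, 0, 0, 0] = (1 / 6 : ℝ) • emb ![6, 0, -3, 0] +
        (1 / 2 : ℝ) • emb ![0, 0, 1, 0] := by
      rw [← emb_smul, ← emb_smul, ← emb_add]
      congr 1
      ext i
      fin_cases i <;> simp
      norm_num
    rw [this]
    exact P.add_mem (P.smul_mem _ h2) (P.smul_mem _ f2)
  have f3 : emb ![0, 0, 0, 1] ∈ P := by
    have : emb ![0, 0, 0, 1] = (2 / 3 : ℝ) • emb ![9 / 2, 0, 0, 3 / 2] +
        (-3 : ℝ) • emb ![1, 0, 0, 0] := by
      rw [← emb_smul, ← emb_smul, ← emb_add]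
      congr 1
      ext i
      fin_cases i <;> simp <;> norm_num
    rw [this]
    exact P.add_mem (P.smul_mem _ h3) (P.smul_mem _ f0)
  rw [eq_top_iff]
  intro x _
  have hx : x = emb (emi x) := (emb_emi x).symm
  have : emb (emi x) = (emi x 0) • emb ![1, 0, 0, 0] + (emi x 1) • emb ![0, 1, 0, 0] +
      (emi x 2) • emb ![0, 0, 1, 0] + (emi x 3) • emb ![0, 0, 0, 1] := by
    rw [← emb_smul, ← emb_smul, ← emb_smul, ← emb_smul, ← emb_add, ← emb_add, ← emb_add]
    congr 1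
    ext i
    fin_cases i <;> simp
  rw [hx, this]
  exact P.add_mem (P.add_mem (P.add_mem (P.smul_mem _ f0) (P.smul_mem _ f1)) (P.smul_mem _ f2))
    (P.smul_mem _ f3)

theorem lor_ww_succ (i : ℕ) : lor (emb (ww i)) (emb (ww (i + 1))) ≠ 0 := by
  rw [lor_emb, qf_ww]
  have e1 : qf (ww 0) (ww 1) = -3 := by rw [ww_zero, ww_one]; simp [qf]; norm_num
  rw [e1]
  have : (0 : ℝ) < 3 ^ i := by positivity
  nlinarith

/-- a skew matrix which commutes with its conjugate under the reflection in `v` -/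
theorem skew_sq {Y : Matrix (Fin 4) (Fin 4) ℝ} (hs : ∀ x y, lor (Y *ᵥ x) y = -lor x (Y *ᵥ y))
    {v : Fin 4 → ℝ} (hv : 0 < lor v v)
    (hc : ∀ x, Y *ᵥ ap (rG v) (Y *ᵥ ap (rG v) x) = ap (rG v) (Y *ᵥ ap (rG v) (Y *ᵥ x))) :
    Y *ᵥ (Y *ᵥ v) = (lor (Y *ᵥ (Y *ᵥ v)) v / lor v v) • v := by
  have h0 : lor (Y *ᵥ v) v = 0 := by
    have := hs v v
    rw [lor_comm v] at this
    linarith
  have h1 : ap (rG v) v = -v := by
    rw [ap_rG hv.ne']
    have : 2 * lor v v / lor v v = 2 := by field_simp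
    rw [this]
    module
  have h2 : ap (rG v) (Y *ᵥ v) = Y *ᵥ v := by
    rw [ap_rG hv.ne', h0]
    simp
  have h3 := hc v
  rw [h1, mulVec_neg, ap_neg, h2, mulVec_neg, ap_rG hv.ne'] at h3
  have h4 : (2 : ℝ) • (Y *ᵥ (Y *ᵥ v)) = (2 : ℝ) • ((lor (Y *ᵥ (Y *ᵥ v)) v / lor v v) • v) := by
    rw [smul_smul, mul_div_assoc']
    have : (2 : ℝ) • (Y *ᵥ (Y *ᵥ v)) = Y *ᵥ (Y *ᵥ v) - (-(Y *ᵥ (Y *ᵥ v))) := by module
    rw [this, h3]
    module
  exact smul_right_injective _ (two_ne_zero) h4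

theorem skew_zero {Y : Matrix (Fin 4) (Fin 4) ℝ} (hs : ∀ x y, lor (Y *ᵥ x) y = -lor x (Y *ᵥ y))
    (hc : ∀ i < 4, ∀ x, Y *ᵥ ap (rG (emb (ww i))) (Y *ᵥ ap (rG (emb (ww i))) x) =
      ap (rG (emb (ww i))) (Y *ᵥ ap (rG (emb (ww i))) (Y *ᵥ x))) : Y = 0 := by
  have hsq : ∀ x y, lor (Y *ᵥ (Y *ᵥ x)) y = lor x (Y *ᵥ (Y *ᵥ y)) := by
    intro x y
    rw [hs, hs, neg_neg]
  have h0 := skew_sq hs (norm_ww 0) (hc 0 (by norm_num))
  have h1 := skew_sq hs (norm_ww 1) (hc 1 (by norm_num))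
  have h2 := skew_sq hs (norm_ww 2) (hc 2 (by norm_num))
  have h3 := skew_sq hs (norm_ww 3) (hc 3 (by norm_num))
  obtain ⟨a, ha⟩ : ∃ a, a = lor (Y *ᵥ (Y *ᵥ emb (ww 0))) (emb (ww 0)) /
    lor (emb (ww 0)) (emb (ww 0)) := ⟨_, rfl⟩
  obtain ⟨b, hb⟩ : ∃ a, a = lor (Y *ᵥ (Y *ᵥ emb (ww 1))) (emb (ww 1)) /
    lor (emb (ww 1)) (emb (ww 1)) := ⟨_, rfl⟩
  obtain ⟨c, hc'⟩ : ∃ a, a = lor (Y *ᵥ (Y *ᵥ emb (ww 2))) (emb (ww 2)) /
    lor (emb (ww 2)) (emb (ww 2)) := ⟨_, rfl⟩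
  obtain ⟨d, hd⟩ : ∃ a, a = lor (Y *ᵥ (Y *ᵥ emb (ww 3))) (emb (ww 3)) /
    lor (emb (ww 3)) (emb (ww 3)) := ⟨_, rfl⟩
  rw [← ha] at h0
  rw [← hb] at h1
  rw [← hc'] at h2
  rw [← hd] at h3
  have key : ∀ {v w : Fin 4 → ℝ} {p q : ℝ}, Y *ᵥ (Y *ᵥ v) = p • v → Y *ᵥ (Y *ᵥ w) = q • w →
      lor v w ≠ 0 → p = q := by
    intro v w p q hv hw hvw
    have := hsq v w
    rw [hv, hw, lor_smul_left, lor_smul_right] at this
    exact mul_right_cancel₀ hvw this
  have hab := key h0 h1 (lor_ww_succ 0)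
  have hbc := key h1 h2 (lor_ww_succ 1)
  have hcd := key h2 h3 (lor_ww_succ 2)
  rw [← hcd, ← hbc, ← hab] at h3
  rw [← hbc, ← hab] at h2
  rw [← hab] at h1
  have hall : ∀ x, Y *ᵥ (Y *ᵥ x) = a • x := by
    have hP : LinearMap.eqLocus ((Matrix.mulVecLin Y).comp (Matrix.mulVecLin Y))
        (a • LinearMap.id) = ⊤ := by
      apply span_w
      intro i hi
      interval_cases i
      · exact h0
      · exact h1
      · exact h2
      · exact h3
    intro x
    have : x ∈ LinearMap.eqLocus ((Matrix.mulVecLin Y).comp (Matrix.mulVecLin Y))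
        (a • LinearMap.id) := by rw [hP]; trivial
    exact this
  -- entries
  have hent : ∀ i j, (Y *ᵥ (Pi.single j 1)) i = Y i j := by
    intro i j; simp
  have hsk := fun i j => hs (Pi.single i 1) (Pi.single j 1)
  unfold lor at hsk
  simp only [hent] at hsk
  have q00 := hsk 0 0
  have q11 := hsk 1 1
  have q22 := hsk 2 2
  have q33 := hsk 3 3
  have q01 := hsk 0 1
  have q02 := hsk 0 2
  have q03 := hsk 0 3
  have q12 := hsk 1 2
  have q13 := hsk 1 3
  have q23 := hsk 2 3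
  simp at q00 q11 q22 q33 q01 q02 q03 q12 q13 q23
  have r00 : Y 0 0 = 0 := by linarith
  have r11 : Y 1 1 = 0 := by linarith
  have r22 : Y 2 2 = 0 := by linarith
  have r33 : Y 3 3 = 0 := by linarith
  have hdiag : ∀ i, Y i 0 * Y 0 i + Y i 1 * Y 1 i + Y i 2 * Y 2 i + Y i 3 * Y 3 i = a := by
    intro i
    have h := congrFun (hall (Pi.single i 1)) i
    rw [mulVec_mulVec, mulVec_single_one] at h
    simp [Matrix.mul_apply, Fin.sum_univ_four] at h
    linarith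
  have d0 := hdiag 0
  have d1 := hdiag 1
  have d2 := hdiag 2
  have d3 := hdiag 3
  rw [r00] at d0
  rw [r11] at d1
  rw [r22] at d2
  rw [r33] at d3
  have s10 : Y 1 0 = Y 0 1 := by linarith
  have s20 : Y 2 0 = Y 0 2 := by linarith
  have s30 : Y 3 0 = Y 0 3 := by linarith
  have s21 : Y 2 1 = -Y 1 2 := by linarith
  have s31 : Y 3 1 = -Y 1 3 := by linarith
  have s32 : Y 3 2 = -Y 2 3 := by linarith
  rw [s10, s20, s30] at d0
  rw [s10, s21, s31] at d1
  rw [s20, s21, s32] at d2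
  rw [s30, s31, s32] at d3
  have t1 : Y 0 2 ^ 2 + Y 0 3 ^ 2 + Y 1 2 ^ 2 + Y 1 3 ^ 2 = 0 := by nlinarith
  have t2 : Y 0 1 ^ 2 + Y 0 3 ^ 2 + Y 1 2 ^ 2 + Y 2 3 ^ 2 = 0 := by nlinarith
  have u02 : Y 0 2 = 0 := by
    nlinarith [sq_nonneg (Y 0 2), sq_nonneg (Y 0 3), sq_nonneg (Y 1 2), sq_nonneg (Y 1 3)]
  have u03 : Y 0 3 = 0 := by
    nlinarith [sq_nonneg (Y 0 2), sq_nonneg (Y 0 3), sq_nonneg (Y 1 2), sq_nonneg (Y 1 3)]
  have u12 : Y 1 2 = 0 := by
    nlinarith [sq_nonneg (Y 0 2), sq_nonneg (Y 0 3), sq_nonneg (Y 1 2), sq_nonneg (Y 1 3)]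
  have u13 : Y 1 3 = 0 := by
    nlinarith [sq_nonneg (Y 0 2), sq_nonneg (Y 0 3), sq_nonneg (Y 1 2), sq_nonneg (Y 1 3)]
  have u01 : Y 0 1 = 0 := by
    nlinarith [sq_nonneg (Y 0 1), sq_nonneg (Y 0 3), sq_nonneg (Y 1 2), sq_nonneg (Y 2 3)]
  have u23 : Y 2 3 = 0 := by
    nlinarith [sq_nonneg (Y 0 1), sq_nonneg (Y 0 3), sq_nonneg (Y 1 2), sq_nonneg (Y 2 3)]
  ext i j
  fin_cases i <;> fin_cases j <;> simp <;> linarith

/-- the sum of the absolute values of the entries -/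
noncomputable def nm (A : Matrix (Fin 4) (Fin 4) ℝ) : ℝ := ∑ i, ∑ j, |A i j|

theorem nm_nonneg (A : Matrix (Fin 4) (Fin 4) ℝ) : 0 ≤ nm A :=
  Finset.sum_nonneg fun _ _ => Finset.sum_nonneg fun _ _ => abs_nonneg _

theorem entry_le_nm (A : Matrix (Fin 4) (Fin 4) ℝ) (i j : Fin 4) : |A i j| ≤ nm A := by
  unfold nm
  refine (Finset.single_le_sum (f := fun j => |A i j|) (fun _ _ => abs_nonneg _)
    (Finset.mem_univ j)).trans ?_
  exact Finset.single_le_sum (f := fun i => ∑ j, |A i j|)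
    (fun _ _ => Finset.sum_nonneg fun _ _ => abs_nonneg _) (Finset.mem_univ i)

theorem nm_le {A : Matrix (Fin 4) (Fin 4) ℝ} {e : ℝ} (h : ∀ i j, |A i j| ≤ e) :
    nm A ≤ 16 * e := by
  unfold nm
  calc ∑ i, ∑ j, |A i j| ≤ ∑ _i : Fin 4, ∑ _j : Fin 4, e :=
        Finset.sum_le_sum fun i _ => Finset.sum_le_sum fun j _ => h i j
    _ = 16 * e := by simp; ring

theorem nm_mul (A B : Matrix (Fin 4) (Fin 4) ℝ) : nm (A * B) ≤ nm A * nm B := by
  unfold nm
  have h1 : ∀ i j, |(A * B) i j| ≤ ∑ k, |A i k| * |B k j| := by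
    intro i j
    rw [mul_apply]
    refine (Finset.abs_sum_le_sum_abs _ _).trans ?_
    exact Finset.sum_le_sum fun k _ => (abs_mul _ _).le
  calc ∑ i, ∑ j, |(A * B) i j| ≤ ∑ i, ∑ j, ∑ k, |A i k| * |B k j| :=
        Finset.sum_le_sum fun i _ => Finset.sum_le_sum fun j _ => h1 i j
    _ = ∑ i, ∑ k, |A i k| * ∑ j, |B k j| := by
        refine Finset.sum_congr rfl fun i _ => ?_
        rw [Finset.sum_comm]
        refine Finset.sum_congr rfl fun k _ => ?_
        rw [Finset.mul_sum]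
    _ ≤ ∑ i, ∑ k, |A i k| * ∑ k, ∑ j, |B k j| := by
        refine Finset.sum_le_sum fun i _ => Finset.sum_le_sum fun k _ => ?_
        refine mul_le_mul_of_nonneg_left ?_ (abs_nonneg _)
        exact Finset.single_le_sum (f := fun k => ∑ j, |B k j|)
          (fun _ _ => Finset.sum_nonneg fun _ _ => abs_nonneg _) (Finset.mem_univ k)
    _ = (∑ i, ∑ j, |A i j|) * ∑ i, ∑ j, |B i j| := by
        rw [Finset.sum_mul]
        refine Finset.sum_congr rfl fun i _ => ?_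
        rw [Finset.sum_mul]

theorem nm_add (A B : Matrix (Fin 4) (Fin 4) ℝ) : nm (A + B) ≤ nm A + nm B := by
  unfold nm
  rw [← Finset.sum_add_distrib]
  refine Finset.sum_le_sum fun i _ => ?_
  rw [← Finset.sum_add_distrib]
  exact Finset.sum_le_sum fun j _ => abs_add_le _ _

theorem nm_neg (A : Matrix (Fin 4) (Fin 4) ℝ) : nm (-A) = nm A := by
  unfold nm
  simp

theorem nm_sub (A B : Matrix (Fin 4) (Fin 4) ℝ) : nm (A - B) ≤ nm A + nm B := by
  rw [sub_eq_add_neg, ← nm_neg B]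
  exact nm_add _ _

theorem nm_one : nm 1 = 4 := by
  unfold nm
  simp [Fin.sum_univ_four, Matrix.one_apply]
  norm_num

theorem nm_inv {g : GL (Fin 4) ℝ} (hg : g ∈ IsomH3) : nm (g⁻¹.1 - 1) = nm (g.1 - 1) := by
  unfold nm
  rw [Finset.sum_comm]
  refine Finset.sum_congr rfl fun i _ => Finset.sum_congr rfl fun j _ => ?_
  have := inv_entry hg j i
  simpa using this

theorem nm_inv_le {g : GL (Fin 4) ℝ} (hg : g ∈ IsomH3) : nm g⁻¹.1 ≤ 4 + nm (g.1 - 1) := by
  have h1 : g⁻¹.1 = 1 + (g⁻¹.1 - 1) := by abel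
  rw [h1]
  refine (nm_add _ _).trans ?_
  rw [nm_one, nm_inv hg]

/-- the estimate for commutators -/
theorem comm_bound {g R : GL (Fin 4) ℝ} (hg : g ∈ IsomH3) (hR : R * R = 1)
    {e r : ℝ} (he : nm (g.1 - 1) ≤ e) (he1 : e ≤ 1) (hr : nm R.1 ≤ r) :
    nm ((g * (R * g * R) * g⁻¹ * (R * g * R)⁻¹).1 - 1) ≤ 50 * r ^ 4 * e ^ 2 := by
  have hRinv : R⁻¹ = R := inv_eq_of_mul_eq_one_left hR
  have hr0 : 0 ≤ r := (nm_nonneg _).trans hr
  have he0 : 0 ≤ e := (nm_nonneg _).trans he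
  have hR' : R.1 * R.1 = 1 := by
    rw [← Units.val_mul, hR, Units.val_one]
  set E := g.1 - 1 with hE
  set E' := R.1 * E * R.1 with hE'
  have h1 : (R * g * R).1 - 1 = E' := by
    rw [hE', hE, mul_sub, sub_mul, mul_one, hR', Units.val_mul, Units.val_mul]
  have h2 : nm E' ≤ r * e * r := by
    rw [hE']
    refine (nm_mul _ _).trans ?_
    refine mul_le_mul ((nm_mul _ _).trans ?_) hr (nm_nonneg _) (by positivity)
    exact mul_le_mul hr he (nm_nonneg _) hr0
  have h3 : (g * (R * g * R) * g⁻¹ * (R * g * R)⁻¹).1 - 1 =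
      (E * E' - E' * E) * (g⁻¹.1 * (R.1 * g⁻¹.1 * R.1)) := by
    have e1 : (R * g * R)⁻¹ = R * g⁻¹ * R := by
      rw [_root_.mul_inv_rev, _root_.mul_inv_rev, hRinv, mul_assoc]
    have e2 : E * E' - E' * E = g.1 * (R * g * R).1 - (R * g * R).1 * g.1 := by
      have e3 : g.1 = 1 + E := by rw [hE]; abel
      have e4 : (R * g * R).1 = 1 + E' := by rw [← h1]; abel
      rw [e4, e3]
      noncomm_ring
    rw [e2, sub_mul]
    have e5 : (R * g * R).1 * g.1 * (g⁻¹.1 * (R.1 * g⁻¹.1 * R.1)) = 1 := by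
      have : (R * g * R) * g * (g⁻¹ * (R * g⁻¹ * R)) = 1 := by
        rw [← e1]; group
      have h := congrArg Units.val this
      simpa only [Units.val_mul, Units.val_one] using h
    rw [e5, e1]
    simp only [Units.val_mul, mul_assoc]
  rw [h3]
  have h4 : nm (E * E' - E' * E) ≤ 2 * (e * (r * e * r)) := by
    refine (nm_sub _ _).trans ?_
    have a1 : nm (E * E') ≤ e * (r * e * r) :=
      (nm_mul _ _).trans (mul_le_mul he h2 (nm_nonneg _) he0)
    have a2 : nm (E' * E) ≤ (r * e * r) * e :=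
      (nm_mul _ _).trans (mul_le_mul h2 he (nm_nonneg _) (by positivity))
    linarith
  have h5 : nm g⁻¹.1 ≤ 5 := (nm_inv_le hg).trans (by linarith)
  have h6 : nm (R.1 * g⁻¹.1 * R.1) ≤ r * 5 * r := by
    refine (nm_mul _ _).trans ?_
    refine mul_le_mul ((nm_mul _ _).trans ?_) hr (nm_nonneg _) (by positivity)
    exact mul_le_mul hr h5 (nm_nonneg _) hr0
  calc nm ((E * E' - E' * E) * (g⁻¹.1 * (R.1 * g⁻¹.1 * R.1)))
      ≤ nm (E * E' - E' * E) * nm (g⁻¹.1 * (R.1 * g⁻¹.1 * R.1)) := nm_mul _ _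
    _ ≤ (2 * (e * (r * e * r))) * (5 * (r * 5 * r)) := by
        apply mul_le_mul h4 ((nm_mul _ _).trans _) (nm_nonneg _) (by positivity)
        exact mul_le_mul h5 h6 (nm_nonneg _) (by norm_num)
    _ = 50 * r ^ 4 * e ^ 2 := by ring

/-- an isometry which commutes with its conjugates under the first four reflections is an
involution -/
theorem sq_eq_one {g : GL (Fin 4) ℝ} (hg : g ∈ IsomH3)
    (hc : ∀ i < 4, g * (rG (emb (ww i)) * g * rG (emb (ww i))) =
      (rG (emb (ww i)) * g * rG (emb (ww i))) * g) : g * g = 1 := by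
  have hRR : ∀ i, rG (emb (ww i)) * rG (emb (ww i)) = 1 := fun i => rG_sq (norm_ww i).ne'
  have hY : g.1 - g⁻¹.1 = 0 := by
    have hact : ∀ x, (g.1 - g⁻¹.1) *ᵥ x = ap g x - ap g⁻¹ x := by
      intro x; rw [sub_mulVec]; rfl
    apply skew_zero
    · intro x y
      rw [hact, hact, lor_sub_left, lor_sub_right, lor_ap_left hg, lor_ap_left (inv_mem hg),
        inv_inv]
      ring
    · intro i hi x
      have h1 := hc i hi
      set R := rG (emb (ww i))
      have hR := hRR i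
      have hRinv : R⁻¹ = R := inv_eq_of_mul_eq_one_left hR
      set k := R * g * R with hk
      have hkinv : k⁻¹ = R * g⁻¹ * R := by
        rw [hk, _root_.mul_inv_rev, _root_.mul_inv_rev, hRinv, mul_assoc]
      have c1 : Commute g k := h1
      have c2 : Commute g⁻¹ k := c1.inv_left
      have c3 : Commute g k⁻¹ := c1.inv_right
      have c4 : Commute g⁻¹ k⁻¹ := c1.inv_inv
      have key : ∀ {a b : GL (Fin 4) ℝ}, Commute a (R * b * R) →
          ∀ x, ap a (ap R (ap b (ap R x))) = ap R (ap b (ap R (ap a x))) := by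
        intro a b hab x
        have := congrArg (fun m => ap m x) hab.eq
        simpa only [ap_mul] using this
      rw [hkinv] at c3 c4
      rw [hact, hact, hact, hact, ap_sub R, ap_sub R (ap g _), ap_sub g, ap_sub g⁻¹,
        key c1, key c2, key c3, key c4]
      simp only [ap_sub]
      abel
  have h2 : g = g⁻¹ := Units.ext (sub_eq_zero.1 hY)
  calc g * g = g * g⁻¹ := by rw [← h2]
    _ = 1 := mul_inv_cancel g

theorem eq_one_of_sq {g : GL (Fin 4) ℝ} (h : g * g = 1) (hn : nm (g.1 - 1) < 1) : g = 1 := by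
  set E := g.1 - 1 with hE
  have h1 : E * E = -(E + E) := by
    have e1 : g.1 * g.1 = 1 := by rw [← Units.val_mul, h, Units.val_one]
    rw [hE, sub_mul, mul_sub, mul_sub, e1]
    simp only [mul_one, one_mul]
    abel
  have h2 : nm (E + E) = 2 * nm E := by
    have : E + E = (2 : ℝ) • E := by module
    rw [this]
    unfold nm
    simp [abs_mul, ← Finset.mul_sum]
  have h3 := nm_mul E E
  rw [h1, nm_neg, h2] at h3
  have h4 : nm E = 0 := by
    have := nm_nonneg E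
    nlinarith
  apply Units.ext
  rw [Units.val_one]
  have h5 : E = 0 := by
    ext i j
    have := entry_le_nm E i j
    rw [h4] at this
    simpa using this
  exact sub_eq_zero.1 h5

/-- Uniform discreteness: all discrete groups of isometries which contain the first four
reflections are separated by the same constant. -/
theorem uniform : ∃ ε > 0, ∀ M : Subgroup (GL (Fin 4) ℝ), M ≤ IsomH3 → DiscreteTopology M →
    (∀ i < 4, rG (emb (ww i)) ∈ M) → Sep ε M := by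
  obtain ⟨r, hr⟩ : ∃ r : ℝ, ∀ i < 4, nm (rG (emb (ww i))).1 ≤ r := by
    refine ⟨∑ i ∈ Finset.range 4, nm (rG (emb (ww i))).1, fun i hi => ?_⟩
    exact Finset.single_le_sum (f := fun i => nm (rG (emb (ww i))).1)
      (fun _ _ => nm_nonneg _) (Finset.mem_range.2 hi)
  have hr0 : 0 ≤ r := (nm_nonneg _).trans (hr 0 (by norm_num))
  set δ : ℝ := 1 / (50 * r ^ 4 + 2) with hδ
  have hδ0 : 0 < δ := by positivity
  have hδ1 : δ < 1 := by
    rw [hδ, div_lt_one (by positivity)]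
    have : 0 ≤ r ^ 4 := by positivity
    linarith
  have hδ2 : 50 * r ^ 4 * δ < 1 := by
    rw [hδ, mul_one_div, div_lt_one (by positivity)]
    linarith
  refine ⟨δ / 16, by positivity, fun M hM hd hR => ?_⟩
  obtain ⟨ε', hε', hsep⟩ := sep_of_discrete hM hd
  obtain ⟨N, hN⟩ := finite_bound ε' 2 hε'
  have hfin := (hN M hM hsep).1
  intro g hg hgε
  by_contra hg1
  have hgn : nm (g.1 - 1) ≤ δ := by
    have : nm (g.1 - 1) ≤ 16 * (δ / 16) := nm_le fun i j => (hgε i j).le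
    linarith
  set T := {h : GL (Fin 4) ℝ | h ∈ M ∧ h ≠ 1 ∧ nm (h.1 - 1) ≤ δ} with hT
  have hTfin : T.Finite := by
    apply hfin.subset
    rintro h ⟨hh, _, hhn⟩
    refine ⟨hh, ?_⟩
    have h1 := (entry_le_nm (h.1 - 1) 0 0).trans hhn
    have h2 := (abs_le.1 h1).2
    simp at h2
    linarith
  obtain ⟨h, hhT, hmin⟩ := Set.exists_min_image T (fun h => nm (h.1 - 1)) hTfin
    ⟨g, hg, hg1, hgn⟩
  obtain ⟨hh, hh1, hhn⟩ := hhT
  have hpos : 0 < nm (h.1 - 1) := by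
    rcases (nm_nonneg (h.1 - 1)).lt_or_eq with h1 | h1
    · exact h1
    · exfalso
      apply hh1
      apply Units.ext
      rw [Units.val_one]
      apply sub_eq_zero.1
      ext i j
      have := entry_le_nm (h.1 - 1) i j
      rw [← h1] at this
      simpa using this
  have hcomm : ∀ i < 4, h * (rG (emb (ww i)) * h * rG (emb (ww i))) =
      (rG (emb (ww i)) * h * rG (emb (ww i))) * h := by
    intro i hi
    have hRR : rG (emb (ww i)) * rG (emb (ww i)) = 1 := rG_sq (norm_ww i).ne'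
    set c := h * (rG (emb (ww i)) * h * rG (emb (ww i))) * h⁻¹ *
      (rG (emb (ww i)) * h * rG (emb (ww i)))⁻¹ with hc
    have hRM := hR i hi
    have hcM : c ∈ M := by
      have h1 : rG (emb (ww i)) * h * rG (emb (ww i)) ∈ M := mul_mem (mul_mem hRM hh) hRM
      exact mul_mem (mul_mem (mul_mem hh h1) (inv_mem hh)) (inv_mem h1)
    have hb := comm_bound (hM hh) hRR (le_refl (nm (h.1 - 1))) (hhn.trans hδ1.le) (hr i hi)
    rw [← hc] at hb
    have hlt : nm (c.1 - 1) < nm (h.1 - 1) := by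
      refine hb.trans_lt ?_
      have h1 : 50 * r ^ 4 * nm (h.1 - 1) < 1 :=
        (mul_le_mul_of_nonneg_left hhn (by positivity)).trans_lt hδ2
      nlinarith
    have hc1 : c = 1 := by
      by_contra hne
      have := hmin c ⟨hcM, hne, hlt.le.trans hhn⟩
      linarith
    rw [hc, mul_inv_eq_one, mul_inv_eq_iff_eq_mul] at hc1
    exact hc1
  exact hh1 (eq_one_of_sq (sq_eq_one (hM hh) hcomm) (hhn.trans_lt hδ1))

end Pool.Agent.P8H79.QA
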