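import Pool.Agent.P8H79.QA.Chain

/-! The groups `Γ m`. -/

set_option autoImplicit false

open Matrix MeasureTheory

namespace Pool.Agent.P8H79.QA

/-- the walls of the polyhedron `P m` (in the coordinates of the rational form) -/
noncomputable def wl (m : ℕ) : Fin (m + 3) ⊕ Bool → (Fin 4 → ℝ)
  | .inl i => ww i
  | .inr false => -uu 0
  | .inr true => uu m

theorem good_emb {v w : Fin 4 → ℝ} (h : qf v w = 0 ∨
    (qf v w < 0 ∧ 4 * (qf v w) ^ 2 = 3 * (qf v v * qf w w)) ∨
    (qf v w < 0 ∧ qf v v * qf w w ≤ (qf v w) ^ 2)) : Good (emb v) (emb w) := by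
  unfold Good
  rw [lor_emb, lor_emb, lor_emb]
  exact h

theorem good_ww_lt {i j : ℕ} (h : i < j) : Good (emb (ww i)) (emb (ww j)) := by
  obtain ⟨k, rfl⟩ : ∃ k, j = i + k := ⟨j - i, by omega⟩
  apply good_emb
  rw [qf_ww, qf_ww_self, qf_ww_self]
  have h3 : (0 : ℝ) < 3 ^ i := by positivity
  rcases Nat.lt_or_ge k 4 with h4 | h4
  · have hk : 0 < k := by omega
    interval_cases k
    · right; left
      have e1 : qf (ww 0) (ww 1) = -3 := by rw [ww_zero, ww_one]; simp [qf]; norm_num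
      rw [e1]
      refine ⟨by linarith, ?_⟩
      ring
    · left
      have e2 : qf (ww 0) (ww 2) = 0 := by rw [ww_zero, ww_two]; simp [qf]
      rw [e2, mul_zero]
    · left
      have e2 : qf (ww 0) (ww 3) = 0 := by rw [ww_zero, ww_three]; simp [qf]
      rw [e2, mul_zero]
  · right; right
    have := ww_good h4
    refine ⟨mul_neg_of_pos_of_neg h3 this.1, ?_⟩
    have e : (2 : ℝ) * 3 ^ i * (2 * 3 ^ (i + k)) = (3 ^ i) ^ 2 * (4 * 3 ^ k) := by
      rw [pow_add]; ring
    rw [e, mul_pow]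
    exact mul_le_mul_of_nonneg_left this.2 (by positivity)

theorem good_ww {i j : ℕ} (h : i ≠ j) : Good (emb (ww i)) (emb (ww j)) := by
  rcases Nat.lt_or_gt_of_ne h with h | h
  · exact good_ww_lt h
  · exact (good_ww_lt h).symm

theorem good_uw (j : ℕ) : Good (emb (-uu 0)) (emb (ww j)) := by
  apply good_emb
  rw [qf_neg_left, qf_neg_left, qf_neg_right, qf_uu_self, qf_ww_self, neg_neg]
  rcases Nat.lt_or_ge j 3 with h4 | h4
  · left
    rw [uw_zero h4, neg_zero]
  · right; right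
    have := uw_good h4
    refine ⟨by linarith [this.1], ?_⟩
    rw [neg_sq]
    calc (33 : ℝ) * 3 ^ 0 * (2 * 3 ^ j) = 66 * 3 ^ j := by ring
      _ ≤ _ := this.2

theorem good_um {m j : ℕ} (hj : j < m + 3) : Good (emb (uu m)) (emb (ww j)) := by
  rcases Nat.lt_or_ge j m with h | h
  · obtain ⟨k, rfl⟩ : ∃ k, m = j + k := ⟨m - j, by omega⟩
    apply Good.symm
    apply good_emb
    rw [qf_wu, qf_uu_self, qf_ww_self]
    right; right
    have := wu_good (k := k) (by omega)
    have h3 : (0 : ℝ) < 3 ^ j := by positivity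
    refine ⟨mul_neg_of_pos_of_neg h3 this.1, ?_⟩
    have e : (2 : ℝ) * 3 ^ j * (33 * 3 ^ (j + k)) = (3 ^ j) ^ 2 * (66 * 3 ^ k) := by
      rw [pow_add]; ring
    rw [e, mul_pow]
    exact mul_le_mul_of_nonneg_left this.2 (by positivity)
  · obtain ⟨k, rfl⟩ : ∃ k, j = m + k := ⟨j - m, by omega⟩
    apply good_emb
    left
    rw [qf_uw, uw_zero (by omega), mul_zero]

theorem good_uu {m : ℕ} (hm : 1 ≤ m) : Good (emb (-uu 0)) (emb (uu m)) := by
  apply good_emb
  rw [qf_neg_left, qf_neg_left, qf_neg_right, qf_uu_self, qf_uu_self, neg_neg]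
  right; right
  have := uu_good hm
  refine ⟨by linarith [this.1], ?_⟩
  rw [neg_sq]
  calc (33 : ℝ) * 3 ^ 0 * (33 * 3 ^ m) = 1089 * 3 ^ m := by ring
    _ ≤ _ := this.2

theorem good_wl {m : ℕ} (hm : 1 ≤ m) (s t : Fin (m + 3) ⊕ Bool) (hst : s ≠ t) :
    Good (emb (wl m s)) (emb (wl m t)) := by
  match s, t with
  | .inl i, .inl j =>
    apply good_ww
    intro h
    apply hst
    rw [Fin.ext h]
  | .inl i, .inr false => exact (good_uw _).symm
  | .inl i, .inr true => exact (good_um i.2).symm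
  | .inr false, .inl i => exact good_uw _
  | .inr true, .inl i => exact good_um i.2
  | .inr false, .inr true => exact good_uu hm
  | .inr true, .inr false => exact (good_uu hm).symm
  | .inr true, .inr true => exact absurd rfl hst
  | .inr false, .inr false => exact absurd rfl hst

theorem norm_ww (i : ℕ) : 0 < lor (emb (ww i)) (emb (ww i)) := by
  rw [lor_emb, qf_ww_self]; positivity

theorem norm_uu (i : ℕ) : 0 < lor (emb (uu i)) (emb (uu i)) := by
  rw [lor_emb, qf_uu_self]; positivity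

theorem norm_wl (m : ℕ) (s : Fin (m + 3) ⊕ Bool) : 0 < lor (emb (wl m s)) (emb (wl m s)) := by
  match s with
  | .inl i => exact norm_ww i
  | .inr false =>
    show 0 < lor (emb (-uu 0)) (emb (-uu 0))
    rw [emb_neg, lor_neg_left, lor_neg_right, neg_neg]
    exact norm_uu 0
  | .inr true => exact norm_uu m

/-- the system of walls of `P (m + 1)` -/
noncomputable def sys (m : ℕ) : Sys (Fin (m + 1 + 3) ⊕ Bool) :=
  mkSys (fun s => emb (wl (m + 1) s)) (norm_wl (m + 1)) (good_wl (by omega))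

/-- the group of the polyhedron `P (m + 1)` -/
noncomputable def Gam (m : ℕ) : Subgroup (GL (Fin 4) ℝ) := (sys m).grp

theorem sys_R (m : ℕ) (s : Fin (m + 1 + 3) ⊕ Bool) : (sys m).R s = rG (emb (wl (m + 1) s)) := rfl

theorem sys_e (m : ℕ) (s : Fin (m + 1 + 3) ⊕ Bool) : (sys m).e s = nv (emb (wl (m + 1) s)) := rfl

theorem lor_nv_right (x v : Fin 4 → ℝ) : lor x (nv v) = (Real.sqrt (lor v v))⁻¹ * lor x v := by
  unfold nv
  rw [lor_smul_right]

theorem lor_nv_neg {x v : Fin 4 → ℝ} (hv : 0 < lor v v) : lor x (nv v) < 0 ↔ lor x v < 0 := by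
  rw [lor_nv_right]
  have : 0 < (Real.sqrt (lor v v))⁻¹ := inv_pos.2 (Real.sqrt_pos.2 hv)
  constructor
  · intro h
    by_contra hcon
    push Not at hcon
    have := mul_nonneg this.le hcon
    linarith
  · intro h
    exact mul_neg_of_pos_of_neg this h

theorem lor_nv_nonpos {x v : Fin 4 → ℝ} (hv : 0 < lor v v) : lor x (nv v) ≤ 0 ↔ lor x v ≤ 0 := by
  rw [lor_nv_right]
  have : 0 < (Real.sqrt (lor v v))⁻¹ := inv_pos.2 (Real.sqrt_pos.2 hv)
  constructor
  · intro h
    by_contra hcon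
    push Not at hcon
    have := mul_pos this hcon
    linarith
  · intro h
    exact mul_nonpos_of_nonneg_of_nonpos this.le h

/-! ### an interior point -/

/-- the interior point -/
noncomputable def yy : Fin 4 → ℝ := ![1, -3 / 20, -1 / 4, 1 / 50]

theorem yy_ww (k : ℕ) : qf yy (ww k) < 0 := by
  have h := (rec_ww yy).neg
  have e0 : qf yy (ww 0) = -3 / 10 := by rw [ww_zero]; simp [qf, yy]; norm_num
  have e1 : qf yy (ww 1) = -3 / 10 := by rw [ww_one]; simp [qf, yy]; norm_num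
  have e2 : qf yy (ww 2) = -3 / 2 := by rw [ww_two]; simp [qf, yy]; norm_num
  have e3 : qf yy (ww 3) = -351 / 100 := by rw [ww_three]; simp [qf, yy]; norm_num
  have := h.mono (a := 0) (by simp [e0]; norm_num) (by simp [e0, e1])
    (by simp [e1, e2]; norm_num) (by simp [e2, e3]; norm_num)
  rcases Nat.eq_zero_or_pos k with hk | hk
  · subst hk; rw [e0]; norm_num
  · have key : ∀ j, 3 / 10 ≤ -qf yy (ww (0 + j)) := by
      intro j
      induction j with
      | zero => rw [e0]; norm_num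
      | succ j ih => exact ih.trans (this j).2.1
    have := key k
    rw [zero_add] at this
    linarith

theorem yy_uu_zero : 0 < qf yy (uu 0) := by
  rw [uu_zero]; simp [qf, yy]

theorem yy_uu {k : ℕ} (hk : 1 ≤ k) : qf yy (uu k) < 0 := by
  have h := (rec_uu yy).neg
  have e0 : qf yy (uu 0) = 33 / 50 := by rw [uu_zero]; simp [qf, yy]; norm_num
  have e1 : qf yy (uu 1) = -1683 / 200 := by rw [uu_one]; simp [qf, yy]; norm_num
  have e2 : qf yy (uu 2) = -1881 / 40 := by rw [uu_two]; simp [qf, yy]; norm_num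
  have e3 : qf yy (uu 3) = -9603 / 40 := by rw [uu_three]; simp [qf, yy]; norm_num
  have e4 : qf yy (uu 4) = -9801 / 8 := by
    have := rec_uu yy 0
    simp only [zero_add, e0, e1, e2, e3] at this
    rw [this]; norm_num
  have := h.mono (a := 1) (by simp [e1]; norm_num) (by simp [e1, e2]; norm_num)
    (by simp [e2, e3]; norm_num) (by simp [e3, e4]; norm_num)
  obtain ⟨j, rfl⟩ : ∃ j, k = 1 + j := ⟨k - 1, by omega⟩
  have key : ∀ j, 1 ≤ -qf yy (uu (1 + j)) := by
    intro j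
    induction j with
    | zero => rw [add_zero, e1]; norm_num
    | succ j ih => exact ih.trans (this j).2.1
  have := key j
  linarith

theorem yy_self : qf yy yy = -1417 / 2500 := by simp [qf, yy]; norm_num

/-- the interior point on the hyperboloid -/
noncomputable def xx : Fin 4 → ℝ := (Real.sqrt (1417 / 2500))⁻¹ • emb yy

theorem xx_mem : xx ∈ Hyp := by
  have h1 : Real.sqrt (1417 / 2500) * Real.sqrt (1417 / 2500) = 1417 / 2500 :=
    Real.mul_self_sqrt (by norm_num)
  have h2 : 0 < Real.sqrt (1417 / 2500) := Real.sqrt_pos.2 (by norm_num)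
  constructor
  · unfold xx
    rw [lor_smul_left, lor_smul_right, lor_emb, yy_self]
    field_simp
    nlinarith
  · simp [xx, emb, yy]

theorem xx_neg (m : ℕ) (s : Fin (m + 1 + 3) ⊕ Bool) : lor xx ((sys m).e s) < 0 := by
  rw [sys_e, lor_nv_neg (norm_wl _ _)]
  unfold xx
  rw [lor_smul_left, lor_emb]
  have h2 : 0 < (Real.sqrt (1417 / 2500))⁻¹ := inv_pos.2 (Real.sqrt_pos.2 (by norm_num))
  apply mul_neg_of_pos_of_neg h2
  match s with
  | .inl i => exact yy_ww i
  | .inr false =>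
    show qf yy (-uu 0) < 0
    rw [qf_neg_right]
    linarith [yy_uu_zero]
  | .inr true => exact yy_uu (by omega)

theorem gam_le (m : ℕ) : Gam m ≤ IsomH3 := (sys m).grp_le

theorem gam_sep (m : ℕ) : ∃ ε > 0, Sep ε (Gam m) := (sys m).sep (xx_neg m)

/-! ### the chamber is bounded -/

/-- the tile -/
theorem tile_bound {z : Fin 4 → ℝ} (h0 : qf z (ww 0) ≤ 0) (h1 : qf z (ww 1) ≤ 0)
    (h2 : qf z (ww 2) ≤ 0) (h3 : qf z (ww 3) ≤ 0) (hb : 0 ≤ qf z (uu 0))
    (ht : qf z (uu 1) ≤ 0) : (z 0) ^ 2 ≤ 200 * (-qf z z) := by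
  rw [ww_zero] at h0
  rw [ww_one] at h1
  rw [ww_two] at h2
  rw [ww_three] at h3
  rw [uu_zero] at hb
  rw [uu_one] at ht
  simp [qf] at h0 h1 h2 h3 hb ht
  obtain ⟨X, hX⟩ : ∃ X, X = -z 1 := ⟨_, rfl⟩
  obtain ⟨Y, hY⟩ : ∃ Y, Y = -z 2 := ⟨_, rfl⟩
  have z1 : z 1 = -X := by rw [hX]; ring
  have z2 : z 2 = -Y := by rw [hY]; ring
  unfold qf
  rw [z1, z2] at *
  set W := z 0
  set Z := z 3
  have a0 : 0 ≤ X := by linarith
  have a1 : X ≤ Y := by linarith
  have a2 : 3 * Y ≤ W := by linarith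
  have a3 : 11 * Z ≤ W := by linarith
  have a4 : 0 ≤ Z := by linarith
  have a5 : 2 * X + 6 * Y + 9 * Z ≤ 3 * W := by linarith
  have hW : 0 ≤ W := by linarith
  have goal' : W ^ 2 / 200 ≤ W ^ 2 - 2 * X ^ 2 - 6 * Y ^ 2 - 33 * Z ^ 2 := by
    rcases le_or_gt Y (3 / 10 * W) with hY3 | hY3
    · have b1 : X ^ 2 ≤ Y ^ 2 := by nlinarith
      have b2 : Y ^ 2 ≤ (3 / 10 * W) ^ 2 := by nlinarith
      have b3 : Z ^ 2 ≤ (W / 11) ^ 2 := by nlinarith
      nlinarith
    · rcases le_or_gt Z (W / 30) with hZ | hZ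
      · have b1 : X ^ 2 ≤ Y ^ 2 := by nlinarith
        have b2 : Y ^ 2 ≤ (W / 3) ^ 2 := by nlinarith
        have b3 : Z ^ 2 ≤ (W / 30) ^ 2 := by nlinarith
        nlinarith
      · have b1 : (2 * X) ^ 2 ≤ (3 * W - 6 * Y - 9 * Z) ^ 2 := by nlinarith
        have p1 := mul_nonneg (sub_nonneg.2 hY3.le) (sub_nonneg.2 (show Y ≤ W / 3 by linarith))
        have p2 := mul_nonneg (sub_nonneg.2 hZ.le) (sub_nonneg.2 (show Z ≤ W / 11 by linarith))
        have p3 := mul_nonneg (sub_nonneg.2 hY3.le) (sub_nonneg.2 hZ.le)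
        have p4 := mul_nonneg (sub_nonneg.2 hY3.le) (sub_nonneg.2 (show Z ≤ W / 11 by linarith))
        have p5 := mul_nonneg (sub_nonneg.2 (show Y ≤ W / 3 by linarith)) (sub_nonneg.2 hZ.le)
        have p6 := mul_nonneg (sub_nonneg.2 (show Y ≤ W / 3 by linarith))
          (sub_nonneg.2 (show Z ≤ W / 11 by linarith))
        nlinarith [sq_nonneg W]
  nlinarith

end Pool.Agent.P8H79.QA
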